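import Pool.Agent.H63.Trees

/-!
# The starting potential of the family of certificates
-/

namespace Pool.Agent.H63

open Finset Module

noncomputable section

open Classical in
/-- shapes of depth at most `d` with labels in `Z` -/
def shapesF (Z : Finset (Finset (ℕ × ℕ))) : ℕ → Finset Sh
  | 0 => ∅
  | d + 1 => Z.image Sh.leaf ∪ ((shapesF Z d) ×ˢ (shapesF Z d)).image (fun p => Sh.att p.1 p.2)

lemma sum_shapes (Z : Finset (Finset (ℕ × ℕ))) (w : ℝ) (hw : 0 ≤ w) (hZ : (Z.card : ℝ) * w ≤ 1/8)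
    (d : ℕ) : ∑ s ∈ shapesF Z d, w ^ s.size ≤ 1/4 := by
  classical
  induction d with
  | zero => simp [shapesF]
  | succ d ih =>
    have hnn : 0 ≤ ∑ s ∈ shapesF Z d, w ^ s.size := sum_nonneg (fun s _ => pow_nonneg hw _)
    have h1 : ∑ s ∈ Z.image Sh.leaf, w ^ s.size ≤ (Z.card : ℝ) * w := by
      calc ∑ s ∈ Z.image Sh.leaf, w ^ s.size ≤ ∑ z ∈ Z, w ^ (Sh.leaf z).size := by
            rw [sum_image]
            intro x _ y _ h
            exact Sh.leaf.inj h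
        _ = (Z.card : ℝ) * w := by simp [Sh.size]
    have h2 : ∑ s ∈ ((shapesF Z d) ×ˢ (shapesF Z d)).image (fun p => Sh.att p.1 p.2), w ^ s.size ≤
        (∑ s ∈ shapesF Z d, w ^ s.size) * (∑ s ∈ shapesF Z d, w ^ s.size) := by
      rw [sum_image]
      · rw [sum_mul_sum, ← sum_product']
        apply le_of_eq
        apply sum_congr rfl
        intro p _
        simp only [Sh.size]
        rw [pow_add]
      · intro x _ y _ h
        have := Sh.att.inj h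
        exact Prod.ext this.1 this.2
    have h3 : ∑ s ∈ shapesF Z (d+1), w ^ s.size ≤ ∑ s ∈ Z.image Sh.leaf, w ^ s.size +
        ∑ s ∈ ((shapesF Z d) ×ˢ (shapesF Z d)).image (fun p => Sh.att p.1 p.2), w ^ s.size := by
      show ∑ s ∈ Z.image Sh.leaf ∪ ((shapesF Z d) ×ˢ (shapesF Z d)).image (fun p => Sh.att p.1 p.2),
        w ^ s.size ≤ _
      rw [← sum_union_inter]
      have : 0 ≤ ∑ x ∈ image Sh.leaf Z ∩ image (fun p => p.1.att p.2) (shapesF Z d ×ˢ shapesF Z d),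
        w ^ x.size := sum_nonneg (fun s _ => pow_nonneg hw _)
      linarith
    nlinarith

/-- labels -/
def ZZ (q k : ℕ) : Finset (Finset (ℕ × ℕ)) :=
  ((range q ×ˢ range q).powerset).filter (fun z => z.card ≤ k)

lemma card_ZZ (q k : ℕ) : (ZZ q k).card ≤ (q ^ 2 + 1) ^ k := by
  classical
  let F : (Fin k → Option (Fin q × Fin q)) → Finset (ℕ × ℕ) := fun f =>
    univ.biUnion (fun j => (f j).elim ∅ (fun p => {((p.1 : ℕ), (p.2 : ℕ))}))
  have hsub : ZZ q k ⊆ univ.image F := by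
    intro z hz
    simp only [ZZ, mem_filter, mem_powerset] at hz
    rw [mem_image]
    let e := z.equivFin
    refine ⟨fun j => if h : (j:ℕ) < z.card then
      some (⟨(e.symm ⟨j, h⟩).1.1, ?_⟩, ⟨(e.symm ⟨j, h⟩).1.2, ?_⟩) else none, mem_univ _, ?_⟩
    · have := hz.1 (e.symm ⟨j, h⟩).2
      rw [mem_product, mem_range, mem_range] at this
      exact this.1
    · have := hz.1 (e.symm ⟨j, h⟩).2
      rw [mem_product, mem_range, mem_range] at this
      exact this.2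
    · ext p
      simp only [F, mem_biUnion, mem_univ, true_and]
      constructor
      · rintro ⟨j, hj⟩
        by_cases h : (j:ℕ) < z.card
        · rw [dif_pos h] at hj
          simp only [Option.elim_some, mem_singleton] at hj
          rw [hj]
          exact (e.symm ⟨j, h⟩).2
        · rw [dif_neg h] at hj
          simp at hj
      · intro hp
        refine ⟨⟨(e ⟨p, hp⟩ : ℕ), lt_of_lt_of_le (e ⟨p, hp⟩).2 hz.2⟩, ?_⟩
        rw [dif_pos (e ⟨p, hp⟩).2]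
        simp
  calc (ZZ q k).card ≤ (univ.image F).card := card_le_card hsub
    _ ≤ (univ : Finset (Fin k → Option (Fin q × Fin q))).card := card_image_le
    _ = (q ^ 2 + 1) ^ k := by
      rw [card_univ, Fintype.card_fun, Fintype.card_option, Fintype.card_prod, Fintype.card_fin,
        Fintype.card_fin]
      ring

lemma leaf_mem_shapes (Z : Finset (Finset (ℕ × ℕ))) (z) (hz : z ∈ Z) (d : ℕ) (hd : 1 ≤ d) :
    Sh.leaf z ∈ shapesF Z d := by
  classical
  obtain ⟨d, rfl⟩ : ∃ e, d = e + 1 := ⟨d - 1, by omega⟩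
  show Sh.leaf z ∈ Z.image Sh.leaf ∪ _
  exact mem_union_left _ (mem_image_of_mem _ hz)

lemma valid_mem_shapes (q k : ℕ) (s : Sh) : ∀ (r : s.Ix → Rect), Valid q k s r →
    ∀ d, s.size ≤ d → s ∈ shapesF (ZZ q k) d := by
  classical
  induction s with
  | leaf z =>
    intro r hv d hd
    apply leaf_mem_shapes _ _ _ _ hd
    simp only [ZZ, mem_filter, mem_powerset]
    exact ⟨hv.2.1, hv.1⟩
  | att s s' ih ih' =>
    intro r hv d hd
    have h1 := s.size_pos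
    have h2 := s'.size_pos
    simp only [Sh.size] at hd
    obtain ⟨d, rfl⟩ : ∃ e, d = e + 1 := ⟨d - 1, by omega⟩
    show Sh.att s s' ∈ _ ∪ ((shapesF (ZZ q k) d) ×ˢ (shapesF (ZZ q k) d)).image
      (fun p => Sh.att p.1 p.2)
    apply mem_union_right
    rw [mem_image]
    refine ⟨(s, s'), ?_, rfl⟩
    rw [mem_product]
    exact ⟨ih _ hv.1 d (by omega), ih' _ hv.2.1 d (by omega)⟩

/-- clusters -/
abbrev Cl := Σ s : Sh, (s.Ix → Rect)

open Classical in
/-- certificates with more than `lo` and at most `hi` leaves -/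
def IB (N q k lo hi : ℕ) : Finset Cl :=
  ((shapesF (ZZ q k) hi).sigma (fun s => Fintype.piFinset (fun _ : s.Ix => Q N q))).filter
    (fun C => Valid q k C.1 C.2 ∧ lo < C.1.size ∧ C.1.size ≤ hi)

/-- sums over pairs -/
lemma sum_pairs {ι : Type} [Fintype ι] [DecidableEq ι] (P' : Finset (ℕ × ℕ))
    (f : (ι → ℕ × ℕ) → ℝ) :
    ∑ r ∈ Fintype.piFinset (fun _ : ι => P' ×ˢ P'), f (fun i => (r i).1) * f (fun i => (r i).2) =
      (∑ v ∈ Fintype.piFinset (fun _ : ι => P'), f v) ^ 2 := by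
  rw [sq, sum_mul_sum, ← sum_product']
  refine sum_nbij' (fun r => ((fun i => (r i).1), (fun i => (r i).2)))
    (fun p => fun i => (p.1 i, p.2 i)) ?_ ?_ ?_ ?_ ?_
  · intro r hr
    simp only [Fintype.mem_piFinset, mem_product] at hr ⊢
    exact ⟨fun i => (hr i).1, fun i => (hr i).2⟩
  · intro p hp
    simp only [Fintype.mem_piFinset, mem_product] at hp ⊢
    exact fun i => ⟨hp.1 i, hp.2 i⟩
  · intro r _; rfl
  · intro p _; rfl
  · intro r _; rfl

lemma P_sub (N q : ℕ) : P N q ⊆ Icc 1 N ×ˢ Icc 1 N := filter_subset _ _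

lemma sum_rects (N q : ℕ) (hN : 1 ≤ N) {ι : Type} [Fintype ι] [DecidableEq ι] :
    ∑ r ∈ Fintype.piFinset (fun _ : ι => Q N q), ((1:ℝ) / N) ^ (DD q r) ≤
      (((Fintype.card ι * q) ^ 2 + 1 : ℕ) : ℝ) ^ (4 * Fintype.card ι) := by
  have h1 := sum_dim N q hN (ι := ι) (P N q) (P_sub N q)
  have h2 := sum_pairs (ι := ι) (P N q) (fun v => ((1:ℝ) / N) ^ (Dx q v))
  have h3 : ∑ r ∈ Fintype.piFinset (fun _ : ι => Q N q), ((1:ℝ) / N) ^ (DD q r) =
      (∑ v ∈ Fintype.piFinset (fun _ : ι => P N q), ((1:ℝ) / N) ^ (Dx q v)) ^ 2 := by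
    rw [← h2]
    apply sum_congr rfl
    intro r _
    unfold DD
    rw [pow_add]
  rw [h3]
  calc _ ≤ ((((Fintype.card ι * q) ^ 2 + 1 : ℕ) : ℝ) ^ (2 * Fintype.card ι)) ^ 2 := by
        apply pow_le_pow_left₀ _ h1
        exact sum_nonneg (fun v _ => by positivity)
    _ = _ := by rw [← pow_mul]; congr 1; ring

/-- **The starting potential.** -/
theorem start_pot (N q k g gam lo hi : ℕ) (hN : 1 ≤ N)
    (H1 : 2 * Real.logb 3 N + k + 1 + gam ≤ (q:ℝ) ^ 2)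
    (H2 : Real.logb 3 N + k + q + gam ≤ (q:ℝ) ^ 2)
    (H3 : (k:ℝ) + gam ≤ (q:ℝ))
    (C1 : 8 * (q ^ 2 + 1) ^ k ≤ 3 ^ g)
    (C2 : ((hi * q) ^ 2 + 1) ^ 4 * 3 ^ g * 3 ≤ 3 ^ gam)
    (C3 : q ^ 2 + gam ≤ lo) :
    ∑ C ∈ IB N q k lo hi, ((1:ℝ)/3) ^ (U q C.1 C.2).card ≤ 1 / 12 := by
  classical
  have hNpos : (0:ℝ) < N := by exact_mod_cast hN
  have hN1 : (1:ℝ) ≤ N := by exact_mod_cast hN
  have hlam : 0 ≤ Real.logb 3 N := Real.logb_nonneg (by norm_num) hN1
  have h3q : (3:ℝ) ^ ((q:ℝ)^2) = 3 ^ (q^2) := by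
    have : ((q:ℝ)^2) = ((q^2 : ℕ) : ℝ) := by push_cast; ring
    rw [this, Real.rpow_natCast]
  -- bound for one certificate
  have hone : ∀ C ∈ IB N q k lo hi, ((1:ℝ)/3) ^ (U q C.1 C.2).card ≤
      3 ^ (q ^ 2 + gam) * ((1:ℝ) / 3 ^ gam) ^ C.1.size * ((1:ℝ) / N) ^ (DD q C.2) := by
    intro C hC
    rw [IB, mem_filter] at hC
    have hk := key_ineq q k (Real.logb 3 N) gam hlam (by positivity) H1 H2 H3 C.1 C.2 hC.2.1
    -- exponentiate
    have h1 : (3:ℝ) ^ ((DD q C.2 : ℝ) * Real.logb 3 N + ((C.1.size : ℝ) - 1) * gam + (q:ℝ) ^ 2) ≤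
        (3:ℝ) ^ (4 * Real.logb 3 N + k + (U q C.1 C.2).card) :=
      Real.rpow_le_rpow_of_exponent_le (by norm_num) hk
    have hlN : (3:ℝ) ^ (Real.logb 3 N) = N := Real.rpow_logb (by norm_num) (by norm_num) hNpos
    have h3 : (3:ℝ) ^ (2 * Real.logb 3 N + k + 1 + gam) ≤ (3:ℝ) ^ ((q:ℝ)^2) :=
      Real.rpow_le_rpow_of_exponent_le (by norm_num) H1
    have e1 : (3:ℝ) ^ ((DD q C.2 : ℝ) * Real.logb 3 N + ((C.1.size : ℝ) - 1) * gam + (q:ℝ) ^ 2) =
        (N:ℝ) ^ (DD q C.2) * (3 ^ gam) ^ C.1.size / 3 ^ gam * 3 ^ (q ^ 2) := by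
      rw [Real.rpow_add (by norm_num), Real.rpow_add (by norm_num), h3q]
      congr 1
      · have : (3:ℝ) ^ ((DD q C.2 : ℝ) * Real.logb 3 N) = (N:ℝ) ^ (DD q C.2) := by
          rw [mul_comm, Real.rpow_mul (by norm_num), hlN, Real.rpow_natCast]
        rw [this, mul_div_assoc]
        congr 1
        have : ((C.1.size : ℝ) - 1) * gam = ((gam * C.1.size : ℕ) : ℝ) - ((gam : ℕ) : ℝ) := by
          push_cast; ring
        rw [this, Real.rpow_sub (by norm_num), Real.rpow_natCast, Real.rpow_natCast, pow_mul]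
    have e2 : (3:ℝ) ^ (4 * Real.logb 3 N + k + (U q C.1 C.2).card) =
        (N:ℝ) ^ 4 * 3 ^ k * 3 ^ (U q C.1 C.2).card := by
      rw [Real.rpow_add (by norm_num), Real.rpow_add (by norm_num), Real.rpow_natCast,
        Real.rpow_natCast]
      congr 2
      rw [mul_comm, Real.rpow_mul (by norm_num), hlN]
      exact_mod_cast Real.rpow_natCast (N:ℝ) 4
    have e3 : (3:ℝ) ^ (2 * Real.logb 3 N + k + 1 + gam) = (N:ℝ) ^ 2 * 3 ^ k * 3 * 3 ^ gam := by
      rw [Real.rpow_add (by norm_num), Real.rpow_add (by norm_num), Real.rpow_add (by norm_num),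
        Real.rpow_natCast, Real.rpow_natCast, Real.rpow_one]
      congr 3
      rw [mul_comm, Real.rpow_mul (by norm_num), hlN]
      exact_mod_cast Real.rpow_natCast (N:ℝ) 2
    have e4 : (3:ℝ) ^ ((q:ℝ)^2) = 3 ^ (q^2) := h3q
    rw [e1, e2] at h1
    rw [e3, e4] at h3
    -- combine
    have hk1 : (1:ℝ) ≤ 3 ^ k := one_le_pow₀ (by norm_num)
    have hg1 : (1:ℝ) ≤ 3 ^ gam := one_le_pow₀ (by norm_num)
    have h4 : (N:ℝ)^2 * 3 ^ k ≤ 3 ^ (q^2) := by
      have : (N:ℝ) ^ 2 * 3 ^ k ≤ (N:ℝ) ^ 2 * 3 ^ k * 3 * 3 ^ gam := by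
        have h0 : 0 ≤ (N:ℝ) ^ 2 * 3 ^ k := by positivity
        nlinarith
      linarith
    have h5 : (N:ℝ)^2 ≤ 3 ^ (q^2) := by
      have h0 : 0 ≤ (N:ℝ) ^ 2 := by positivity
      nlinarith
    have h6 : (N:ℝ)^4 * 3 ^ k ≤ 3 ^ (q^2) * 3 ^ (q^2) := by
      calc (N:ℝ)^4 * 3 ^ k = (N:ℝ)^2 * ((N:ℝ)^2 * 3 ^ k) := by ring
        _ ≤ 3 ^ (q^2) * 3 ^ (q^2) := mul_le_mul h5 h4 (by positivity) (by positivity)
    set u := (U q C.1 C.2).card
    set n := C.1.size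
    set D := DD q C.2
    have h7 : (N:ℝ) ^ D * (3 ^ gam) ^ n / 3 ^ gam * 3 ^ (q ^ 2) ≤
        3 ^ (q^2) * 3 ^ (q^2) * 3 ^ u := by
      refine le_trans h1 ?_
      exact mul_le_mul_of_nonneg_right h6 (by positivity)
    have h8 : (N:ℝ) ^ D * (3 ^ gam) ^ n ≤ 3 ^ (q^2) * 3 ^ u * 3 ^ gam := by
      have h9 : (N:ℝ) ^ D * (3 ^ gam) ^ n * 3 ^ (q ^ 2) ≤
        (3 ^ (q^2) * 3 ^ u * 3 ^ gam) * 3 ^ (q^2) := by
        have := mul_le_mul_of_nonneg_right h7 (by positivity : (0:ℝ) ≤ 3 ^ gam)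
        calc _ = (N:ℝ) ^ D * (3 ^ gam) ^ n / 3 ^ gam * 3 ^ (q ^ 2) * 3 ^ gam := by field_simp
          _ ≤ _ := this
          _ = _ := by ring
      exact le_of_mul_le_mul_right h9 (by positivity)
    rw [div_pow, one_pow, div_pow, one_pow, div_pow, one_pow, pow_add]
    rw [mul_one_div, mul_one_div, div_div, div_le_div_iff₀ (by positivity) (by positivity)]
    calc 1 * ((3 ^ gam) ^ n * (N:ℝ) ^ D) = (N:ℝ) ^ D * (3 ^ gam) ^ n := by ring
      _ ≤ _ := h8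
      _ = _ := by ring
  -- sum over certificates
  have hZg : ((ZZ q k).card : ℝ) * (1 / 3 ^ g) ≤ 1 / 8 := by
    have h1 : 8 * (ZZ q k).card ≤ 3 ^ g := le_trans (Nat.mul_le_mul_left _ (card_ZZ q k)) C1
    have h2 : (8:ℝ) * (ZZ q k).card ≤ 3 ^ g := by exact_mod_cast h1
    rw [mul_one_div, div_le_div_iff₀ (by positivity) (by norm_num)]
    linarith
  have hshape := sum_shapes (ZZ q k) (1 / 3 ^ g) (by positivity) hZg hi
  calc ∑ C ∈ IB N q k lo hi, ((1:ℝ)/3) ^ (U q C.1 C.2).card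
      ≤ ∑ C ∈ IB N q k lo hi,
        3 ^ (q ^ 2 + gam) * ((1:ℝ) / 3 ^ gam) ^ C.1.size * ((1:ℝ) / N) ^ (DD q C.2) :=
        sum_le_sum hone
    _ ≤ ∑ C ∈ ((shapesF (ZZ q k) hi).filter (fun s => lo < s.size ∧ s.size ≤ hi)).sigma
          (fun s => Fintype.piFinset (fun _ : s.Ix => Q N q)),
        3 ^ (q ^ 2 + gam) * ((1:ℝ) / 3 ^ gam) ^ C.1.size * ((1:ℝ) / N) ^ (DD q C.2) := by
        apply sum_le_sum_of_subset_of_nonneg
        · intro C hC
          rw [IB, mem_filter, mem_sigma] at hC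
          rw [mem_sigma, mem_filter]
          exact ⟨⟨hC.1.1, hC.2.2⟩, hC.1.2⟩
        · intro C _ _; positivity
    _ = ∑ s ∈ (shapesF (ZZ q k) hi).filter (fun s => lo < s.size ∧ s.size ≤ hi),
        3 ^ (q ^ 2 + gam) * ((1:ℝ) / 3 ^ gam) ^ s.size *
          ∑ r ∈ Fintype.piFinset (fun _ : s.Ix => Q N q), ((1:ℝ) / N) ^ (DD q r) := by
        rw [sum_sigma]
        apply sum_congr rfl
        intro s _
        rw [mul_sum]
    _ ≤ ∑ s ∈ (shapesF (ZZ q k) hi).filter (fun s => lo < s.size ∧ s.size ≤ hi),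
        (1 / 3) * (1 / 3 ^ g) ^ s.size := by
        apply sum_le_sum
        intro s hs
        rw [mem_filter] at hs
        have h1 := sum_rects N q hN (ι := s.Ix)
        rw [card_Ix] at h1
        have h2 : (((s.size * q) ^ 2 + 1 : ℕ) : ℝ) ^ (4 * s.size) ≤
            ((((hi * q) ^ 2 + 1) ^ 4 : ℕ) : ℝ) ^ s.size := by
          rw [pow_mul]
          apply pow_le_pow_left₀ (by positivity)
          have : ((s.size * q) ^ 2 + 1) ^ 4 ≤ ((hi * q) ^ 2 + 1) ^ 4 := by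
            apply Nat.pow_le_pow_left
            apply Nat.add_le_add_right
            apply Nat.pow_le_pow_left
            exact Nat.mul_le_mul_right _ hs.2.2
          exact_mod_cast this
        have h3 : ((((hi * q) ^ 2 + 1) ^ 4 : ℕ) : ℝ) ≤ 3 ^ gam / (3 * 3 ^ g) := by
          rw [le_div_iff₀ (by positivity)]
          have : ((((hi * q) ^ 2 + 1) ^ 4 * 3 ^ g * 3 : ℕ) : ℝ) ≤ ((3 ^ gam : ℕ) : ℝ) := by
            exact_mod_cast C2
          push_cast at this ⊢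
          linarith
        have h4 : ((1:ℝ) / 3 ^ gam) ^ s.size * ((((hi * q) ^ 2 + 1) ^ 4 : ℕ) : ℝ) ^ s.size ≤
            (1/3) ^ s.size * (1 / 3 ^ g) ^ s.size := by
          rw [← mul_pow, ← mul_pow]
          apply pow_le_pow_left₀ (by positivity)
          calc (1:ℝ) / 3 ^ gam * ((((hi * q) ^ 2 + 1) ^ 4 : ℕ) : ℝ) ≤
              1 / 3 ^ gam * (3 ^ gam / (3 * 3 ^ g)) := mul_le_mul_of_nonneg_left h3 (by positivity)
            _ = _ := by field_simp
        have h5 : (3:ℝ) ^ (q ^ 2 + gam) * (1/3) ^ s.size ≤ 1 / 3 := by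
          have : q ^ 2 + gam + 1 ≤ s.size := by omega
          calc (3:ℝ) ^ (q ^ 2 + gam) * (1/3) ^ s.size ≤ 3 ^ (q ^ 2 + gam) * (1/3) ^ (q^2 + gam + 1) :=
                mul_le_mul_of_nonneg_left (pow_le_pow_of_le_one (by norm_num) (by norm_num) this)
                  (by positivity)
            _ = 1/3 := by
              rw [pow_succ (1/3:ℝ), ← mul_assoc, ← mul_pow]
              norm_num
        calc 3 ^ (q ^ 2 + gam) * ((1:ℝ) / 3 ^ gam) ^ s.size *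
          ∑ r ∈ Fintype.piFinset (fun _ : s.Ix => Q N q), ((1:ℝ) / N) ^ (DD q r)
          ≤ 3 ^ (q ^ 2 + gam) * ((1:ℝ) / 3 ^ gam) ^ s.size *
            ((((hi * q) ^ 2 + 1) ^ 4 : ℕ) : ℝ) ^ s.size :=
              mul_le_mul_of_nonneg_left (le_trans h1 h2) (by positivity)
          _ = 3 ^ (q ^ 2 + gam) * (((1:ℝ) / 3 ^ gam) ^ s.size *
            ((((hi * q) ^ 2 + 1) ^ 4 : ℕ) : ℝ) ^ s.size) := by ring
          _ ≤ 3 ^ (q ^ 2 + gam) * ((1/3) ^ s.size * (1 / 3 ^ g) ^ s.size) :=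
              mul_le_mul_of_nonneg_left h4 (by positivity)
          _ = (3 ^ (q ^ 2 + gam) * (1/3) ^ s.size) * (1 / 3 ^ g) ^ s.size := by ring
          _ ≤ _ := mul_le_mul_of_nonneg_right h5 (by positivity)
    _ ≤ ∑ s ∈ shapesF (ZZ q k) hi, (1 / 3) * ((1:ℝ) / 3 ^ g) ^ s.size := by
        apply sum_le_sum_of_subset_of_nonneg (filter_subset _ _)
        intro s _ _; positivity
    _ = (1/3) * ∑ s ∈ shapesF (ZZ q k) hi, ((1:ℝ) / 3 ^ g) ^ s.size := by rw [mul_sum]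
    _ ≤ (1/3) * (1/4) := mul_le_mul_of_nonneg_left hshape (by norm_num)
    _ = 1/12 := by norm_num

end

end Pool.Agent.H63
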