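import Pool.Agent.H63.Step

/-!
# Breaker's strategy
-/

namespace Pool.Agent.H63

open Finset Module

noncomputable section

section inv

variable {N q k nlo nhi : ℕ} {S : Finset Cl} {M B Mb : Finset Pt}

lemma blank_insert (N : ℕ) (M B : Finset Pt) (p : Pt) :
    blank N (insert p M) B = (blank N M B).erase p := by
  ext x; simp only [blank, mem_sdiff, mem_union, mem_insert, mem_erase]; tauto

lemma blank_union (N : ℕ) (M B R : Finset Pt) : blank N M (B ∪ R) = blank N M B \ R := by
  ext x; simp only [blank, mem_sdiff, mem_union]; tauto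

lemma bigB_insert (N q : ℕ) (S : Finset Cl) (M B : Finset Pt) (p : Pt) :
    bigB N q S (insert p M) B = (bigB N q S M B).erase p := by
  ext x; simp only [bigB, blank_insert, mem_sdiff, mem_erase]; tauto

lemma bigB_union (N q : ℕ) (S : Finset Cl) (M B R : Finset Pt) :
    bigB N q S M (B ∪ R) = bigB N q S M B \ R := by
  ext x; simp only [bigB, blank_union, mem_sdiff]; tauto

lemma good_reply {H R : Finset Pt} (h : Good N q k M B H) : Good N q k M (B ∪ R) H := by
  unfold Good at *
  rw [blank_union]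
  refine ⟨le_trans (BT_mono _ _ _ sdiff_subset) h.1, ?_⟩
  intro y hy
  have h1 := h.2 y (sdiff_subset hy)
  have h2 := BT_mono (IH N q H) (lat q) M (sdiff_subset : blank N M B \ R ⊆ blank N M B)
  have h3 := BT1_mono (IH N q H) (lat q) M (sdiff_subset : blank N M B \ R ⊆ blank N M B) y
  linarith

lemma good_move_out {H : Finset Pt} {p : Pt} (h : Good N q k M B H) (hp : p ∈ blank N M B)
    (hpH : p ∉ H) : Good N q k (insert p M) B H := by
  have hpM : p ∉ M := by
    simp only [blank, mem_sdiff, mem_union, not_or] at hp; exact hp.2.1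
  have hb : ∀ t ∈ IH N q H, bp (insert p M) ((blank N M B).erase p) (lat q t) =
      bp M (blank N M B) (lat q t) := by
    intro t ht
    rw [IH, mem_filter] at ht
    rw [bp_move hp hpM]
    have : p ∉ lat q t := fun hh => hpH (ht.2 hh)
    simp [ind, this]
  unfold Good at *
  rw [blank_insert]
  have e1 : BT (IH N q H) (lat q) (insert p M) ((blank N M B).erase p) =
      BT (IH N q H) (lat q) M (blank N M B) := sum_congr rfl hb
  have e2 : ∀ y, BT1 (IH N q H) (lat q) (insert p M) ((blank N M B).erase p) y =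
      BT1 (IH N q H) (lat q) M (blank N M B) y := by
    intro y
    apply sum_congr rfl
    intro t ht
    rw [hb t ht]
  rw [e1]
  refine ⟨h.1, ?_⟩
  intro y hy
  rw [e2]
  exact h.2 y (erase_subset _ _ hy)

lemma strong_reply {R : Finset Pt} (h : Strong N q k S M B) : Strong N q k S M (B ∪ R) := by
  intro t ht hal
  rw [disjoint_union_right] at hal
  rcases h t ht hal.1 with hc | hc
  · exact Or.inl hc
  · right
    refine hc.trans (card_le_card ?_)
    rw [bigB_union]
    intro x hx
    rw [mem_inter] at hx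
    rw [mem_inter, mem_sdiff]
    exact ⟨hx.1, hx.2, fun hR => disjoint_left.mp hal.2 hx.1 hR⟩

lemma St.reply {R : Finset Pt} (h : St N q k nlo S M B Mb) (hR : R ⊆ blank N M B) :
    St N q k nlo S M (B ∪ R) Mb := by
  refine ⟨?_, h.hM, ?_, h.hMb, h.hMH, h.hok, h.hdis, ?_⟩
  · rw [disjoint_union_right]
    refine ⟨h.hMB, ?_⟩
    rw [disjoint_right]
    intro x hx
    have := hR hx
    simp only [blank, mem_sdiff, mem_union, not_or] at this
    exact this.2.1
  · exact union_subset h.hB (hR.trans blank_sub)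
  · intro C hC
    exact good_reply (h.hgood C hC)

/-- invariant of Breaker's strategy, Maker to move -/
def Inv (N q k nlo nhi : ℕ) (M B : Finset Pt) : Prop :=
  ∃ (S : Finset Cl) (Mb : Finset Pt), St N q k nlo S M B Mb ∧ Strong N q k S M B ∧
    BP N q k nlo nhi Mb (bigB N q S M B) < 1 ∧
    ∀ y ∈ bigB N q S M B, BP N q k nlo nhi Mb (bigB N q S M B) +
      2 * BT1 (IB N q k nlo nhi) (uC q) Mb (bigB N q S M B) y < 1

theorem inv_move (hq : 1 ≤ q) (h2 : 2 * nlo ≤ nhi) (h3 : 1 + nlo * q ^ 2 ≤ nhi)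
    (hinv : Inv N q k nlo nhi M B) {p : Pt} (hp : p ∈ blank N M B) :
    ∃ R ⊆ blank N (insert p M) B, R.card = min 2 (blank N (insert p M) B).card ∧
      Inv N q k nlo nhi (insert p M) (B ∪ R) := by
  classical
  obtain ⟨S, Mb, hSt, hs, hpot, hpot1⟩ := hinv
  have hp' : p ∈ board N ∧ p ∉ M ∧ p ∉ B := by
    simp only [blank, mem_sdiff, mem_union, not_or] at hp; exact ⟨hp.1, hp.2.1, hp.2.2⟩
  have hMB' : Disjoint (insert p M) B := by
    rw [disjoint_insert_left]; exact ⟨hp'.2.2, hSt.hMB⟩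
  have hM' : insert p M ⊆ board N := insert_subset hp'.1 hSt.hM
  have hW : Disjoint (blank N (insert p M) B) (insert p M) := by
    rw [disjoint_left]
    intro x hx
    simp only [blank, mem_sdiff, mem_union, not_or] at hx
    exact hx.2.1
  by_cases hpH : p ∈ HU q S
  · -- a move inside a hull
    rw [HU, mem_biUnion] at hpH
    obtain ⟨C0, hC0, hpC0⟩ := hpH
    obtain ⟨R, hR1, hR2, hR3, hR4⟩ := breaker_step (IH N q (hC q C0)) (lat q) (insert p M)
      (blank N (insert p M) B) (blank N (insert p M) B) hW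
    refine ⟨R, hR1, hR2, S, Mb, ?_, ?_, ?_, ?_⟩
    · refine ⟨?_, hM', ?_, hSt.hMb.trans (subset_insert _ _), ?_, hSt.hok, hSt.hdis, ?_⟩
      · rw [disjoint_union_right]
        exact ⟨hMB', (disjoint_of_subset_left hR1 hW).symm⟩
      · exact union_subset hSt.hB (hR1.trans blank_sub)
      · apply insert_subset
        · apply mem_union_right
          rw [HU, mem_biUnion]; exact ⟨C0, hC0, hpC0⟩
        · exact hSt.hMH
      · intro C hCS
        by_cases hCC : C = C0
        · subst hCC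
          have hg := hSt.hgood C hCS
          have hpM : p ∉ M := hp'.2.1
          have e1 : BT (IH N q (hC q C)) (lat q) (insert p M) (blank N (insert p M) B) ≤
              3 * (1/3) ^ k * (IH N q (hC q C)).card := by
            rw [blank_insert, BT_move _ _ hp hpM]
            exact hg.2 p hp
          unfold Good
          rw [blank_union]
          refine ⟨le_trans hR3 e1, ?_⟩
          intro y hy
          exact le_trans (hR4 y hy) e1
        · apply good_reply
          apply good_move_out (hSt.hgood C hCS) hp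
          intro hpC
          exact disjoint_left.mp (hSt.hdis C hCS C0 hC0 hCC) hpC hpC0
    · apply strong_reply
      intro t ht hal
      rcases hs t ht hal with hc | hc
      · exact Or.inl hc
      · right
        refine hc.trans (card_le_card ?_)
        rw [bigB_insert]
        intro x hx
        rw [mem_inter] at hx
        rw [mem_inter, mem_erase]
        refine ⟨hx.1, ?_, hx.2⟩
        rintro rfl
        have := (mem_sdiff.mp hx.2).2
        apply this
        rw [HU, mem_biUnion]; exact ⟨C0, hC0, hpC0⟩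
    · have hsub : bigB N q S (insert p M) (B ∪ R) ⊆ bigB N q S M B := by
        rw [bigB_union, bigB_insert]
        exact sdiff_subset.trans (erase_subset _ _)
      exact lt_of_le_of_lt (BT_mono _ _ _ hsub) hpot
    · have hsub : bigB N q S (insert p M) (B ∪ R) ⊆ bigB N q S M B := by
        rw [bigB_union, bigB_insert]
        exact sdiff_subset.trans (erase_subset _ _)
      intro y hy
      have e1 := hpot1 y (hsub hy)
      have e2 := BT_mono (IB N q k nlo nhi) (uC q) Mb hsub
      have e3 := BT1_mono (IB N q k nlo nhi) (uC q) Mb hsub y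
      unfold BP at *
      linarith
  · -- a move outside the hulls
    have hpb : p ∈ bigB N q S M B := mem_sdiff.mpr ⟨hp, hpH⟩
    have hpMb : p ∉ Mb := fun h => hp'.2.1 (hSt.hMb h)
    have hpot' : BP N q k nlo nhi (insert p Mb) (bigB N q S (insert p M) B) < 1 := by
      unfold BP
      rw [bigB_insert, BT_move _ _ hpb hpMb]
      exact hpot1 p hpb
    have hSt1 : St N q k nlo S (insert p M) B (insert p Mb) := by
      refine ⟨hMB', hM', hSt.hB, insert_subset_insert _ hSt.hMb, ?_, ?_, hSt.hdis, ?_⟩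
      · apply insert_subset
        · exact mem_union_left _ (mem_insert_self _ _)
        · refine hSt.hMH.trans ?_
          exact union_subset_union_left (subset_insert _ _)
      · intro C hCS
        have := hSt.hok C hCS
        exact ⟨this.1, this.2.1, this.2.2.1.trans (subset_insert _ _), this.2.2.2⟩
      · intro C hCS
        apply good_move_out (hSt.hgood C hCS) hp
        intro hpC
        apply hpH
        rw [HU, mem_biUnion]; exact ⟨C, hCS, hpC⟩
    have hweak : Weak N q k S (insert p M) B := by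
      intro t ht hal
      rcases hs t ht hal with hc | hc
      · exact Or.inl hc
      · right
        have h4 : (lat q t ∩ bigB N q S M B).erase p ⊆ lat q t ∩ blank N (insert p M) B := by
          intro x hx
          rw [mem_erase, mem_inter] at hx
          rw [mem_inter, blank_insert, mem_erase]
          exact ⟨hx.2.1, hx.1, (mem_sdiff.mp hx.2.2).1⟩
        have h5 := card_le_card h4
        have h6 := pred_card_le_card_erase (s := lat q t ∩ bigB N q S M B) (a := p)
        omega
    obtain ⟨S', hSt', hs', hcov⟩ := cascade hq hpot' h2 h3 _ S rfl hSt1 hweak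
    have hHU : HU q S ⊆ HU q S' := by
      intro x hx
      rw [HU, mem_biUnion] at hx
      obtain ⟨C, hCS, hxC⟩ := hx
      obtain ⟨C', hC', hsub⟩ := hcov C hCS
      rw [HU, mem_biUnion]
      exact ⟨C', hC', hsub hxC⟩
    have hbig : bigB N q S' (insert p M) B ⊆ bigB N q S (insert p M) B :=
      sdiff_subset_sdiff (subset_refl _) hHU
    have hpot2 : BP N q k nlo nhi (insert p Mb) (bigB N q S' (insert p M) B) < 1 :=
      lt_of_le_of_lt (BT_mono _ _ _ hbig) hpot'
    have hW2 : Disjoint (blank N (insert p M) B) (insert p Mb) :=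
      disjoint_of_subset_right (insert_subset_insert _ hSt.hMb) hW
    obtain ⟨R, hR1, hR2, hR3, hR4⟩ := breaker_step (IB N q k nlo nhi) (uC q) (insert p Mb)
      (bigB N q S' (insert p M) B) (blank N (insert p M) B) hW2
    refine ⟨R, hR1, hR2, S', insert p Mb, hSt'.reply hR1, strong_reply hs', ?_, ?_⟩
    · rw [bigB_union]
      exact lt_of_le_of_lt hR3 hpot2
    · rw [bigB_union]
      intro y hy
      rw [mem_sdiff] at hy
      refine lt_of_le_of_lt (hR4 y (mem_sdiff.mpr ⟨(mem_sdiff.mp hy.1).1, hy.2⟩)) hpot2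

/-- number of lattices inside a hull -/
lemma card_IH_le (hq : 2 ≤ q) (X Y : Finset ℕ) :
    (IH N q (X ×ˢ Y)).card ≤ X.card ^ 2 * Y.card ^ 2 := by
  classical
  have : IH N q (X ×ˢ Y) ⊆ ((X ×ˢ X) ×ˢ (Y ×ˢ Y)).image
      (fun w => ((w.1.1, w.1.2 - w.1.1), (w.2.1, w.2.2 - w.2.1))) := by
    intro t ht
    rw [IH, mem_filter] at ht
    have hsub := ht.2
    have hmem : ∀ i j, i < q → j < q → (t.1.1 + i * t.1.2, t.2.1 + j * t.2.2) ∈ X ×ˢ Y := by
      intro i j hi hj
      apply hsub
      simp only [lat, mem_product, mem_ap]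
      exact ⟨⟨i, hi, rfl⟩, ⟨j, hj, rfl⟩⟩
    have h0 := hmem 0 0 (by omega) (by omega)
    have h1 := hmem 1 1 (by omega) (by omega)
    simp only [zero_mul, add_zero, one_mul, mem_product] at h0 h1
    rw [mem_image]
    refine ⟨((t.1.1, t.1.1 + t.1.2), (t.2.1, t.2.1 + t.2.2)), ?_, ?_⟩
    · simp only [mem_product]
      exact ⟨⟨h0.1, h1.1⟩, ⟨h0.2, h1.2⟩⟩
    · simp
  calc (IH N q (X ×ˢ Y)).card ≤ _ := card_le_card this
    _ ≤ ((X ×ˢ X) ×ˢ (Y ×ˢ Y)).card := card_image_le
    _ = X.card ^ 2 * Y.card ^ 2 := by simp only [card_product]; ring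

lemma card_cols_le (q : ℕ) {ι : Type} [Fintype ι] (v : ι → ℕ × ℕ) :
    (cols q v).card ≤ Fintype.card ι * q := by
  classical
  unfold cols
  calc _ ≤ ∑ i : ι, (ap q (v i)).card := card_biUnion_le
    _ ≤ ∑ _i : ι, q := sum_le_sum (fun i _ => ap_card_le' q (v i))
    _ = _ := by simp

theorem inv_no_win (hq : 2 ≤ q) (hnum : 3 * (nlo * q) ^ 4 < 3 ^ k)
    (hinv : Inv N q k nlo nhi M B) {t : Rect} (ht : t ∈ Q N q) : ¬ (lat q t ⊆ M) := by
  classical
  intro hsub
  obtain ⟨S, Mb, hSt, hs, hpot, hpot1⟩ := hinv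
  have hal : Disjoint (lat q t) B := disjoint_of_subset_left hsub hSt.hMB
  rcases hs t ht hal with ⟨C, hCS, hCt⟩ | h
  · have hg := (hSt.hgood C hCS).1
    have hmem : t ∈ IH N q (hC q C) := by rw [IH, mem_filter]; exact ⟨ht, hCt⟩
    have h1 : bp M (blank N M B) (lat q t) = 1 := by
      unfold bp
      rw [if_pos (hsub.trans subset_union_left), sdiff_eq_empty_iff_subset.mpr hsub]
      simp
    have h2 : bp M (blank N M B) (lat q t) ≤ BT (IH N q (hC q C)) (lat q) M (blank N M B) :=
      single_le_sum (f := fun t => bp M (blank N M B) (lat q t)) (fun _ _ => bp_nonneg _ _ _) hmem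
    have h3 : (IH N q (hC q C)).card ≤ (nlo * q) ^ 4 := by
      have h4 := card_IH_le (N := N) hq (colsR q C.2) (rowsR q C.2)
      have h5 : (colsR q C.2).card ≤ nlo * q := by
        refine (card_cols_le q _).trans ?_
        rw [card_Ix]
        exact Nat.mul_le_mul_right _ (hSt.hok C hCS).2.2.2
      have h6 : (rowsR q C.2).card ≤ nlo * q := by
        refine (card_cols_le q _).trans ?_
        rw [card_Ix]
        exact Nat.mul_le_mul_right _ (hSt.hok C hCS).2.2.2
      calc (IH N q (hC q C)).card ≤ (colsR q C.2).card ^ 2 * (rowsR q C.2).card ^ 2 := h4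
        _ ≤ (nlo * q) ^ 2 * (nlo * q) ^ 2 := by gcongr
        _ = (nlo * q) ^ 4 := by ring
    have h7 : (1:ℝ) ≤ 3 * (1/3) ^ k * (IH N q (hC q C)).card := by
      exact le_trans (le_of_eq h1.symm) (h2.trans hg)
    have h8 : (3:ℝ) * (1/3) ^ k * (IH N q (hC q C)).card ≤ 3 * (1/3) ^ k * ((nlo * q) ^ 4 : ℕ) := by
      have : ((IH N q (hC q C)).card : ℝ) ≤ ((nlo * q) ^ 4 : ℕ) := by exact_mod_cast h3
      gcongr
    have h9 : (3:ℝ) * ((nlo * q) ^ 4 : ℕ) < 3 ^ k := by exact_mod_cast hnum
    have h10 : (3:ℝ) * (1/3) ^ k * ((nlo * q) ^ 4 : ℕ) < 1 := by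
      rw [div_pow, one_pow]
      rw [show (3:ℝ) * (1 / 3 ^ k) * ((nlo * q) ^ 4 : ℕ) = (3 * ((nlo * q) ^ 4 : ℕ)) / 3 ^ k by ring]
      rw [div_lt_one (by positivity)]
      exact h9
    linarith
  · have hpos : 0 < (lat q t ∩ bigB N q S M B).card := by omega
    obtain ⟨x, hx⟩ := card_pos.mp hpos
    rw [mem_inter] at hx
    have h1 := hsub hx.1
    have h2 := (mem_sdiff.mp hx.2).1
    simp only [blank, mem_sdiff, mem_union, not_or] at h2
    exact h2.2.1 h1

theorem not_makerWins (hq : 2 ≤ q) (h2 : 2 * nlo ≤ nhi) (h3 : 1 + nlo * q ^ 2 ≤ nhi)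
    (hnum : 3 * (nlo * q) ^ 4 < 3 ^ k) {M B : Finset Pt} (h : MakerWins N q M B) :
    ¬ Inv N q k nlo nhi M B := by
  induction h with
  | claimed A hA hAM =>
    intro hinv
    obtain ⟨t, ht, rfl⟩ := (isWinningSet_iff hq A).mp hA
    exact inv_no_win hq hnum hinv ht hAM
  | move p hp hR ih =>
    intro hinv
    obtain ⟨R, hR1, hR2, hR3⟩ := inv_move (by omega) h2 h3 hinv hp
    exact ih R hR1 hR2 hR3

theorem inv_start (k g gam : ℕ) (hN : 1 ≤ N) (hq : 2 ≤ q)
    (H1 : 2 * Real.logb 3 N + k + 1 + gam ≤ (q:ℝ) ^ 2)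
    (H2 : Real.logb 3 N + k + q + gam ≤ (q:ℝ) ^ 2)
    (H3 : (k:ℝ) + gam ≤ (q:ℝ))
    (C1 : 8 * (q ^ 2 + 1) ^ k ≤ 3 ^ g)
    (C2 : ((nhi * q) ^ 2 + 1) ^ 4 * 3 ^ g * 3 ≤ 3 ^ gam)
    (C3 : q ^ 2 + gam ≤ nlo) : Inv N q k nlo nhi ∅ ∅ := by
  classical
  have hkq : k + 1 ≤ q ^ 2 := by
    have : (k:ℝ) ≤ q := by
      have : (0:ℝ) ≤ gam := by positivity
      linarith
    have h1 : k ≤ q := by exact_mod_cast this
    nlinarith
  have hstart := start_pot N q k g gam nlo nhi hN H1 H2 H3 C1 C2 C3
  have hpot : BP N q k nlo nhi ∅ (bigB N q ∅ ∅ ∅) ≤ 1 / 12 := by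
    refine le_trans ?_ hstart
    apply sum_le_sum
    intro C _
    unfold bp
    split_ifs
    · rw [sdiff_empty]; exact le_refl _
    · positivity
  refine ⟨∅, ∅, ?_, ?_, ?_, ?_⟩
  · refine ⟨by simp, by simp, by simp, by simp, by simp, ?_, ?_, ?_⟩
    · intro C hC; simp at hC
    · intro C hC; simp at hC
    · intro C hC; simp at hC
  · intro t ht _
    right
    have hpos1 : 1 ≤ t.1.2 := by
      have := (mem_product.mp ht).1; have := mem_P.mp this; omega
    have hpos2 : 1 ≤ t.2.2 := by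
      have := (mem_product.mp ht).2; have := mem_P.mp this; omega
    have : lat q t ∩ bigB N q ∅ ∅ ∅ = lat q t := by
      rw [inter_eq_left]
      intro x hx
      have := lat_sub_board' ht hx
      simp [bigB, blank, HU, this]
    rw [this, card_lat hpos1 hpos2]
    exact hkq
  · linarith
  · intro y _
    have h1 := BT1_le (IB N q k nlo nhi) (uC q) ∅ (bigB N q ∅ ∅ ∅) y
    unfold BP at *
    linarith

/-- **Breaker's side.** -/
theorem breaker_side (N q k g gam nlo nhi : ℕ) (hN : 1 ≤ N) (hq : 2 ≤ q)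
    (H1 : 2 * Real.logb 3 N + k + 1 + gam ≤ (q:ℝ) ^ 2)
    (H2 : Real.logb 3 N + k + q + gam ≤ (q:ℝ) ^ 2)
    (H3 : (k:ℝ) + gam ≤ (q:ℝ))
    (C1 : 8 * (q ^ 2 + 1) ^ k ≤ 3 ^ g)
    (C2 : ((nhi * q) ^ 2 + 1) ^ 4 * 3 ^ g * 3 ≤ 3 ^ gam)
    (C3 : q ^ 2 + gam ≤ nlo) (h2 : 2 * nlo ≤ nhi) (h3 : 1 + nlo * q ^ 2 ≤ nhi)
    (hnum : 3 * (nlo * q) ^ 4 < 3 ^ k) : ¬ MakerHasWin N q := by
  intro h
  exact not_makerWins hq h2 h3 hnum h (inv_start k g gam hN hq H1 H2 H3 C1 C2 C3)

end inv

end

end Pool.Agent.H63
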