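import Pool.Agent.H63.MakerPot

/-!
# Biased Erdős–Selfridge steps for Breaker
-/

namespace Pool.Agent.H63

open Finset

noncomputable section

variable {ι : Type}

/-- potential of a set `A` for Breaker: `M` are Maker's points, `E` the available points -/
def bp (M E A : Finset Pt) : ℝ := if A ⊆ M ∪ E then (1/3) ^ (A \ M).card else 0

lemma bp_nonneg (M E A : Finset Pt) : 0 ≤ bp M E A := by
  unfold bp; split_ifs <;> positivity

lemma bp_mono {M E E' A : Finset Pt} (h : E ⊆ E') : bp M E A ≤ bp M E' A := by
  unfold bp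
  by_cases h1 : A ⊆ M ∪ E
  · have h2 : A ⊆ M ∪ E' := h1.trans (union_subset_union_right h)
    simp [h1, h2]
  · rw [if_neg h1]; split_ifs <;> positivity

lemma bp_move {M E A : Finset Pt} {x : Pt} (hx : x ∈ E) (hxM : x ∉ M) :
    bp (insert x M) (E.erase x) A = bp M E A * (1 + 2 * ind (x ∈ A)) := by
  have h0 : insert x M ∪ E.erase x = M ∪ E := by
    ext p; simp only [mem_union, mem_insert, mem_erase]
    constructor
    · rintro ((rfl | h) | h)
      · exact Or.inr hx
      · exact Or.inl h
      · exact Or.inr h.2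
    · rintro (h | h)
      · exact Or.inl (Or.inr h)
      · by_cases hp : p = x
        · exact Or.inl (Or.inl hp)
        · exact Or.inr ⟨hp, h⟩
  unfold bp ind
  rw [h0]
  by_cases h1 : A ⊆ M ∪ E
  · simp only [h1, if_true]
    by_cases hxA : x ∈ A
    · have h2 : (A \ M) = insert x (A \ insert x M) := by
        ext y; simp only [mem_sdiff, mem_insert]
        constructor
        · rintro ⟨h1, h2⟩
          by_cases hy : y = x
          · exact Or.inl hy
          · right; exact ⟨h1, by tauto⟩
        · rintro (rfl | ⟨h1, h2⟩)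
          · exact ⟨hxA, hxM⟩
          · exact ⟨h1, by tauto⟩
      have h3 : (A \ M).card = (A \ insert x M).card + 1 := by
        rw [h2, card_insert_of_notMem]; simp
      rw [h3]; simp only [hxA, if_true]
      rw [pow_succ]; ring
    · have h2 : A \ insert x M = A \ M := by
        ext y; simp only [mem_sdiff, mem_insert]
        constructor
        · rintro ⟨h1, h2⟩; exact ⟨h1, by tauto⟩
        · rintro ⟨h1, h2⟩; refine ⟨h1, ?_⟩; rintro (rfl | h3)
          · exact hxA h1
          · exact h2 h3
      rw [h2]; simp [hxA]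
  · simp [h1]

lemma bp_erase {M E A : Finset Pt} {y : Pt} (hy : y ∉ M) :
    bp M (E.erase y) A = bp M E A * (1 - ind (y ∈ A)) := by
  unfold bp ind
  by_cases hyA : y ∈ A
  · have h1 : ¬ (A ⊆ M ∪ E.erase y) := by
      intro h
      have := h hyA
      simp only [mem_union, mem_erase] at this
      tauto
    rw [if_neg h1]; simp [hyA]
  · have h1 : (A ⊆ M ∪ E.erase y) ↔ (A ⊆ M ∪ E) := by
      constructor
      · intro h; exact h.trans (union_subset_union_right (erase_subset _ _))
      · intro h p hp
        have := h hp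
        simp only [mem_union, mem_erase] at this ⊢
        rcases this with h | h
        · exact Or.inl h
        · exact Or.inr ⟨by rintro rfl; exact hyA hp, h⟩
    simp [hyA, h1]

/-- total potential -/
def BT (I : Finset ι) (S : ι → Finset Pt) (M E : Finset Pt) : ℝ := ∑ i ∈ I, bp M E (S i)

/-- potential of the sets containing `x` -/
def BT1 (I : Finset ι) (S : ι → Finset Pt) (M E : Finset Pt) (x : Pt) : ℝ :=
  ∑ i ∈ I, bp M E (S i) * ind (x ∈ S i)

lemma ind_nonneg (p : Prop) [Decidable p] : 0 ≤ ind p := by unfold ind; split_ifs <;> norm_num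

lemma ind_le_one (p : Prop) [Decidable p] : ind p ≤ 1 := by unfold ind; split_ifs <;> norm_num

lemma BT_nonneg (I : Finset ι) (S : ι → Finset Pt) (M E : Finset Pt) : 0 ≤ BT I S M E :=
  sum_nonneg (fun _ _ => bp_nonneg _ _ _)

lemma BT1_nonneg (I : Finset ι) (S : ι → Finset Pt) (M E : Finset Pt) (x : Pt) :
    0 ≤ BT1 I S M E x :=
  sum_nonneg (fun _ _ => mul_nonneg (bp_nonneg _ _ _) (ind_nonneg _))

lemma BT1_le (I : Finset ι) (S : ι → Finset Pt) (M E : Finset Pt) (x : Pt) :
    BT1 I S M E x ≤ BT I S M E := by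
  apply sum_le_sum
  intro i _
  exact mul_le_of_le_one_right (bp_nonneg _ _ _) (ind_le_one _)

lemma BT_mono (I : Finset ι) (S : ι → Finset Pt) (M : Finset Pt) {E E' : Finset Pt} (h : E ⊆ E') :
    BT I S M E ≤ BT I S M E' := sum_le_sum (fun _ _ => bp_mono h)

lemma BT1_mono (I : Finset ι) (S : ι → Finset Pt) (M : Finset Pt) {E E' : Finset Pt} (h : E ⊆ E')
    (x : Pt) : BT1 I S M E x ≤ BT1 I S M E' x :=
  sum_le_sum (fun _ _ => mul_le_mul_of_nonneg_right (bp_mono h) (ind_nonneg _))

lemma BT_move (I : Finset ι) (S : ι → Finset Pt) {M E : Finset Pt} {x : Pt} (hx : x ∈ E)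
    (hxM : x ∉ M) :
    BT I S (insert x M) (E.erase x) = BT I S M E + 2 * BT1 I S M E x := by
  unfold BT BT1
  rw [mul_sum, ← sum_add_distrib]
  apply sum_congr rfl
  intro i _
  rw [bp_move hx hxM]; ring

lemma BT_erase (I : Finset ι) (S : ι → Finset Pt) {M E : Finset Pt} {y : Pt} (hy : y ∉ M) :
    BT I S M (E.erase y) = BT I S M E - BT1 I S M E y := by
  unfold BT BT1
  rw [← sum_sub_distrib]
  apply sum_congr rfl
  intro i _
  rw [bp_erase hy]; ring

/-- **Breaker's answer.** -/
theorem breaker_step (I : Finset ι) (S : ι → Finset Pt) (M E W : Finset Pt)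
    (hW : Disjoint W M) :
    ∃ R ⊆ W, R.card = min 2 W.card ∧ BT I S M (E \ R) ≤ BT I S M E ∧
      ∀ w ∈ W \ R, BT I S M (E \ R) + 2 * BT1 I S M (E \ R) w ≤ BT I S M E := by
  rcases Nat.lt_or_ge W.card 2 with h | h
  · refine ⟨W, subset_refl _, by omega, BT_mono I S M sdiff_subset, ?_⟩
    intro w hw
    simp at hw
  · have hne : W.Nonempty := by rw [← card_pos]; omega
    obtain ⟨y, hy, hymax⟩ := exists_max_image W (fun w => BT1 I S M E w) hne
    have hne2 : (W.erase y).Nonempty := by
      rw [← card_pos, card_erase_of_mem hy]; omega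
    obtain ⟨z, hz, hzmax⟩ := exists_max_image (W.erase y) (fun w => BT1 I S M (E.erase y) w) hne2
    have hyM : y ∉ M := fun h => disjoint_left.mp hW hy h
    have hzW : z ∈ W := mem_of_mem_erase hz
    have hzy : z ≠ y := ne_of_mem_erase hz
    have hzM : z ∉ M := fun h => disjoint_left.mp hW hzW h
    have hE : E \ {y, z} = (E.erase y).erase z := by
      ext p; simp only [mem_sdiff, mem_insert, mem_singleton, mem_erase]; tauto
    refine ⟨{y, z}, ?_, ?_, BT_mono I S M sdiff_subset, ?_⟩
    · intro p hp
      simp only [mem_insert, mem_singleton] at hp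
      rcases hp with rfl | rfl
      · exact hy
      · exact hzW
    · rw [card_pair hzy.symm]; omega
    · intro w hw
      simp only [mem_sdiff, mem_insert, mem_singleton, not_or] at hw
      rw [hE, BT_erase I S hzM, BT_erase I S hyM]
      have h1 : BT1 I S M ((E.erase y).erase z) w ≤ BT1 I S M (E.erase y) z := by
        refine le_trans (BT1_mono I S M (erase_subset _ _) w) ?_
        exact hzmax w (mem_erase.mpr ⟨hw.2.1, hw.1⟩)
      have h2 : BT1 I S M ((E.erase y).erase z) w ≤ BT1 I S M E y := by
        refine le_trans (BT1_mono I S M ((erase_subset _ _).trans (erase_subset _ _)) w) ?_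
        exact hymax w hw.1
      linarith

end

end Pool.Agent.H63
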