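import Pool.Agent.H63.BigPot
import Pool.Agent.H63.ES

/-!
# The cascade: processing of emergencies
-/

namespace Pool.Agent.H63

open Finset Module

noncomputable section

/-- hull of a cluster -/
def hC (q : ℕ) (C : Cl) : Finset Pt := hull q C.2

/-- recorded points of a cluster -/
def uC (q : ℕ) (C : Cl) : Finset Pt := U q C.1 C.2

/-- leading lattice of a cluster -/
def ldC (C : Cl) : Rect := lead C.1 C.2

/-- union of the hulls -/
def HU (q : ℕ) (S : Finset Cl) : Finset Pt := S.biUnion (hC q)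

/-- unclaimed points -/
def blank (N : ℕ) (M B : Finset Pt) : Finset Pt := board N \ (M ∪ B)

/-- lattices inside a region -/
def IH (N q : ℕ) (H : Finset Pt) : Finset Rect := (Q N q).filter (fun t => lat q t ⊆ H)

/-- regions inside which Breaker is safe -/
def Good (N q k : ℕ) (M B H : Finset Pt) : Prop :=
  BT (IH N q H) (lat q) M (blank N M B) ≤ 3 * (1/3) ^ k * (IH N q H).card ∧
  ∀ y ∈ blank N M B, BT (IH N q H) (lat q) M (blank N M B) +
    2 * BT1 (IH N q H) (lat q) M (blank N M B) y ≤ 3 * (1/3) ^ k * (IH N q H).card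

/-- unclaimed points outside the hulls -/
def bigB (N q : ℕ) (S : Finset Cl) (M B : Finset Pt) : Finset Pt := blank N M B \ HU q S

/-- admissible clusters -/
def okC (N q k nlo : ℕ) (Mb : Finset Pt) (C : Cl) : Prop :=
  Valid q k C.1 C.2 ∧ (∀ i, C.2 i ∈ Q N q) ∧ uC q C ⊆ Mb ∧ C.1.size ≤ nlo

/-- states of Breaker's strategy -/
structure St (N q k nlo : ℕ) (S : Finset Cl) (M B Mb : Finset Pt) : Prop where
  hMB : Disjoint M B
  hM : M ⊆ board N
  hB : B ⊆ board N
  hMb : Mb ⊆ M
  hMH : M ⊆ Mb ∪ HU q S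
  hok : ∀ C ∈ S, okC N q k nlo Mb C
  hdis : ∀ C ∈ S, ∀ C' ∈ S, C ≠ C' → Disjoint (hC q C) (hC q C')
  hgood : ∀ C ∈ S, Good N q k M B (hC q C)

/-- attaching a cluster -/
def attC (C D : Cl) : Cl := ⟨Sh.att C.1 D.1, Sum.elim C.2 D.2⟩

lemma uC_att (q : ℕ) (C D : Cl) : uC q (attC C D) = (uC q C \ hC q D) ∪ uC q D := rfl

lemma ldC_att (C D : Cl) : ldC (attC C D) = ldC C := rfl

lemma size_att (C D : Cl) : (attC C D).1.size = C.1.size + D.1.size := rfl

lemma hC_att_left (q : ℕ) (C D : Cl) : hC q C ⊆ hC q (attC C D) :=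
  hull_att_left q C.1 D.1 (Sum.elim C.2 D.2)

lemma hC_att_right (q : ℕ) (C D : Cl) : hC q D ⊆ hC q (attC C D) :=
  hull_att_right q C.1 D.1 (Sum.elim C.2 D.2)

lemma valid_att {q k : ℕ} {C D : Cl} (h1 : Valid q k C.1 C.2) (h2 : Valid q k D.1 D.2)
    (h3 : (hC q C ∩ hC q D).Nonempty) (h4 : uC q C ∩ hC q D ⊆ lat q (ldC C))
    (h5 : ¬ (lat q (ldC C) ⊆ hC q D)) : Valid q k (attC C D).1 (attC C D).2 :=
  ⟨h1, h2, h3, h4, h5⟩

lemma Q_att {N q : ℕ} {C D : Cl} (h1 : ∀ i, C.2 i ∈ Q N q) (h2 : ∀ i, D.2 i ∈ Q N q) :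
    ∀ i, (attC C D).2 i ∈ Q N q := by
  intro i
  rcases i with i | i
  · exact h1 i
  · exact h2 i

lemma uC_sub_hC (q : ℕ) (C : Cl) : uC q C ⊆ hC q C := U_subset_hull q C.1 C.2

lemma ld_sub_hC (q : ℕ) (C : Cl) : lat q (ldC C) ⊆ hC q C := lead_subset_hull q C.1 C.2

/-- big potential -/
def BP (N q k nlo nhi : ℕ) (Mb E : Finset Pt) : ℝ := BT (IB N q k nlo nhi) (uC q) Mb E

/-- if the big potential is less than one, a recorded certificate is small -/
lemma size_le_of_pot {N q k nlo nhi : ℕ} {Mb E : Finset Pt} (hpot : BP N q k nlo nhi Mb E < 1)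
    {C : Cl} (hv : Valid q k C.1 C.2) (hQ : ∀ i, C.2 i ∈ Q N q) (hu : uC q C ⊆ Mb)
    (hs : C.1.size ≤ nhi) : C.1.size ≤ nlo := by
  classical
  by_contra hcon
  push Not at hcon
  have hmem : C ∈ IB N q k nlo nhi := by
    rw [IB, mem_filter, mem_sigma]
    exact ⟨⟨valid_mem_shapes q k C.1 C.2 hv nhi hs, Fintype.mem_piFinset.mpr hQ⟩, hv, hcon, hs⟩
  have h1 : bp Mb E (uC q C) = 1 := by
    unfold bp
    rw [if_pos (hu.trans subset_union_left), sdiff_eq_empty_iff_subset.mpr hu]
    simp
  have h2 : bp Mb E (uC q C) ≤ BP N q k nlo nhi Mb E :=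
    single_le_sum (f := fun C => bp Mb E (uC q C)) (fun _ _ => bp_nonneg _ _ _) hmem
  linarith

lemma blank_sub {N : ℕ} {M B : Finset Pt} : blank N M B ⊆ board N := sdiff_subset

section step

variable {N q k nlo nhi : ℕ} {S : Finset Cl} {M B Mb : Finset Pt} {t0 : Rect}

instance : DecidableEq Cl := Classical.decEq _

/-- first loop: attach all clusters hitting the new lattice -/
lemma loop1 (hSt : St N q k nlo S M B Mb) (ht0 : t0 ∈ Q N q)
    (hal : Disjoint (lat q t0) B) (hnot : ∀ C ∈ S, ¬ (lat q t0 ⊆ hC q C))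
    (hk : (lat q t0 ∩ bigB N q S M B).card ≤ k) (T : Finset Cl) :
    T ⊆ S.filter (fun C => (hC q C ∩ lat q t0).Nonempty) →
    ∃ C' : Cl, Valid q k C'.1 C'.2 ∧ (∀ i, C'.2 i ∈ Q N q) ∧ ldC C' = t0 ∧
      (∀ C ∈ T, hC q C ⊆ hC q C') ∧ C'.1.size ≤ 1 + nlo * T.card ∧
      uC q C' ⊆ Mb ∪ (S \ T).biUnion (hC q) ∧ uC q C' ⊆ lat q t0 ∪ T.biUnion (hC q) := by
  classical
  induction T using Finset.induction_on with
  | empty =>
    intro _
    have hpos1 : 1 ≤ t0.1.2 := by
      have := (mem_product.mp ht0).1; have := mem_P.mp this; omega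
    have hpos2 : 1 ≤ t0.2.2 := by
      have := (mem_product.mp ht0).2; have := mem_P.mp this; omega
    set f : ℕ × ℕ → Pt := fun p => (t0.1.1 + p.1 * t0.1.2, t0.2.1 + p.2 * t0.2.2) with hf
    have hfinj : Function.Injective f := by
      intro p p' h
      simp only [hf, Prod.mk.injEq, Nat.add_left_cancel_iff] at h
      exact Prod.ext (Nat.eq_of_mul_eq_mul_right (by omega) h.1)
        (Nat.eq_of_mul_eq_mul_right (by omega) h.2)
    set z0 : Finset (ℕ × ℕ) := (range q ×ˢ range q).filter (fun p => f p ∈ bigB N q S M B) with hz0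
    have hpts : pts t0 z0 = lat q t0 ∩ bigB N q S M B := by
      ext p
      simp only [pts, mem_image, mem_inter, hz0, mem_filter, mem_product, mem_range]
      constructor
      · rintro ⟨a, ⟨⟨ha1, ha2⟩, ha3⟩, rfl⟩
        refine ⟨?_, ha3⟩
        simp only [lat, mem_product, mem_ap]
        exact ⟨⟨a.1, ha1, rfl⟩, ⟨a.2, ha2, rfl⟩⟩
      · rintro ⟨h1, h2⟩
        simp only [lat, mem_product, mem_ap] at h1
        obtain ⟨⟨i, hi, hi'⟩, ⟨j, hj, hj'⟩⟩ := h1
        refine ⟨(i, j), ⟨⟨hi, hj⟩, ?_⟩, ?_⟩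
        · have : f (i, j) = p := Prod.ext hi' hj'
          rw [this]; exact h2
        · exact Prod.ext hi' hj'
    have hzc : z0.card ≤ k := by
      have : (pts t0 z0).card = z0.card := card_image_of_injective _ hfinj
      rw [← this, hpts]; exact hk
    refine ⟨⟨Sh.leaf z0, fun _ => t0⟩, ⟨hzc, filter_subset _ _, hpos1, hpos2⟩, fun _ => ht0, rfl,
      by simp, ?_, ?_, ?_⟩
    · simp [Sh.size]
    · show lat q t0 \ pts t0 z0 ⊆ _
      rw [hpts]
      intro p hp
      rw [mem_sdiff, mem_inter] at hp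
      have h1 : p ∈ board N := lat_sub_board' ht0 hp.1
      have h2 : p ∉ B := fun h => disjoint_left.mp hal hp.1 h
      have h3 : p ∉ bigB N q S M B := fun h => hp.2 ⟨hp.1, h⟩
      rw [sdiff_empty]
      by_cases hpM : p ∈ M
      · exact hSt.hMH hpM
      · apply mem_union_right
        by_contra h4
        apply h3
        simp only [bigB, blank, mem_sdiff, mem_union]
        exact ⟨⟨h1, by tauto⟩, h4⟩
    · show lat q t0 \ pts t0 z0 ⊆ _
      exact sdiff_subset.trans subset_union_left
  | insert C T hCT ih =>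
    intro hsub
    obtain ⟨C', hv, hQ, hld, hhull, hsize, hu1, hu2⟩ := ih ((subset_insert _ _).trans hsub)
    have hCm := hsub (mem_insert_self C T)
    rw [mem_filter] at hCm
    obtain ⟨hCS, hCne⟩ := hCm
    have hokC := hSt.hok C hCS
    have hTS : ∀ D ∈ T, D ∈ S := fun D hD => (mem_filter.mp (hsub (mem_insert_of_mem hD))).1
    refine ⟨attC C' C, ?_, Q_att hQ hokC.2.1, ?_, ?_, ?_, ?_, ?_⟩
    · apply valid_att hv hokC.1
      · obtain ⟨p, hp⟩ := hCne
        rw [mem_inter] at hp
        refine ⟨p, mem_inter.mpr ⟨?_, hp.1⟩⟩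
        apply ld_sub_hC q C'
        rw [hld]; exact hp.2
      · rw [hld]
        intro p hp
        rw [mem_inter] at hp
        have := hu2 hp.1
        rw [mem_union, mem_biUnion] at this
        rcases this with h | ⟨D, hD, hpD⟩
        · exact h
        · exfalso
          have hne : D ≠ C := by rintro rfl; exact hCT hD
          exact disjoint_left.mp (hSt.hdis D (hTS D hD) C hCS hne) hpD hp.2
      · rw [hld]; exact hnot C hCS
    · rw [ldC_att, hld]
    · intro D hD
      rw [mem_insert] at hD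
      rcases hD with rfl | hD
      · exact hC_att_right q C' D
      · exact (hhull D hD).trans (hC_att_left q C' C)
    · rw [size_att, card_insert_of_notMem hCT]
      have := hokC.2.2.2
      calc C'.1.size + C.1.size ≤ (1 + nlo * T.card) + nlo := Nat.add_le_add hsize this
        _ = 1 + nlo * (T.card + 1) := by ring
    · rw [uC_att]
      apply union_subset
      · intro p hp
        rw [mem_sdiff] at hp
        have := hu1 hp.1
        rw [mem_union, mem_biUnion] at this
        rw [mem_union, mem_biUnion]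
        rcases this with h | ⟨D, hD, hpD⟩
        · exact Or.inl h
        · right
          rw [mem_sdiff] at hD
          refine ⟨D, ?_, hpD⟩
          rw [mem_sdiff, mem_insert, not_or]
          refine ⟨hD.1, ?_, hD.2⟩
          rintro rfl; exact hp.2 hpD
      · exact hokC.2.2.1.trans subset_union_left
    · rw [uC_att]
      apply union_subset
      · intro p hp
        rw [mem_sdiff] at hp
        have := hu2 hp.1
        rw [mem_union] at this ⊢
        rcases this with h | h
        · exact Or.inl h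
        · right; exact biUnion_subset_biUnion_of_subset_left _ (subset_insert _ _) h
      · refine (uC_sub_hC q C).trans ?_
        refine Subset.trans ?_ subset_union_right
        exact subset_biUnion_of_mem _ (mem_insert_self _ _)

/-- second loop: merge clusters with intersecting hulls -/
lemma loop2 (hSt : St N q k nlo S M B Mb) (hnot : ∀ C ∈ S, ¬ (lat q t0 ⊆ hC q C))
    {E : Finset Pt} (hpot : BP N q k nlo nhi Mb E < 1) (h2 : 2 * nlo ≤ nhi) :
    ∀ (n : ℕ) (D : Finset Cl), D.card = n → D ⊆ S → (∀ C ∈ D, Disjoint (hC q C) (lat q t0)) →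
    ∀ C' : Cl, okC N q k nlo Mb C' → ldC C' = t0 → (∀ C ∈ S \ D, hC q C ⊆ hC q C') →
      uC q C' ⊆ lat q t0 ∪ (S \ D).biUnion (hC q) →
    ∃ (D' : Finset Cl) (C'' : Cl), D' ⊆ S ∧ okC N q k nlo Mb C'' ∧ ldC C'' = t0 ∧
      (∀ C ∈ S \ D', hC q C ⊆ hC q C'') ∧ (∀ C ∈ D', Disjoint (hC q C'') (hC q C)) := by
  classical
  intro n
  induction n using Nat.strong_induction_on with
  | _ n ih =>
  intro D hDn hDS hDt C' hok hld hhull hu
  by_cases hex : ∃ C ∈ D, ¬ Disjoint (hC q C') (hC q C)
  · obtain ⟨C, hCD, hCne⟩ := hex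
    have hCS := hDS hCD
    have hokC := hSt.hok C hCS
    have hdisj : Disjoint (uC q C') (hC q C) := by
      rw [disjoint_left]
      intro p hp hpC
      have := hu hp
      rw [mem_union, mem_biUnion] at this
      rcases this with h | ⟨F, hF, hpF⟩
      · exact disjoint_left.mp (hDt C hCD) hpC h
      · rw [mem_sdiff] at hF
        have hne : F ≠ C := by rintro rfl; exact hF.2 hCD
        exact disjoint_left.mp (hSt.hdis F hF.1 C hCS hne) hpF hpC
    have hatt : Valid q k (attC C' C).1 (attC C' C).2 := by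
      apply valid_att hok.1 hokC.1
      · rwa [← not_disjoint_iff_nonempty_inter]
      · rw [disjoint_iff_inter_eq_empty.mp hdisj]; exact empty_subset _
      · rw [hld]; exact hnot C hCS
    have huatt : uC q (attC C' C) ⊆ Mb := by
      rw [uC_att]
      exact union_subset (sdiff_subset.trans hok.2.2.1) hokC.2.2.1
    have hQatt := Q_att hok.2.1 hokC.2.1
    have hsatt : (attC C' C).1.size ≤ nlo := by
      apply size_le_of_pot hpot hatt hQatt huatt
      rw [size_att]
      have h3 := hok.2.2.2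
      have h4 := hokC.2.2.2
      omega
    have hsd : S \ D.erase C = insert C (S \ D) := by
      ext F
      simp only [mem_sdiff, mem_erase, mem_insert]
      constructor
      · rintro ⟨h1, h2⟩
        by_cases hF : F = C
        · exact Or.inl hF
        · right; exact ⟨h1, fun h => h2 ⟨hF, h⟩⟩
      · rintro (rfl | ⟨h1, h2⟩)
        · exact ⟨hCS, by tauto⟩
        · exact ⟨h1, by tauto⟩
    refine ih (D.erase C).card ?_ (D.erase C) rfl ((erase_subset _ _).trans hDS) ?_ (attC C' C)
      ⟨hatt, hQatt, huatt, hsatt⟩ (by rw [ldC_att, hld]) ?_ ?_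
    · rw [card_erase_of_mem hCD]
      have : 0 < D.card := card_pos.mpr ⟨C, hCD⟩
      omega
    · intro F hF; exact hDt F (mem_of_mem_erase hF)
    · rw [hsd]
      intro F hF
      rw [mem_insert] at hF
      rcases hF with rfl | hF
      · exact hC_att_right q C' F
      · exact (hhull F hF).trans (hC_att_left q C' C)
    · rw [hsd, uC_att, biUnion_insert]
      apply union_subset
      · refine sdiff_subset.trans (hu.trans ?_)
        intro p hp
        simp only [mem_union] at hp ⊢
        tauto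
      · refine (uC_sub_hC q C).trans ?_
        intro p hp
        simp only [mem_union]
        tauto
  · push Not at hex
    exact ⟨D, C', hDS, hok, hld, hhull, hex⟩

end step

end

end Pool.Agent.H63
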