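import Pool.Agent.H63.Defs

/-!
# Arithmetic progressions, rectangle lattices, counting
-/

namespace Pool.Agent.H63

open Finset

/-- The arithmetic progression `v.1, v.1 + v.2, ..., v.1 + (q-1) v.2`. -/
def ap (q : ℕ) (v : ℕ × ℕ) : Finset ℕ := (range q).image (fun i => v.1 + i * v.2)

/-- parameters of a rectangle lattice: `((a, x), (b, y))`. -/
abbrev Rect := (ℕ × ℕ) × (ℕ × ℕ)

/-- the lattice with given parameters -/
def lat (q : ℕ) (t : Rect) : Finset Pt := ap q t.1 ×ˢ ap q t.2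

lemma mem_ap {q : ℕ} {v : ℕ × ℕ} {u : ℕ} : u ∈ ap q v ↔ ∃ i < q, v.1 + i * v.2 = u := by
  simp [ap]

lemma lat_eq (q a b x y : ℕ) : lattice q a b x y = lat q ((a, x), (b, y)) := by
  unfold lattice lat ap
  ext ⟨u, v⟩
  simp only [mem_image, mem_product, mem_range, Prod.mk.injEq, Prod.exists]
  constructor
  · rintro ⟨i, j, ⟨hi, hj⟩, h1, h2⟩
    exact ⟨⟨i, hi, h1⟩, ⟨j, hj, h2⟩⟩
  · rintro ⟨⟨i, hi, h1⟩, ⟨j, hj, h2⟩⟩
    exact ⟨i, j, ⟨hi, hj⟩, h1, h2⟩

lemma card_ap {q : ℕ} {v : ℕ × ℕ} (hv : 1 ≤ v.2) : (ap q v).card = q := by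
  unfold ap
  rw [card_image_of_injective, card_range]
  intro i j hij
  have h1 : i * v.2 = j * v.2 := by simpa using hij
  exact Nat.eq_of_mul_eq_mul_right (by omega) h1

lemma ap_card_le' (q : ℕ) (v : ℕ × ℕ) : (ap q v).card ≤ q := by
  unfold ap; exact le_trans card_image_le (by simp)

lemma card_lat {q : ℕ} {t : Rect} (h1 : 1 ≤ t.1.2) (h2 : 1 ≤ t.2.2) :
    (lat q t).card = q ^ 2 := by
  unfold lat; rw [card_product, card_ap h1, card_ap h2]; ring

/-- parameters of the progressions inside `{1, ..., N}` -/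
def P (N q : ℕ) : Finset (ℕ × ℕ) :=
  (Icc 1 N ×ˢ Icc 1 N).filter (fun v => v.1 + (q - 1) * v.2 ≤ N)

/-- parameters of the lattices inside the board -/
def Q (N q : ℕ) : Finset Rect := P N q ×ˢ P N q

lemma mem_P {N q : ℕ} {v : ℕ × ℕ} :
    v ∈ P N q ↔ 1 ≤ v.1 ∧ v.1 ≤ N ∧ 1 ≤ v.2 ∧ v.2 ≤ N ∧ v.1 + (q - 1) * v.2 ≤ N := by
  simp only [P, mem_filter, mem_product, mem_Icc]; tauto

lemma ap_subset {N q : ℕ} {v : ℕ × ℕ} (hv : v ∈ P N q) : ap q v ⊆ Icc 1 N := by
  intro u hu
  rw [mem_ap] at hu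
  obtain ⟨i, hi, rfl⟩ := hu
  rw [mem_P] at hv
  rw [mem_Icc]
  constructor
  · omega
  · have : i * v.2 ≤ (q - 1) * v.2 := Nat.mul_le_mul_right _ (by omega)
    omega

lemma lat_sub_board' {N q : ℕ} {t : Rect} (ht : t ∈ Q N q) : lat q t ⊆ board N := by
  rw [Q, mem_product] at ht
  intro p hp
  simp only [lat, mem_product] at hp
  simp only [board, mem_product]
  exact ⟨ap_subset ht.1 hp.1, ap_subset ht.2 hp.2⟩

lemma isWinningSet_iff {N q : ℕ} (hq : 2 ≤ q) (A : Finset Pt) :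
    IsWinningSet N q A ↔ ∃ t ∈ Q N q, A = lat q t := by
  constructor
  · rintro ⟨a, b, x, y, hx, hy, rfl, hsub⟩
    refine ⟨((a, x), (b, y)), ?_, lat_eq q a b x y⟩
    rw [lat_eq] at hsub
    have key : ∀ i < q, ∀ j < q, (a + i * x, b + j * y) ∈ board N := by
      intro i hi j hj
      apply hsub
      simp only [lat, mem_product, mem_ap]
      exact ⟨⟨i, hi, rfl⟩, ⟨j, hj, rfl⟩⟩
    have h0 := key 0 (by omega) 0 (by omega)
    have h1 := key 1 (by omega) 1 (by omega)
    have h2 := key (q-1) (by omega) (q-1) (by omega)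
    simp only [board, mem_product, mem_Icc] at h0 h1 h2
    simp only [Q, mem_product, mem_P]
    refine ⟨⟨?_, ?_, ?_, ?_, ?_⟩, ⟨?_, ?_, ?_, ?_, ?_⟩⟩ <;> omega
  · rintro ⟨t, ht, rfl⟩
    rw [Q, mem_product] at ht
    refine ⟨t.1.1, t.2.1, t.1.2, t.2.2, ?_, ?_, ?_, ?_⟩
    · have := ht.1; rw [mem_P] at this; omega
    · have := ht.2; rw [mem_P] at this; omega
    · rw [lat_eq]
    · intro p hp
      simp only [lat, mem_product] at hp
      simp only [board, mem_product]
      exact ⟨ap_subset ht.1 hp.1, ap_subset ht.2 hp.2⟩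

lemma card_P_mem (N q : ℕ) (u : ℕ) : ((P N q).filter (fun v => u ∈ ap q v)).card ≤ q * N := by
  classical
  -- choose the index of `u`
  have hch : ∀ v : ℕ × ℕ, ∃ i, u ∈ ap q v → i < q ∧ v.1 + i * v.2 = u := by
    intro v
    by_cases h : u ∈ ap q v
    · rw [mem_ap] at h; obtain ⟨i, hi, h⟩ := h; exact ⟨i, fun _ => ⟨hi, h⟩⟩
    · exact ⟨0, fun h' => absurd h' h⟩
  choose f hf using hch
  have : ((P N q).filter (fun v => u ∈ ap q v)).card ≤ (range q ×ˢ Icc 1 N).card := by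
    apply card_le_card_of_injOn (fun v => (f v, v.2))
    · intro v hv
      simp only [coe_filter, Set.mem_ofPred_eq] at hv
      have h1 := hf v hv.2
      have h2 := mem_P.mp hv.1
      simp only [coe_product, Set.mem_prod, mem_coe, mem_range, mem_Icc]
      exact ⟨h1.1, by omega⟩
    · intro v hv w hw hvw
      simp only [coe_filter, Set.mem_ofPred_eq] at hv hw
      simp only [Prod.mk.injEq] at hvw
      have h1 := hf v hv.2
      have h2 := hf w hw.2
      rw [hvw.1, hvw.2] at h1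
      ext
      · omega
      · exact hvw.2
  simpa using this

lemma card_P_mem2 (N q : ℕ) (u u' : ℕ) (huu : u ≠ u') :
    ((P N q).filter (fun v => u ∈ ap q v ∧ u' ∈ ap q v)).card ≤ q ^ 2 := by
  classical
  have hch : ∀ (w : ℕ) (v : ℕ × ℕ), ∃ i, w ∈ ap q v → i < q ∧ v.1 + i * v.2 = w := by
    intro w v
    by_cases h : w ∈ ap q v
    · rw [mem_ap] at h; obtain ⟨i, hi, h⟩ := h; exact ⟨i, fun _ => ⟨hi, h⟩⟩
    · exact ⟨0, fun h' => absurd h' h⟩
  choose f hf using hch
  have : ((P N q).filter (fun v => u ∈ ap q v ∧ u' ∈ ap q v)).card ≤ (range q ×ˢ range q).card := by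
    apply card_le_card_of_injOn (fun v => (f u v, f u' v))
    · intro v hv
      simp only [coe_filter, Set.mem_ofPred_eq] at hv
      have h1 := hf u v hv.2.1
      have h2 := hf u' v hv.2.2
      simp only [coe_product, Set.mem_prod, mem_coe, mem_range]
      exact ⟨h1.1, h2.1⟩
    · intro v hv w hw hvw
      simp only [coe_filter, Set.mem_ofPred_eq] at hv hw
      simp only [Prod.mk.injEq] at hvw
      obtain ⟨_, h1⟩ := hf u v hv.2.1
      obtain ⟨_, h2⟩ := hf u w hw.2.1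
      obtain ⟨_, h3⟩ := hf u' v hv.2.2
      obtain ⟨_, h4⟩ := hf u' w hw.2.2
      rw [hvw.1] at h1
      rw [hvw.2] at h3
      set i := f u w
      set j := f u' w
      have hij : (i:ℤ) - j ≠ 0 := by
        intro h
        have : i = j := by omega
        rw [this] at h1
        exact huu (by rw [← h1, ← h3])
      have e1 : ((v.1:ℤ) + i * v.2) = u := by exact_mod_cast h1
      have e2 : ((w.1:ℤ) + i * w.2) = u := by exact_mod_cast h2
      have e3 : ((v.1:ℤ) + j * v.2) = u' := by exact_mod_cast h3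
      have e4 : ((w.1:ℤ) + j * w.2) = u' := by exact_mod_cast h4
      have e5 : ((i:ℤ) - j) * ((v.2:ℤ) - w.2) = 0 := by linarith
      have e6 : (v.2:ℤ) - w.2 = 0 := by
        rcases mul_eq_zero.mp e5 with h | h
        · exact absurd h hij
        · exact h
      have e7 : v.2 = w.2 := by omega
      rw [e7] at h1
      ext
      · omega
      · exact e7
  calc _ ≤ _ := this
    _ = q ^ 2 := by simp; ring

lemma card_P_lower (N q : ℕ) (hq : 1 ≤ q) : (N / 2) * (N / (2 * q)) ≤ (P N q).card := by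
  have : Icc 1 (N/2) ×ˢ Icc 1 (N/(2*q)) ⊆ P N q := by
    intro v hv
    simp only [mem_product, mem_Icc] at hv
    rw [mem_P]
    have h1 : v.2 * (2 * q) ≤ N := by
      calc v.2 * (2*q) ≤ (N/(2*q)) * (2*q) := Nat.mul_le_mul_right _ hv.2.2
        _ ≤ N := Nat.div_mul_le_self _ _
    have h2 : v.1 * 2 ≤ N := by omega
    have h3 : (q - 1) * v.2 ≤ v.2 * q := by rw [mul_comm]; exact Nat.mul_le_mul_left _ (by omega)
    have h4 : v.2 * 1 ≤ v.2 * q := Nat.mul_le_mul_left _ hq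
    have h5 : v.2 * (2 * q) = 2 * (v.2 * q) := by ring
    refine ⟨hv.1.1, by omega, hv.2.1, by omega, by omega⟩
  have h := card_le_card this
  simpa using h

lemma card_P_le (N q : ℕ) : (P N q).card ≤ N ^ 2 := by
  calc (P N q).card ≤ (Icc 1 N ×ˢ Icc 1 N).card := card_filter_le _ _
    _ = N ^ 2 := by simp; ring

end Pool.Agent.H63
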