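import Mathlib

/-!
# The (1:2) Maker-Breaker game on aligned rectangle lattices: definitions
-/

namespace Pool.Agent.H63

/-- Points of the plane with natural number coordinates. -/
abbrev Pt := ℕ × ℕ

/-- The board `V = {1, ..., N}²`. -/
def board (N : ℕ) : Finset Pt := Finset.Icc 1 N ×ˢ Finset.Icc 1 N

/-- The `q × q` aligned rectangle lattice
`{(a + i x, b + j y) : 0 ≤ i, j ≤ q - 1}` with corner `(a, b)` and steps `x`, `y`. -/
def lattice (q a b x y : ℕ) : Finset Pt :=
  (Finset.range q ×ˢ Finset.range q).image (fun p => (a + p.1 * x, b + p.2 * y))

/-- `A` is a winning set of the game on `{1, ..., N}²`: a `q × q` aligned rectangle lattice,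
with steps `x, y ≥ 1`, all of whose points lie on the board. -/
def IsWinningSet (N q : ℕ) (A : Finset Pt) : Prop :=
  ∃ a b x y : ℕ, 1 ≤ x ∧ 1 ≤ y ∧ A = lattice q a b x y ∧ A ⊆ board N

/-- `MakerWins N q M B`: in the `(1:2)` achievement game on `{1, ..., N}²` with winning sets the
`q × q` aligned rectangle lattices, at a position where Maker has claimed the points of `M`,
Breaker has claimed the points of `B`, and it is Maker's turn, Maker can force a win.
Either Maker has already claimed all points of a winning set (`claimed`), or Maker has a move,
claiming one unclaimed point `p`, such that Maker can force a win after every answer of Breaker,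
an answer being a set `R` of exactly two unclaimed points
(or all the unclaimed points, if fewer than two of them are left) (`move`). -/
inductive MakerWins (N q : ℕ) : Finset Pt → Finset Pt → Prop
  | claimed {M B : Finset Pt} (A : Finset Pt) (hA : IsWinningSet N q A) (h : A ⊆ M) :
      MakerWins N q M B
  | move {M B : Finset Pt} (p : Pt) (hp : p ∈ board N \ (M ∪ B))
      (h : ∀ R : Finset Pt, R ⊆ board N \ (insert p M ∪ B) →
        R.card = min 2 (board N \ (insert p M ∪ B)).card →
        MakerWins N q (insert p M) (B ∪ R)) :
      MakerWins N q M B

/-- Maker (who moves first) has a winning strategy in the `(1:2)` achievement game on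
`{1, ..., N}²` with winning sets the `q × q` aligned rectangle lattices. -/
def MakerHasWin (N q : ℕ) : Prop := MakerWins N q ∅ ∅

end Pool.Agent.H63
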