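import Pool.Agent.H63.MakerEvil

/-!
# Maker's win: starting potential
-/

namespace Pool.Agent.H63

open Finset

noncomputable section

lemma lat_sub_board {N q : ℕ} {t : Rect} (ht : t ∈ Q N q) : lat q t ⊆ board N := by
  rw [Q, mem_product] at ht
  intro p hp
  simp only [lat, mem_product] at hp
  simp only [board, mem_product]
  exact ⟨ap_subset ht.1 hp.1, ap_subset ht.2 hp.2⟩

lemma pair_bound' (N q p : ℕ) (M B : Finset Pt) (hH : PT (1/2) (J N q p) (Hs q p) M B < 1)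
    (u w : Pt) (huw : u ≠ w) (hp : 1 ≤ p) (hq : 1 ≤ q) :
    PT2 (1/3) (Q N q) (lat q) M B u w ≤ p * (q:ℝ) ^ 5 + 1 := by
  by_cases hu : u ∈ board N
  · by_cases hw : w ∈ board N
    · exact pair_bound N q p M B hH u w huw hu hw hp hq
    · have : PT2 (1/3) (Q N q) (lat q) M B u w = 0 := by
        unfold PT2
        apply sum_eq_zero
        intro t ht
        have : w ∉ lat q t := fun h => hw (lat_sub_board ht h)
        simp [ind, this]
      rw [this]; positivity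
  · have : PT2 (1/3) (Q N q) (lat q) M B u w = 0 := by
      unfold PT2
      apply sum_eq_zero
      intro t ht
      have : u ∉ lat q t := fun h => hu (lat_sub_board ht h)
      simp [ind, this]
    rw [this]; positivity

lemma card_lat_Q {N q : ℕ} {t : Rect} (ht : t ∈ Q N q) : (lat q t).card = q ^ 2 := by
  rw [Q, mem_product] at ht
  exact card_lat (by have := mem_P.mp ht.1; omega) (by have := mem_P.mp ht.2; omega)

/-- size of the union of sets with small pairwise intersections -/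
lemma card_union_lower {α : Type*} [DecidableEq α] (A : α → Finset Pt) (m q : ℕ) (s : Finset α)
    (hm : ∀ i ∈ s, (A i).card = m) (hq : ∀ i ∈ s, ∀ j ∈ s, i ≠ j → (A i ∩ A j).card ≤ q) :
    s.card * m ≤ (s.biUnion A).card + s.card ^ 2 * q := by
  induction s using Finset.induction_on with
  | empty => simp
  | insert a s ha ih =>
    have ih' := ih (fun i hi => hm i (mem_insert_of_mem hi))
      (fun i hi j hj hij => hq i (mem_insert_of_mem hi) j (mem_insert_of_mem hj) hij)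
    rw [card_insert_of_notMem ha, biUnion_insert]
    have h1 := card_union_add_card_inter (A a) (s.biUnion A)
    have h2 : (A a ∩ s.biUnion A).card ≤ s.card * q := by
      rw [inter_biUnion]
      apply card_biUnion_le_card_mul
      intro i hi
      exact hq a (mem_insert_self _ _) i (mem_insert_of_mem hi) (by rintro rfl; exact ha hi)
    have h3 := hm a (mem_insert_self _ _)
    rw [h3] at h1
    nlinarith

lemma Hs_card (N q p : ℕ) (f : Fin p → Rect) (hf : f ∈ J N q p) :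
    p * q ^ 2 ≤ (Hs q p f).card + p ^ 2 * q := by
  classical
  simp only [J, mem_filter, Fintype.mem_piFinset] at hf
  have := card_union_lower (fun i : Fin p => lat q (f i)) (q^2) q univ
    (fun i _ => card_lat_Q (hf.1 i)) (fun i _ j _ hij => by
      have := hf.2.2 i j hij; omega)
  unfold Hs
  simpa using this

lemma J_card (N q p : ℕ) (hN : q ≤ N) :
    (J N q p).card ≤ 2 * N ^ 3 * (2 * q ^ 3 * N) ^ p := by
  classical
  have hsub : J N q p ⊆ ((board N ×ˢ board N).filter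
      (fun z : Pt × Pt => z.1 ≠ z.2 ∧ (z.1.1 = z.2.1 ∨ z.1.2 = z.2.2))).biUnion
      (fun z => Fintype.piFinset (fun _ : Fin p => thru N q z.1 z.2)) := by
    intro f hf
    simp only [J, mem_filter, Fintype.mem_piFinset] at hf
    obtain ⟨h1, ⟨u, w, huw, hrow, hu, hw, h2⟩, _⟩ := hf
    rw [mem_biUnion]
    refine ⟨(u, w), ?_, ?_⟩
    · rw [mem_filter, mem_product]; exact ⟨⟨hu, hw⟩, huw, hrow⟩
    · rw [Fintype.mem_piFinset]
      intro i
      simp only [thru, mem_filter]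
      exact ⟨h1 i, h2 i⟩
  have hpairs : ((board N ×ˢ board N).filter
      (fun z : Pt × Pt => z.1 ≠ z.2 ∧ (z.1.1 = z.2.1 ∨ z.1.2 = z.2.2))).card ≤ 2 * N ^ 3 := by
    have hs2 : ((board N ×ˢ board N).filter
      (fun z : Pt × Pt => z.1 ≠ z.2 ∧ (z.1.1 = z.2.1 ∨ z.1.2 = z.2.2))) ⊆
      ((Icc 1 N ×ˢ Icc 1 N ×ˢ Icc 1 N).image (fun z : ℕ × ℕ × ℕ => (((z.1, z.2.1), (z.1, z.2.2)) : Pt × Pt)))
      ∪ ((Icc 1 N ×ˢ Icc 1 N ×ˢ Icc 1 N).image (fun z : ℕ × ℕ × ℕ => (((z.2.1, z.1), (z.2.2, z.1)) : Pt × Pt))) := by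
      rintro ⟨⟨a, b⟩, ⟨c, d⟩⟩ hz
      simp only [mem_filter, board, mem_product] at hz
      simp only [mem_union, mem_image, mem_product, Prod.mk.injEq, Prod.exists]
      rcases hz.2.2 with h | h
      · left; exact ⟨a, b, d, ⟨hz.1.1.1, hz.1.1.2, hz.1.2.2⟩, ⟨rfl, rfl⟩, ⟨h, rfl⟩⟩
      · right; exact ⟨b, a, c, ⟨hz.1.1.2, hz.1.1.1, hz.1.2.1⟩, ⟨rfl, rfl⟩, ⟨rfl, h⟩⟩
    refine le_trans (card_le_card hs2) (le_trans (card_union_le _ _) ?_)
    have h3 : ((Icc 1 N ×ˢ Icc 1 N ×ˢ Icc 1 N) : Finset (ℕ × ℕ × ℕ)).card = N ^ 3 := by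
      simp; ring
    have h4 := card_image_le (s := (Icc 1 N ×ˢ Icc 1 N ×ˢ Icc 1 N : Finset (ℕ × ℕ × ℕ)))
      (f := (fun z : ℕ × ℕ × ℕ => (((z.1, z.2.1), (z.1, z.2.2)) : Pt × Pt)))
    have h5 := card_image_le (s := (Icc 1 N ×ˢ Icc 1 N ×ˢ Icc 1 N : Finset (ℕ × ℕ × ℕ)))
      (f := (fun z : ℕ × ℕ × ℕ => (((z.2.1, z.1), (z.2.2, z.1)) : Pt × Pt)))
    rw [h3] at h4 h5
    omega
  refine le_trans (card_le_card hsub) ?_
  refine le_trans (card_biUnion_le_card_mul _ _ ((2 * q ^ 3 * N) ^ p) ?_)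
    (Nat.mul_le_mul_right _ hpairs)
  intro z hz
  rw [mem_filter] at hz
  rw [Fintype.card_piFinset]
  simp only [prod_const, card_univ, Fintype.card_fin]
  apply Nat.pow_le_pow_left
  refine le_trans (thru_row N q z.1 z.2 hz.2.1) ?_
  have : q ^ 4 ≤ q ^ 3 * N := by
    calc q^4 = q^3 * q := by ring
      _ ≤ q^3 * N := Nat.mul_le_mul_left _ hN
  nlinarith

lemma PT_J_le (N q p : ℕ) (hN : q ≤ N) :
    PT (1/2) (J N q p) (Hs q p) ∅ ∅ ≤
      2 * (N:ℝ) ^ 3 * (2 * (q:ℝ) ^ 3 * N) ^ p * 2 ^ (p ^ 2 * q) / 2 ^ (p * q ^ 2) := by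
  have h1 : PT (1/2) (J N q p) (Hs q p) ∅ ∅ ≤
      ∑ f ∈ J N q p, (2:ℝ) ^ (p ^ 2 * q) / 2 ^ (p * q ^ 2) := by
    unfold PT
    apply sum_le_sum
    intro f hf
    have h2 := Hs_card N q p f hf
    simp only [pot, disjoint_empty_right, if_true, sdiff_empty]
    rw [div_pow, one_pow, div_le_div_iff₀ (by positivity) (by positivity), one_mul, ← pow_add]
    exact pow_le_pow_right₀ (by norm_num) (by omega)
  refine le_trans h1 ?_
  rw [sum_const, nsmul_eq_mul]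
  have h3 : ((J N q p).card : ℝ) ≤ 2 * (N:ℝ) ^ 3 * (2 * (q:ℝ) ^ 3 * N) ^ p := by
    exact_mod_cast J_card N q p hN
  calc _ ≤ 2 * (N:ℝ) ^ 3 * (2 * (q:ℝ) ^ 3 * N) ^ p * ((2:ℝ) ^ (p ^ 2 * q) / 2 ^ (p * q ^ 2)) :=
        mul_le_mul_of_nonneg_right h3 (by positivity)
    _ = _ := by ring

/-- **Maker's side**, explicit form of the numerical condition. -/
theorem maker_explicit (N q p : ℕ) (hq : 2 ≤ q) (hp : 1 ≤ p) (hN : q ≤ N)
    (h1 : (N:ℝ) ^ 4 * (2 * (N:ℝ) ^ 3 * (2 * (q:ℝ) ^ 3 * N) ^ p * 2 ^ (p ^ 2 * q) /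
      2 ^ (p * q ^ 2)) ≤ 1)
    (h2 : 2 * ((p:ℝ) * q ^ 5 + 1) * N ^ 2 + ((p:ℝ) * q ^ 5 + 1) + 1 <
      ((((N / 2) * (N / (2 * q)) : ℕ) : ℝ)) ^ 2 / 3 ^ (q ^ 2)) :
    MakerHasWin N q := by
  have hcard : ((Q N q).card : ℝ) ≤ (N:ℝ) ^ 4 := by
    have : (Q N q).card ≤ N ^ 4 := by
      rw [Q, card_product]
      calc _ ≤ N^2 * N^2 := Nat.mul_le_mul (card_P_le N q) (card_P_le N q)
        _ = N^4 := by ring
    exact_mod_cast this
  refine maker_abstract N q (Q N q) (lat q) (J N q p) (Hs q p) ((N:ℝ)^4) ((p:ℝ) * q ^ 5 + 1)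
    (by positivity) ?_ hcard ?_ _ ∅ ∅ (disjoint_empty_left _) (empty_subset _) (empty_subset _)
    rfl ?_
  · intro t ht
    rw [isWinningSet_iff hq]
    exact ⟨t, ht, rfl⟩
  · intro M B hH x y hxy
    exact pair_bound' N q p M B hH x y hxy hp (by omega)
  · have h3 : (((board N \ (∅ ∪ ∅)).card : ℕ) : ℝ) = (N:ℝ)^2 := by
      simp [board]; ring
    rw [h3]
    have h4 : PT (1/3) (Q N q) (lat q) ∅ ∅ = (Q N q).card / 3 ^ (q^2) := by
      unfold PT
      have : ∀ t ∈ Q N q, pot (1/3) ∅ ∅ (lat q t) = 1 / 3 ^ (q^2) := by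
        intro t ht
        simp only [pot, disjoint_empty_right, if_true, sdiff_empty]
        rw [card_lat_Q ht, div_pow, one_pow]
      rw [sum_congr rfl this, sum_const, nsmul_eq_mul]
      ring
    have h5 : ((((N / 2) * (N / (2 * q)) : ℕ) : ℝ)) ^ 2 ≤ (Q N q).card := by
      rw [Q, card_product]
      have := card_P_lower N q (by omega)
      have h6 : ((((N / 2) * (N / (2 * q)) : ℕ) : ℝ)) ≤ (P N q).card := by exact_mod_cast this
      push_cast
      have h7 : (0:ℝ) ≤ (((N / 2) * (N / (2 * q)) : ℕ) : ℝ) := Nat.cast_nonneg _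
      push_cast at h6 h7
      nlinarith
    have h8 := PT_J_le N q p hN
    have h9 : (N:ℝ)^4 * PT (1/2) (J N q p) (Hs q p) ∅ ∅ ≤ 1 := by
      refine le_trans (mul_le_mul_of_nonneg_left h8 (by positivity)) h1
    have h10 : ((((N / 2) * (N / (2 * q)) : ℕ) : ℝ)) ^ 2 / 3 ^ (q ^ 2) ≤
        (Q N q).card / 3 ^ (q^2) := div_le_div_of_nonneg_right h5 (by positivity)
    rw [h4]
    linarith

/-- **Maker's side.** -/
theorem maker_side (N q : ℕ) (hq : 1600 ≤ q)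
    (hlow : 15000 * (q:ℝ) ^ 7 * 3 ^ (q ^ 2) ≤ (N:ℝ) ^ 2)
    (hup : (N:ℝ) ^ 2 ≤ 3 ^ ((q + 2) ^ 2)) : MakerHasWin N q := by
  have hq1 : (1:ℝ) ≤ q := by exact_mod_cast (by omega : 1 ≤ q)
  have hq0 : (0:ℝ) < q := by linarith
  have hNq : (4 * (q:ℝ)) ≤ N := by
    by_contra hcon
    push Not at hcon
    have h1 : (N:ℝ) ^ 2 < (4 * q) ^ 2 := pow_lt_pow_left₀ hcon (Nat.cast_nonneg _) (by norm_num)
    have h2 : (1:ℝ) ≤ 3 ^ (q^2) := one_le_pow₀ (by norm_num)
    have h3 : (q:ℝ)^2 ≤ (q:ℝ)^7 := pow_le_pow_right₀ hq1 (by norm_num)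
    have h4 : 0 ≤ (q:ℝ)^7 := by positivity
    nlinarith
  have hN4 : 4 * q ≤ N := by exact_mod_cast hNq
  have hNpos : (0:ℝ) < N := by linarith
  refine maker_explicit N q 32 (by omega) (by norm_num) (by omega) ?_ ?_
  · -- logarithmic estimate
    have hl2 : 0 < Real.log 2 := Real.log_pos (by norm_num)
    have h35 : 5 * Real.log 3 ≤ 8 * Real.log 2 := by
      rw [← Real.log_rpow (by norm_num), ← Real.log_rpow (by norm_num)]
      apply Real.log_le_log (by positivity)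
      norm_num
    have hL : 2 * Real.log N ≤ ((q:ℝ) + 2) ^ 2 * Real.log 3 := by
      have := Real.log_le_log (by positivity) hup
      rw [Real.log_pow, Real.log_pow] at this
      push_cast at this
      linarith
    have hlq : Real.log q ≤ q * Real.log 2 := by
      rw [← Real.log_rpow (by norm_num : (0:ℝ) < 2)]
      apply Real.log_le_log hq0
      rw [Real.rpow_natCast]
      exact_mod_cast (Nat.lt_two_pow_self (n := q)).le
    have hpos : (0:ℝ) < (N:ℝ) ^ 4 * (2 * (N:ℝ) ^ 3 * (2 * (q:ℝ) ^ 3 * N) ^ 32 * 2 ^ (32 ^ 2 * q) /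
      2 ^ (32 * q ^ 2)) := by positivity
    rw [← Real.log_nonpos_iff hpos.le]
    have hexp : Real.log ((N:ℝ) ^ 4 * (2 * (N:ℝ) ^ 3 * (2 * (q:ℝ) ^ 3 * N) ^ 32 * 2 ^ (32 ^ 2 * q) /
      2 ^ (32 * q ^ 2))) = 4 * Real.log N + (Real.log 2 + 3 * Real.log N +
        32 * (Real.log 2 + 3 * Real.log q + Real.log N) + 1024 * q * Real.log 2
        - 32 * q ^ 2 * Real.log 2) := by
      rw [Real.log_mul (by positivity) (by positivity), Real.log_div (by positivity) (by positivity),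
        Real.log_mul (by positivity) (by positivity), Real.log_mul (by positivity) (by positivity),
        Real.log_mul (by positivity) (by positivity), Real.log_pow, Real.log_pow, Real.log_pow,
        Real.log_pow, Real.log_pow, Real.log_mul (by positivity) (by positivity),
        Real.log_mul (by positivity) (by positivity), Real.log_pow]
      push_cast
      ring
    rw [hexp]
    have hqr : (1600:ℝ) ≤ q := by exact_mod_cast hq
    have hLL : Real.log N ≤ 0.8 * ((q:ℝ) + 2) ^ 2 * Real.log 2 := by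
      have : 0 ≤ ((q:ℝ)+2)^2 := by positivity
      nlinarith
    have hfin : 33 + 96 * (q:ℝ) + 39 * (0.8 * ((q:ℝ)+2)^2) + 1024 * q - 32 * q^2 ≤ 0 := by
      nlinarith
    nlinarith
  · have hqn : (32:ℝ) * q ^ 5 + 1 ≤ 33 * q ^ 5 := by
      have : (1:ℝ) ≤ (q:ℝ)^5 := one_le_pow₀ hq1
      linarith
    have hN1 : (1:ℝ) ≤ (N:ℝ)^2 := by
      have : (1:ℝ) ≤ N := by linarith
      exact one_le_pow₀ this
    have hq5 : (1:ℝ) ≤ (q:ℝ)^5 := one_le_pow₀ hq1
    have hA : (N:ℝ) / 3 ≤ ((N/2 : ℕ) : ℝ) := by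
      have h1 : N ≤ 2 * (N/2) + 1 := by omega
      have h2 : (N:ℝ) ≤ 2 * ((N/2 : ℕ):ℝ) + 1 := by exact_mod_cast h1
      linarith
    have hB : (N:ℝ) / (4 * q) ≤ ((N/(2*q) : ℕ) : ℝ) := by
      have h1 : N < (2 * q) * (N/(2*q)) + 2 * q := by
        have := Nat.div_add_mod N (2*q)
        have h3 := Nat.mod_lt N (by omega : 2 * q > 0)
        omega
      have h2 : (N:ℝ) < (2 * q) * ((N/(2*q) : ℕ):ℝ) + 2 * q := by exact_mod_cast h1
      rw [div_le_iff₀ (by positivity)]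
      nlinarith
    have hAB : (N:ℝ)^2 / (12 * q) ≤ (((N / 2) * (N / (2 * q)) : ℕ) : ℝ) := by
      push_cast
      calc (N:ℝ)^2 / (12 * q) = (N/3) * (N/(4*q)) := by field_simp; norm_num
        _ ≤ _ := mul_le_mul hA hB (by positivity) (by positivity)
    have hsq : (N:ℝ)^4 / (144 * q^2) ≤ ((((N / 2) * (N / (2 * q)) : ℕ) : ℝ)) ^ 2 := by
      calc (N:ℝ)^4 / (144 * q^2) = ((N:ℝ)^2 / (12 * q))^2 := by field_simp; norm_num
        _ ≤ _ := pow_le_pow_left₀ (by positivity) hAB 2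
    have hmain : 104 * (q:ℝ)^5 * N^2 ≤ ((((N / 2) * (N / (2 * q)) : ℕ) : ℝ)) ^ 2 / 3 ^ (q ^ 2) := by
      rw [le_div_iff₀ (by positivity)]
      refine le_trans ?_ hsq
      rw [le_div_iff₀ (by positivity)]
      have : 104 * (q:ℝ)^5 * N^2 * 3 ^ (q^2) * (144 * q^2) =
        (14976 * (q:ℝ)^7 * 3 ^ (q^2)) * N^2 := by ring
      rw [this]
      have h4 : 14976 * (q:ℝ) ^ 7 * 3 ^ (q ^ 2) ≤ (N:ℝ)^2 := by
        have : 0 ≤ (q:ℝ)^7 * 3 ^ (q^2) := by positivity
        nlinarith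
      calc _ ≤ (N:ℝ)^2 * N^2 := mul_le_mul_of_nonneg_right h4 (by positivity)
        _ = N^4 := by ring
    refine lt_of_lt_of_le ?_ hmain
    push_cast
    have h6 : 0 < (q:ℝ)^5 * N^2 := by positivity
    have h7 : (q:ℝ)^5 ≤ (q:ℝ)^5 * N^2 := le_mul_of_one_le_right (by positivity) hN1
    have h8 : 2 * ((32:ℝ) * q ^ 5 + 1) * N ^ 2 ≤ 66 * (q:ℝ)^5 * N^2 := by nlinarith
    nlinarith

end

end Pool.Agent.H63
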