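import Pool.Agent.H63.Count

/-!
# Monotonicity in `q`
-/

namespace Pool.Agent.H63

open Finset

lemma winning_mono {N q q' : ℕ} (h : q' ≤ q) {A : Finset Pt} (hA : IsWinningSet N q A) :
    ∃ A', IsWinningSet N q' A' ∧ A' ⊆ A := by
  obtain ⟨a, b, x, y, hx, hy, rfl, hsub⟩ := hA
  have hs : lattice q' a b x y ⊆ lattice q a b x y := by
    unfold lattice
    apply image_subset_image
    apply product_subset_product <;> exact range_subset_range.mpr h
  exact ⟨lattice q' a b x y, ⟨a, b, x, y, hx, hy, rfl, hs.trans hsub⟩, hs⟩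

lemma makerWins_mono {N q q' : ℕ} (h : q' ≤ q) {M B : Finset Pt} (hw : MakerWins N q M B) :
    MakerWins N q' M B := by
  induction hw with
  | claimed A hA hAM =>
    obtain ⟨A', hA', hsub⟩ := winning_mono h hA
    exact MakerWins.claimed A' hA' (hsub.trans hAM)
  | move p hp _ ih => exact MakerWins.move p hp ih

end Pool.Agent.H63
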