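import Pool.Agent.H63.Breaker
import Pool.Agent.H63.MakerStart
import Pool.Agent.H63.Mono

/-!
# Asymptotics
-/

namespace Pool.Agent.H63

open Filter Topology

noncomputable section

/-- Breaker's side with explicit parameters -/
theorem breaker_num (N q : ℕ) (hN : 1 ≤ N)
    (hs : (24 * (Nat.clog 2 q : ℝ) ^ 2 + 72 * (Nat.clog 2 q : ℝ) + 33) ≤ q)
    (H : 2 * Real.logb 3 N + (24 * (Nat.clog 2 q : ℝ) ^ 2 + 72 * (Nat.clog 2 q : ℝ) + 33) ≤
      (q:ℝ) ^ 2) : ¬ MakerHasWin N q := by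
  set L := Nat.clog 2 q with hL
  have hqL : q ≤ 2 ^ L := Nat.le_pow_clog (by norm_num) q
  have hs' : 24 * L ^ 2 + 72 * L + 33 ≤ q := by exact_mod_cast hs
  have hq33 : 33 ≤ q := by omega
  set k := 12 * L + 4 with hk
  set g := 3 + (2 * L + 1) * k with hg
  set gam := g + 21 + 40 * L with hgam
  have hsum : k + 1 + gam = 24 * L ^ 2 + 72 * L + 33 := by rw [hgam, hg, hk]; ring
  have hsumR : (k:ℝ) + 1 + gam = 24 * (L:ℝ) ^ 2 + 72 * L + 33 := by exact_mod_cast hsum
  have hq1 : q ^ 2 + 1 ≤ 2 ^ (2 * L + 1) := by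
    calc q ^ 2 + 1 ≤ 2 * q ^ 2 := by nlinarith
      _ ≤ 2 * (2 ^ L) ^ 2 := by gcongr
      _ = 2 ^ (2 * L + 1) := by rw [← pow_mul]; ring
  apply breaker_side N q k g gam (2 * q ^ 2) (4 * q ^ 4) hN (by omega)
  · linarith
  · have hq33R : (33:ℝ) ≤ q := by exact_mod_cast hq33
    nlinarith
  · linarith
  · calc 8 * (q ^ 2 + 1) ^ k ≤ 8 * (2 ^ (2 * L + 1)) ^ k := by gcongr
      _ = 2 ^ g := by rw [hg, ← pow_mul, pow_add]; norm_num
      _ ≤ 3 ^ g := Nat.pow_le_pow_left (by norm_num) g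
  · have h1 : (4 * q ^ 4 * q) ^ 2 + 1 ≤ 2 ^ (5 + 10 * L) := by
      calc (4 * q ^ 4 * q) ^ 2 + 1 = 16 * q ^ 10 + 1 := by ring
        _ ≤ 32 * q ^ 10 := by
          have : 1 ≤ q ^ 10 := Nat.one_le_pow _ _ (by omega)
          omega
        _ ≤ 32 * (2 ^ L) ^ 10 := by gcongr
        _ = 2 ^ (5 + 10 * L) := by rw [← pow_mul, pow_add]; norm_num; ring
    calc ((4 * q ^ 4 * q) ^ 2 + 1) ^ 4 * 3 ^ g * 3 ≤ (2 ^ (5 + 10 * L)) ^ 4 * 3 ^ g * 3 := by gcongr
      _ = 2 ^ (20 + 40 * L) * 3 ^ (g + 1) := by rw [← pow_mul, pow_succ 3 g]; ring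
      _ ≤ 3 ^ (20 + 40 * L) * 3 ^ (g + 1) := by
          gcongr
          norm_num
      _ = 3 ^ gam := by rw [← pow_add, hgam]; ring_nf
  · have : gam ≤ q := by omega
    have h2 : q ≤ q ^ 2 := by nlinarith
    omega
  · have h2 : q ^ 2 ≤ q ^ 4 := Nat.pow_le_pow_right (by omega) (by norm_num)
    omega
  · have h2 : 1 ≤ q ^ 4 := Nat.one_le_pow _ _ (by omega)
    calc 1 + 2 * q ^ 2 * q ^ 2 = 1 + 2 * q ^ 4 := by ring
      _ ≤ 4 * q ^ 4 := by omega
  · calc 3 * (2 * q ^ 2 * q) ^ 4 = 48 * q ^ 12 := by ring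
      _ ≤ 48 * (2 ^ L) ^ 12 := by gcongr
      _ = 48 * 2 ^ (12 * L) := by rw [← pow_mul]; ring_nf
      _ < 81 * 3 ^ (12 * L) := by
          have h1 : 2 ^ (12 * L) ≤ 3 ^ (12 * L) := Nat.pow_le_pow_left (by norm_num) _
          have h2 : 0 < 3 ^ (12 * L) := by positivity
          omega
      _ = 3 ^ k := by rw [hk, pow_add]; ring

lemma clog_le {q : ℕ} (hq : 3 ≤ q) : (Nat.clog 2 q : ℝ) ≤ 3 * Real.log q := by
  have h1 : Nat.clog 2 q ≤ Nat.log 2 q + 1 := by
    rw [Nat.clog_le_iff_le_pow (by norm_num)]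
    exact (Nat.lt_pow_succ_log_self (by norm_num) q).le
  have h2 : (Nat.log 2 q : ℝ) ≤ Real.logb 2 q := by
    have := Real.natLog_le_logb q 2
    exact_mod_cast this
  have h3 : Real.logb 2 q = Real.log q / Real.log 2 := rfl
  have h4 : (0.6931471803 : ℝ) < Real.log 2 := Real.log_two_gt_d9
  have h5 : (1:ℝ) ≤ Real.log q := by
    rw [Real.le_log_iff_exp_le (by positivity)]
    have : Real.exp 1 < 2.7182818286 := Real.exp_one_lt_d9
    have h6 : (3:ℝ) ≤ q := by exact_mod_cast hq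
    linarith
  have h7 : Real.log q / Real.log 2 ≤ 2 * Real.log q := by
    rw [div_le_iff₀ (by linarith)]
    nlinarith
  have h8 : (Nat.clog 2 q : ℝ) ≤ Nat.log 2 q + 1 := by exact_mod_cast h1
  linarith

lemma slack_small {ε : ℝ} (hε : 0 < ε) : ∀ᶠ q : ℕ in atTop,
    (24 * (Nat.clog 2 q : ℝ) ^ 2 + 72 * (Nat.clog 2 q : ℝ) + 33) ≤ ε * q := by
  have h1 : (fun x : ℝ => Real.log x ^ 2) =o[atTop] (fun x : ℝ => x) :=
    Real.isLittleO_pow_log_id_atTop
  have h2 := h1.bound (c := ε / 465) (by positivity)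
  have h3 := tendsto_natCast_atTop_atTop (R := ℝ) |>.eventually h2
  filter_upwards [h3, eventually_ge_atTop 3] with q hq hq3
  have h4 := clog_le hq3
  have h5 : (1:ℝ) ≤ Real.log q := by
    rw [Real.le_log_iff_exp_le (by positivity)]
    have : Real.exp 1 < 2.7182818286 := Real.exp_one_lt_d9
    have h6 : (3:ℝ) ≤ q := by exact_mod_cast hq3
    linarith
  have h6 : (0:ℝ) ≤ (Nat.clog 2 q : ℝ) := by positivity
  rw [Real.norm_of_nonneg (by positivity), Real.norm_of_nonneg (by positivity)] at hq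
  have h7 : (Nat.clog 2 q : ℝ) ^ 2 ≤ 9 * Real.log q ^ 2 := by nlinarith
  have h8 : Real.log q ≤ Real.log q ^ 2 := by nlinarith
  nlinarith

lemma poly_exp_small {ε : ℝ} (hε : 0 < ε) : ∀ᶠ q : ℕ in atTop,
    15000 * (q:ℝ) ^ 7 ≤ (3:ℝ) ^ (2 * ε * q) := by
  have hlog : 0 < Real.log 3 := Real.log_pos (by norm_num)
  have h1 : (fun x : ℝ => x ^ 7) =o[atTop] (fun x : ℝ => Real.exp (2 * ε * Real.log 3 * x)) :=
    isLittleO_pow_exp_pos_mul_atTop 7 (by positivity)
  have h2 := h1.bound (c := 1 / 15000) (by positivity)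
  have h3 := tendsto_natCast_atTop_atTop (R := ℝ) |>.eventually h2
  filter_upwards [h3] with q hq
  rw [Real.norm_of_nonneg (by positivity), Real.norm_of_nonneg (by positivity)] at hq
  have h4 : (3:ℝ) ^ (2 * ε * q) = Real.exp (2 * ε * Real.log 3 * q) := by
    rw [Real.rpow_def_of_pos (by norm_num)]
    congr 1; ring
  rw [h4]
  linarith

/-- the threshold -/
def thr (N : ℕ) : ℝ := Real.sqrt (2 * Real.logb 3 N)

lemma thr_sq {N : ℕ} (hN : 1 ≤ N) : thr N ^ 2 = 2 * Real.logb 3 N := by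
  unfold thr
  have hN1 : (1:ℝ) ≤ N := by exact_mod_cast hN
  exact Real.sq_sqrt (by have := Real.logb_nonneg (b := 3) (by norm_num) hN1; linarith)

lemma rpow_thr {N : ℕ} (hN : 1 ≤ N) : (3:ℝ) ^ (thr N ^ 2) = (N:ℝ) ^ 2 := by
  rw [thr_sq hN, mul_comm, Real.rpow_mul (by norm_num),
    Real.rpow_logb (by norm_num) (by norm_num) (by exact_mod_cast hN)]
  exact_mod_cast Real.rpow_natCast (N:ℝ) 2

lemma tendsto_thr : Tendsto thr atTop atTop := by
  unfold thr
  apply Real.tendsto_sqrt_atTop.comp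
  apply Tendsto.const_mul_atTop (by norm_num)
  exact (Real.tendsto_logb_atTop (by norm_num)).comp tendsto_natCast_atTop_atTop

theorem breaker_eventually {ε : ℝ} (hε : 0 < ε) : ∀ᶠ N : ℕ in atTop,
    ∀ q : ℕ, thr N + ε ≤ q → ¬ MakerHasWin N q := by
  have hε1 : 0 < min ε 1 := lt_min hε one_pos
  obtain ⟨q0, hq0⟩ := eventually_atTop.mp (slack_small hε1)
  filter_upwards [tendsto_thr.eventually_ge_atTop (q0:ℝ), eventually_ge_atTop 1] with N hN hN1
  intro q hq
  have h0 : (q0:ℝ) ≤ q := by linarith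
  have h1 := hq0 q (by exact_mod_cast h0)
  have hthr : 0 ≤ thr N := Real.sqrt_nonneg _
  have hqnn : (0:ℝ) ≤ q := by positivity
  have h2 : min ε 1 * q ≤ q := by
    have := min_le_right ε 1
    nlinarith
  have h3 : min ε 1 * q ≤ ε * q := by
    have := min_le_left ε 1
    nlinarith
  apply breaker_num N q hN1 (by linarith)
  rw [← thr_sq hN1]
  nlinarith

theorem maker_eventually {ε : ℝ} (hε : 0 < ε) (hε1 : ε ≤ 1) : ∀ᶠ N : ℕ in atTop,
    ∀ q : ℕ, (q:ℝ) ≤ thr N - ε → MakerHasWin N q := by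
  obtain ⟨q0, hq0⟩ := eventually_atTop.mp (poly_exp_small hε)
  filter_upwards [tendsto_thr.eventually_ge_atTop (max (q0:ℝ) 1600 + 2), eventually_ge_atTop 1]
    with N hN hN1
  intro q hq
  set p := ⌊thr N - ε⌋₊ with hp
  have hpos : 0 ≤ thr N - ε := by
    have h1 : (1600:ℝ) ≤ max (q0:ℝ) 1600 := le_max_right _ _
    linarith
  have hp1 : (p:ℝ) ≤ thr N - ε := Nat.floor_le hpos
  have hp2 : thr N - ε < p + 1 := Nat.lt_floor_add_one _
  have hqp : q ≤ p := Nat.le_floor hq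
  have h1600 : 1600 ≤ p := by
    have h1 : (1600:ℝ) ≤ max (q0:ℝ) 1600 := le_max_right _ _
    have : (1600:ℝ) < p + 1 := by linarith
    have : (1600:ℝ) < (p + 1 : ℕ) := by push_cast; exact this
    have := Nat.cast_lt.mp (show ((1600:ℕ):ℝ) < (p + 1 : ℕ) by exact_mod_cast this)
    omega
  have hq0p : q0 ≤ p := by
    have h1 : (q0:ℝ) ≤ max (q0:ℝ) 1600 := le_max_left _ _
    have : (q0:ℝ) < p + 1 := by linarith
    have : (q0:ℝ) < (p + 1 : ℕ) := by push_cast; exact this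
    have := Nat.cast_lt.mp this
    omega
  have h3 := hq0 p hq0p
  refine makerWins_mono hqp (maker_side N p h1600 ?_ ?_)
  · rw [← rpow_thr hN1]
    have h4 : (3:ℝ) ^ (p ^ 2) = (3:ℝ) ^ ((p:ℝ) ^ 2) := by
      have : ((p:ℝ) ^ 2) = ((p ^ 2 : ℕ) : ℝ) := by push_cast; ring
      rw [this, Real.rpow_natCast]
    rw [h4]
    calc 15000 * (p:ℝ) ^ 7 * 3 ^ ((p:ℝ) ^ 2) ≤ 3 ^ (2 * ε * p) * 3 ^ ((p:ℝ) ^ 2) := by gcongr
      _ = 3 ^ (2 * ε * p + (p:ℝ) ^ 2) := by rw [Real.rpow_add (by norm_num)]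
      _ ≤ 3 ^ (thr N ^ 2) := by
          apply Real.rpow_le_rpow_of_exponent_le (by norm_num)
          nlinarith
  · rw [← rpow_thr hN1]
    have h4 : (3:ℝ) ^ ((p + 2) ^ 2) = (3:ℝ) ^ (((p:ℝ) + 2) ^ 2) := by
      have : (((p:ℝ) + 2) ^ 2) = (((p + 2) ^ 2 : ℕ) : ℝ) := by push_cast; ring
      rw [this, Real.rpow_natCast]
    rw [h4]
    apply Real.rpow_le_rpow_of_exponent_le (by norm_num)
    have : 0 ≤ thr N := Real.sqrt_nonneg _
    apply pow_le_pow_left₀ this
    linarith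

theorem main_theorem : ∃ e : ℕ → ℝ, Tendsto e atTop (𝓝 0) ∧ ∀ᶠ N : ℕ in atTop,
    IsGreatest {q : ℕ | 2 ≤ q ∧ MakerHasWin N q} ⌊Real.sqrt (2 * Real.logb 3 N) + e N⌋₊ := by
  classical
  -- greatest elements exist
  have hex : ∀ᶠ N : ℕ in atTop, ∃ a, IsGreatest {q : ℕ | 2 ≤ q ∧ MakerHasWin N q} a := by
    filter_upwards [maker_eventually one_half_pos (by norm_num), breaker_eventually one_half_pos,
      tendsto_thr.eventually_ge_atTop 3] with N hM hB hN
    have hne : {q : ℕ | 2 ≤ q ∧ MakerHasWin N q}.Nonempty :=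
      ⟨2, le_refl _, hM 2 (by push_cast; linarith)⟩
    have hbd : BddAbove {q : ℕ | 2 ≤ q ∧ MakerHasWin N q} := by
      refine ⟨⌈thr N + 1/2⌉₊, ?_⟩
      rintro q ⟨_, hq⟩
      by_contra hcon
      push Not at hcon
      exact hB q ((Nat.le_ceil _).trans (by exact_mod_cast hcon.le)) hq
    exact ⟨sSup _, Nat.sSup_mem hne hbd, fun q hq => le_csSup hbd hq⟩
  let A : ℕ → ℕ := fun N => sSup {q : ℕ | 2 ≤ q ∧ MakerHasWin N q}
  have hA : ∀ᶠ N : ℕ in atTop, IsGreatest {q : ℕ | 2 ≤ q ∧ MakerHasWin N q} (A N) := by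
    filter_upwards [hex] with N hN
    obtain ⟨a, ha⟩ := hN
    have : A N = a := ha.csSup_eq
    rw [this]; exact ha
  let e : ℕ → ℝ := fun N => if thr N < A N then (A N : ℝ) - thr N
    else if (A N : ℝ) + 1 ≤ thr N then (A N : ℝ) + 1 - thr N - 1 / ((N:ℝ) + 1) else 0
  refine ⟨e, ?_, ?_⟩
  · rw [Metric.tendsto_atTop]
    intro δ hδ
    set ε := min (δ / 4) (1/2) with hε
    have hε0 : 0 < ε := by positivity
    have hε1 : ε ≤ 1 := (min_le_right _ _).trans (by norm_num)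
    have hε2 : ε ≤ δ / 4 := min_le_left _ _
    have hlim : ∀ᶠ N : ℕ in atTop, 1 / ((N:ℝ) + 1) < δ / 4 := by
      have := tendsto_one_div_add_atTop_nhds_zero_nat (𝕜 := ℝ)
      exact this.eventually (gt_mem_nhds (by positivity))
    have hall : ∀ᶠ N : ℕ in atTop, dist (e N) 0 < δ := by
      filter_upwards [hA, maker_eventually hε0 hε1, breaker_eventually hε0, hlim,
        tendsto_thr.eventually_ge_atTop 4] with N hAN hM hB hl hN
      have hpos : (0:ℝ) < 1 / ((N:ℝ) + 1) := by positivity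
      have h1 : (A N : ℝ) < thr N + ε := by
        by_contra hcon
        push Not at hcon
        exact hB (A N) hcon hAN.1.2
      have h2 : thr N - ε < A N + 1 := by
        have h3 : ⌊thr N - ε⌋₊ ≤ A N := by
          apply hAN.2
          refine ⟨Nat.le_floor (by push_cast; linarith), hM _ (Nat.floor_le (by linarith))⟩
        have h4 := Nat.lt_floor_add_one (thr N - ε)
        have h5 : ((⌊thr N - ε⌋₊ : ℕ) : ℝ) ≤ A N := by exact_mod_cast h3
        linarith
      rw [Real.dist_eq, sub_zero]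
      simp only [e]
      split_ifs with c1 c2
      · rw [abs_of_pos (by linarith)]; linarith
      · rw [abs_of_neg (by linarith)]; linarith
      · simpa using hδ
    exact eventually_atTop.mp hall |>.imp (fun _ h n hn => h n hn)
  · filter_upwards [hA] with N hAN
    have hfl : ⌊Real.sqrt (2 * Real.logb 3 N) + e N⌋₊ = A N := by
      show ⌊thr N + e N⌋₊ = A N
      have hthr : 0 ≤ thr N := Real.sqrt_nonneg _
      have hpos : (0:ℝ) < 1 / ((N:ℝ) + 1) := by positivity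
      have hle : 1 / ((N:ℝ) + 1) ≤ 1 := by
        rw [div_le_one (by positivity)]
        have : (0:ℝ) ≤ N := by positivity
        linarith
      simp only [e]
      split_ifs with c1 c2
      · have : thr N + ((A N : ℝ) - thr N) = A N := by ring
        rw [this, Nat.floor_natCast]
      · rw [Nat.floor_eq_iff (by
          have : (0:ℝ) ≤ A N := by positivity
          linarith)]
        constructor
        · linarith
        · linarith
      · push Not at c1 c2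
        rw [Nat.floor_eq_iff (by linarith)]
        constructor
        · linarith
        · linarith
    rw [hfl]; exact hAN

end

end Pool.Agent.H63
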