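import Pool.Agent.H63.Count

/-!
# Coincidence spaces of families of arithmetic progressions
-/

namespace Pool.Agent.H63

open Finset Module

noncomputable section

/-- The coincidence space of a finite family of progressions (of length `q`): all
rational deformations of the family for which all coincidences of terms persist. -/
def L (q : ℕ) {ι : Type} (v : ι → ℕ × ℕ) : Submodule ℚ (ι × Bool → ℚ) where
  carrier := {w | ∀ i j : ι, ∀ a < q, ∀ b < q,
    (v i).1 + a * (v i).2 = (v j).1 + b * (v j).2 →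
      w (i, false) + a * w (i, true) = w (j, false) + b * w (j, true)}
  zero_mem' := by intro i j a _ b _ _; simp
  add_mem' := by
    intro w w' h h' i j a ha b hb hc
    have h1 := h i j a ha b hb hc
    have h2 := h' i j a ha b hb hc
    simp only [Pi.add_apply]
    linarith
  smul_mem' := by
    intro r w h i j a ha b hb hc
    have h1 := h i j a ha b hb hc
    simp only [Pi.smul_apply, smul_eq_mul]
    linear_combination r * h1

lemma mem_L {q : ℕ} {ι : Type} {v : ι → ℕ × ℕ} {w : ι × Bool → ℚ} :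
    w ∈ L q v ↔ ∀ i j : ι, ∀ a < q, ∀ b < q,
    (v i).1 + a * (v i).2 = (v j).1 + b * (v j).2 →
      w (i, false) + a * w (i, true) = w (j, false) + b * w (j, true) := Iff.rfl

/-- dimension of the coincidence space -/
def Dx (q : ℕ) {ι : Type} (v : ι → ℕ × ℕ) : ℕ := finrank ℚ (L q v)

/-- the family itself as a vector -/
def act {ι : Type} (v : ι → ℕ × ℕ) : ι × Bool → ℚ :=
  fun p => if p.2 then ((v p.1).2 : ℚ) else ((v p.1).1 : ℚ)

lemma act_mem (q : ℕ) {ι : Type} (v : ι → ℕ × ℕ) : act v ∈ L q v := by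
  intro i j a _ b _ h
  simp only [act]
  exact_mod_cast h

/-- the translation vector -/
def tr (ι : Type) : ι × Bool → ℚ := fun p => if p.2 then 0 else 1

lemma tr_mem (q : ℕ) {ι : Type} (v : ι → ℕ × ℕ) : tr ι ∈ L q v := by
  intro i j a _ b _ h
  simp [tr]

/-- columns of a family -/
def cols (q : ℕ) {ι : Type} [Fintype ι] (v : ι → ℕ × ℕ) : Finset ℕ :=
  univ.biUnion (fun i => ap q (v i))

lemma mem_cols {q : ℕ} {ι : Type} [Fintype ι] {v : ι → ℕ × ℕ} {c : ℕ} :
    c ∈ cols q v ↔ ∃ i, ∃ a < q, (v i).1 + a * (v i).2 = c := by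
  simp [cols, mem_ap]

section join

variable {ι ι' : Type} [Fintype ι] [Fintype ι'] (q : ℕ) (v : ι ⊕ ι' → ℕ × ℕ)

/-- restriction map -/
def res : L q v →ₗ[ℚ] (L q (v ∘ Sum.inl)) × (L q (v ∘ Sum.inr)) where
  toFun w := (⟨fun p => w.1 (Sum.inl p.1, p.2), by
      intro i j a ha b hb h
      exact w.2 (Sum.inl i) (Sum.inl j) a ha b hb h⟩,
    ⟨fun p => w.1 (Sum.inr p.1, p.2), by
      intro i j a ha b hb h
      exact w.2 (Sum.inr i) (Sum.inr j) a ha b hb h⟩)
  map_add' w w' := by
    ext p <;> simp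
  map_smul' r w := by
    ext p <;> simp

lemma res_inj : Function.Injective (res q v) := by
  intro w w' h
  simp only [res, LinearMap.coe_mk, AddHom.coe_mk, Prod.mk.injEq, Subtype.mk.injEq] at h
  ext ⟨p, b⟩
  rcases p with p | p
  · exact congrFun h.1 (p, b)
  · exact congrFun h.2 (p, b)

lemma join0 : Dx q v ≤ Dx q (v ∘ Sum.inl) + Dx q (v ∘ Sum.inr) := by
  unfold Dx
  rw [← finrank_prod]
  exact LinearMap.finrank_le_finrank_of_injective (res_inj q v)

/-- the functional of a coincidence -/
def fl (i : ι) (a : ℕ) (j : ι') (b : ℕ) :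
    (L q (v ∘ Sum.inl)) × (L q (v ∘ Sum.inr)) →ₗ[ℚ] ℚ where
  toFun w := w.1.1 (i, false) + a * w.1.1 (i, true) - (w.2.1 (j, false) + b * w.2.1 (j, true))
  map_add' w w' := by simp; ring
  map_smul' r w := by simp; ring

lemma join1 {c : ℕ} (h1 : c ∈ cols q (v ∘ Sum.inl)) (h2 : c ∈ cols q (v ∘ Sum.inr)) :
    Dx q v + 1 ≤ Dx q (v ∘ Sum.inl) + Dx q (v ∘ Sum.inr) := by
  rw [mem_cols] at h1 h2
  obtain ⟨i, a, ha, hi⟩ := h1
  obtain ⟨j, b, hb, hj⟩ := h2
  have hker : ∀ w, res q v w ∈ LinearMap.ker (fl q v i a j b) := by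
    intro w
    rw [LinearMap.mem_ker]
    simp only [fl, res, LinearMap.coe_mk, AddHom.coe_mk]
    have := w.2 (Sum.inl i) (Sum.inr j) a ha b hb (by
      simp only [Function.comp] at hi hj; rw [hi, hj])
    linarith
  have h3 : Dx q v ≤ finrank ℚ (LinearMap.ker (fl q v i a j b)) := by
    unfold Dx
    apply LinearMap.finrank_le_finrank_of_injective (f := (res q v).codRestrict _ hker)
    intro w w' h
    apply res_inj q v
    exact congrArg Subtype.val h
  have h4 := LinearMap.finrank_range_add_finrank_ker (fl q v i a j b)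
  have h5 : 1 ≤ finrank ℚ (LinearMap.range (fl q v i a j b)) := by
    rw [Nat.one_le_iff_ne_zero, Ne, Submodule.finrank_eq_zero, LinearMap.range_eq_bot]
    intro h
    have := LinearMap.congr_fun h (⟨tr ι, tr_mem q _⟩, 0)
    simp [fl, tr] at this
  rw [finrank_prod] at h4
  unfold Dx at *
  omega

lemma join2 {c c' : ℕ} (hcc : c ≠ c') (h1 : c ∈ cols q (v ∘ Sum.inl))
    (h2 : c ∈ cols q (v ∘ Sum.inr)) (h1' : c' ∈ cols q (v ∘ Sum.inl))
    (h2' : c' ∈ cols q (v ∘ Sum.inr)) :
    Dx q v + 2 ≤ Dx q (v ∘ Sum.inl) + Dx q (v ∘ Sum.inr) := by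
  rw [mem_cols] at h1 h2 h1' h2'
  obtain ⟨i, a, ha, hi⟩ := h1
  obtain ⟨j, b, hb, hj⟩ := h2
  obtain ⟨i', a', ha', hi'⟩ := h1'
  obtain ⟨j', b', hb', hj'⟩ := h2'
  let ψ := (fl q v i a j b).prod (fl q v i' a' j' b')
  have hker : ∀ w, res q v w ∈ LinearMap.ker ψ := by
    intro w
    rw [LinearMap.mem_ker]
    have e1 := w.2 (Sum.inl i) (Sum.inr j) a ha b hb (by
      simp only [Function.comp] at hi hj; rw [hi, hj])
    have e2 := w.2 (Sum.inl i') (Sum.inr j') a' ha' b' hb' (by
      simp only [Function.comp] at hi' hj'; rw [hi', hj'])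
    apply Prod.ext
    · show fl q v i a j b (res q v w) = 0
      simp only [fl, res, LinearMap.coe_mk, AddHom.coe_mk]
      linarith
    · show fl q v i' a' j' b' (res q v w) = 0
      simp only [fl, res, LinearMap.coe_mk, AddHom.coe_mk]
      linarith
  have h3 : Dx q v ≤ finrank ℚ (LinearMap.ker ψ) := by
    unfold Dx
    apply LinearMap.finrank_le_finrank_of_injective (f := (res q v).codRestrict _ hker)
    intro w w' h
    apply res_inj q v
    exact congrArg Subtype.val h
  have h4 := LinearMap.finrank_range_add_finrank_ker ψ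
  have h5 : LinearMap.range ψ = ⊤ := by
    rw [LinearMap.range_eq_top]
    rintro ⟨x, y⟩
    -- solve  s + t c = x,  s + t c' = y
    have hc : ((c:ℚ) - c') ≠ 0 := by
      intro h
      apply hcc
      have : (c:ℚ) = c' := by linarith
      exact_mod_cast this
    set t : ℚ := (x - y) / (c - c')
    set s : ℚ := x - t * c
    refine ⟨(s • ⟨tr ι, tr_mem q _⟩ + t • ⟨act (v ∘ Sum.inl), act_mem q _⟩, 0), ?_⟩
    have e1 : ((v (Sum.inl i)).1 : ℚ) + a * (v (Sum.inl i)).2 = c := by exact_mod_cast hi
    have e2 : ((v (Sum.inl i')).1 : ℚ) + a' * (v (Sum.inl i')).2 = c' := by exact_mod_cast hi'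
    have ht : t * (c - c') = x - y := by
      simp only [t]; field_simp
    apply Prod.ext
    · show fl q v i a j b _ = x
      simp only [fl, LinearMap.coe_mk, AddHom.coe_mk]
      simp only [Submodule.coe_add, Submodule.coe_smul, Pi.add_apply, Pi.smul_apply, smul_eq_mul,
        ZeroMemClass.coe_zero, Pi.zero_apply]
      simp only [tr, act, Function.comp_apply, Bool.false_eq_true, if_false, if_true]
      simp only [s]; linear_combination t * e1
    · show fl q v i' a' j' b' _ = y
      simp only [fl, LinearMap.coe_mk, AddHom.coe_mk]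
      simp only [Submodule.coe_add, Submodule.coe_smul, Pi.add_apply, Pi.smul_apply, smul_eq_mul,
        ZeroMemClass.coe_zero, Pi.zero_apply]
      simp only [tr, act, Function.comp_apply, Bool.false_eq_true, if_false, if_true]
      simp only [s]; linear_combination t * e2 - ht
  rw [h5, finrank_top, finrank_prod, finrank_prod, finrank_self] at h4
  unfold Dx at *
  omega

end join

end

end Pool.Agent.H63
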