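import Pool.Agent.H63.LinAlg

/-!
# Counting families of progressions by the dimension of their coincidence space
-/

namespace Pool.Agent.H63

open Finset Module

noncomputable section

open Classical in
/-- Number of points of a subspace in a box. -/
lemma box_card {κ : Type} [Fintype κ] [DecidableEq κ] (N : ℕ) : ∀ (n : ℕ) (S : Submodule ℚ (κ → ℚ)),
    finrank ℚ S = n → ∀ A : κ → Finset ℚ, (∀ i, (A i).card ≤ N) →
    ((Fintype.piFinset A).filter (fun w => w ∈ S)).card ≤ N ^ n := by
  intro n
  induction n with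
  | zero =>
    intro S hS A _
    rw [Submodule.finrank_eq_zero] at hS
    subst hS
    rw [pow_zero]
    refine le_trans (card_le_card (?_ : _ ⊆ ({0} : Finset (κ → ℚ)))) (by simp)
    intro w hw
    rw [mem_filter] at hw
    simpa using hw.2
  | succ n ih =>
    intro S hS A hA
    have hne : S ≠ ⊥ := by
      intro h; rw [h, finrank_bot] at hS; omega
    obtain ⟨w, hwS, hw0⟩ := Submodule.exists_mem_ne_zero_of_ne_bot hne
    obtain ⟨i, hi⟩ : ∃ i, w i ≠ 0 := by
      by_contra hcon
      push Not at hcon
      exact hw0 (funext hcon)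
    -- the subspace of vectors vanishing at `i`
    set f : S →ₗ[ℚ] ℚ := (LinearMap.proj i).comp S.subtype with hf
    set S0 : Submodule ℚ (κ → ℚ) := (LinearMap.ker f).map S.subtype with hS0
    have hS0r : finrank ℚ S0 = n := by
      rw [hS0, Submodule.finrank_map_subtype_eq]
      have h1 := LinearMap.finrank_range_add_finrank_ker f
      have h2 : LinearMap.range f = ⊤ := by
        rw [LinearMap.range_eq_top]
        intro x
        refine ⟨(x / w i) • ⟨w, hwS⟩, ?_⟩
        rw [map_smul, hf]
        simp only [LinearMap.comp_apply, Submodule.subtype_apply, LinearMap.proj_apply, smul_eq_mul]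
        field_simp
      rw [h2, finrank_top, finrank_self, hS] at h1
      omega
    have hmem0 : ∀ u, u ∈ S0 ↔ u ∈ S ∧ u i = 0 := by
      intro u
      rw [hS0, Submodule.mem_map]
      constructor
      · rintro ⟨⟨u', hu'⟩, h1, rfl⟩
        rw [LinearMap.mem_ker] at h1
        exact ⟨hu', h1⟩
      · rintro ⟨h1, h2⟩
        exact ⟨⟨u, h1⟩, by rw [LinearMap.mem_ker]; exact h2, rfl⟩
    have hsub : (Fintype.piFinset A).filter (fun w => w ∈ S) ⊆
        (A i).biUnion (fun a => ((Fintype.piFinset A).filter (fun w => w ∈ S)).filter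
          (fun w => w i = a)) := by
      intro u hu
      rw [mem_biUnion]
      refine ⟨u i, ?_, ?_⟩
      · rw [mem_filter, Fintype.mem_piFinset] at hu; exact hu.1 i
      · rw [mem_filter]; exact ⟨hu, rfl⟩
    refine le_trans (card_le_card hsub) ?_
    refine le_trans (card_biUnion_le_card_mul _ _ (N ^ n) ?_) ?_
    · intro a _
      rcases Finset.eq_empty_or_nonempty (((Fintype.piFinset A).filter (fun w => w ∈ S)).filter
          (fun w => w i = a)) with he | ⟨u0, hu0⟩
      · rw [he]; simp
      · rw [mem_filter, mem_filter] at hu0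
        refine le_trans ?_ (ih S0 hS0r (fun j => (A j).image (fun x => x - u0 j)) ?_)
        · apply card_le_card_of_injOn (fun u => u - u0)
          · intro u hu
            rw [mem_coe, mem_filter, mem_filter, Fintype.mem_piFinset] at hu
            rw [mem_coe, mem_filter, Fintype.mem_piFinset, hmem0]
            refine ⟨?_, Submodule.sub_mem _ hu.1.2 hu0.1.2, ?_⟩
            · intro j
              rw [mem_image]
              exact ⟨u j, hu.1.1 j, rfl⟩
            · show u i - u0 i = 0
              rw [hu.2, hu0.2, sub_self]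
          · intro u _ u' _ h
            simpa using h
        · intro j
          exact le_trans card_image_le (hA j)
    · rw [pow_succ, mul_comm]
      exact Nat.mul_le_mul_left _ (hA i)

/-- finitely many linear conditions can be reduced to at most `dim V` of them -/
lemma reduce_conditions {V S : Type} [AddCommGroup V] [Module ℚ V] [FiniteDimensional ℚ V]
    (l : S → Dual ℚ V) (d : ℕ) (hd : finrank ℚ V = d) :
    ∃ g : Fin d → Option S, ∀ w : V, (∀ j s, g j = some s → l s w = 0) → ∀ s, l s w = 0 := by
  classical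
  obtain ⟨b, hb, hspan, hli⟩ := exists_linearIndependent ℚ (Set.range l)
  have hfin : b.Finite := LinearIndependent.setFinite hli
  haveI : Fintype b := hfin.fintype
  have hcard : Fintype.card b ≤ d := by
    have := LinearIndependent.fintype_card_le_finrank hli
    rw [Subspace.dual_finrank_eq, hd] at this
    exact this
  have hch : ∀ x : b, ∃ s, l s = x := fun x => hb x.2
  choose c hc using hch
  let e := Fintype.equivFin b
  refine ⟨fun j => if h : (j:ℕ) < Fintype.card b then some (c (e.symm ⟨j, h⟩)) else none, ?_⟩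
  intro w hw s
  have h1 : ∀ x ∈ b, (x : Dual ℚ V) w = 0 := by
    intro x hx
    have h2 := hw ⟨(e ⟨x, hx⟩ : ℕ), lt_of_lt_of_le (e ⟨x, hx⟩).2 hcard⟩ (c ⟨x, hx⟩) (by
      show (if h : ((e ⟨x, hx⟩ : Fin _) : ℕ) < Fintype.card b then
        some (c (e.symm ⟨((e ⟨x, hx⟩ : Fin _) : ℕ), h⟩)) else none) = some (c ⟨x, hx⟩)
      rw [dif_pos (e ⟨x, hx⟩).2]
      simp)
    rw [hc] at h2
    exact h2
  have h3 : l s ∈ Submodule.span ℚ b := by
    rw [hspan]; exact Submodule.subset_span ⟨s, rfl⟩
  refine Submodule.span_induction (p := fun x _ => (x : Dual ℚ V) w = 0) (fun x hx => h1 x hx)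
    (by simp) (fun x y _ _ hx hy => by simp [hx, hy]) (fun a x _ hx => by simp [hx]) h3

/-- conditions indexed by `(i, a, j, b)` -/
abbrev Cond (q : ℕ) (ι : Type) := ι × Fin q × ι × Fin q

/-- linear functional of a condition -/
def cfl (q : ℕ) (ι : Type) (c : Cond q ι) : Dual ℚ (ι × Bool → ℚ) where
  toFun w := w (c.1, false) + (c.2.1 : ℕ) * w (c.1, true)
    - (w (c.2.2.1, false) + (c.2.2.2 : ℕ) * w (c.2.2.1, true))
  map_add' w w' := by simp; ring
  map_smul' r w := by simp; ring

/-- subspace cut out by a sequence of conditions -/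
def LE (q : ℕ) (ι : Type) {d : ℕ} (g : Fin d → Option (Cond q ι)) :
    Submodule ℚ (ι × Bool → ℚ) where
  carrier := {w | ∀ j c, g j = some c → cfl q ι c w = 0}
  zero_mem' := by intro j c _; simp
  add_mem' := by intro w w' h h' j c hj; rw [map_add, h j c hj, h' j c hj, add_zero]
  smul_mem' := by intro r w h j c hj; rw [map_smul, h j c hj, smul_zero]

lemma exists_LE (q : ℕ) {ι : Type} [Fintype ι] (v : ι → ℕ × ℕ) :
    ∃ g : Fin (2 * Fintype.card ι) → Option (Cond q ι), L q v = LE q ι g := by
  classical
  let S := {c : Cond q ι // (v c.1).1 + (c.2.1 : ℕ) * (v c.1).2 =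
    (v c.2.2.1).1 + (c.2.2.2 : ℕ) * (v c.2.2.1).2}
  obtain ⟨g, hg⟩ := reduce_conditions (V := ι × Bool → ℚ) (S := S) (fun c => cfl q ι c.1)
    (2 * Fintype.card ι) (by
      rw [finrank_fintype_fun_eq_card, Fintype.card_prod, Fintype.card_bool, mul_comm])
  refine ⟨fun j => (g j).map (fun c => c.1), ?_⟩
  ext w
  constructor
  · intro hw j c hj
    rw [Option.map_eq_some_iff] at hj
    obtain ⟨c', _, rfl⟩ := hj
    have := hw c'.1.1 c'.1.2.2.1 c'.1.2.1 c'.1.2.1.2 c'.1.2.2.2 c'.1.2.2.2.2 c'.2
    simp only [cfl, LinearMap.coe_mk, AddHom.coe_mk]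
    linarith
  · intro hw
    have h1 : ∀ c : S, cfl q ι c.1 w = 0 := by
      apply hg w
      intro j s hs
      exact hw j s.1 (by
        show Option.map _ (g j) = _
        rw [hs]; rfl)
    intro i j a ha b hb hc
    have := h1 ⟨(i, ⟨a, ha⟩, j, ⟨b, hb⟩), hc⟩
    simp only [cfl, LinearMap.coe_mk, AddHom.coe_mk] at this
    linarith

/-- **Counting lemma.** -/
lemma sum_dim (N q : ℕ) (hN : 1 ≤ N) {ι : Type} [Fintype ι] [DecidableEq ι]
    (P' : Finset (ℕ × ℕ)) (hP : P' ⊆ Icc 1 N ×ˢ Icc 1 N) :
    ∑ v ∈ Fintype.piFinset (fun _ : ι => P'), ((1:ℝ) / N) ^ (Dx q v) ≤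
      (((Fintype.card ι * q) ^ 2 + 1 : ℕ) : ℝ) ^ (2 * Fintype.card ι) := by
  classical
  choose g hg using (fun v : ι → ℕ × ℕ => exists_LE q v)
  have hNpos : (0:ℝ) < N := by exact_mod_cast hN
  have hstep : ∀ e : Fin (2 * Fintype.card ι) → Option (Cond q ι),
      ∑ v ∈ (Fintype.piFinset (fun _ : ι => P')).filter (fun v => g v = e),
        ((1:ℝ) / N) ^ (Dx q v) ≤ 1 := by
    intro e
    have h1 : ∀ v ∈ (Fintype.piFinset (fun _ : ι => P')).filter (fun v => g v = e),
        ((1:ℝ) / N) ^ (Dx q v) = ((1:ℝ) / N) ^ (finrank ℚ (LE q ι e)) := by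
      intro v hv
      rw [mem_filter] at hv
      unfold Dx
      rw [hg v, hv.2]
    rw [sum_congr rfl h1, sum_const, nsmul_eq_mul]
    have h2 : ((Fintype.piFinset (fun _ : ι => P')).filter (fun v => g v = e)).card ≤
        N ^ (finrank ℚ (LE q ι e)) := by
      refine le_trans ?_ (box_card N _ (LE q ι e) rfl
        (fun _ => (Icc 1 N).image (fun n : ℕ => (n:ℚ))) (fun _ => le_trans card_image_le (by simp)))
      apply card_le_card_of_injOn (fun v => act v)
      · intro v hv
        rw [mem_coe, mem_filter, Fintype.mem_piFinset] at hv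
        rw [mem_coe, mem_filter, Fintype.mem_piFinset]
        refine ⟨?_, ?_⟩
        · rintro ⟨i, b⟩
          have h3 := hP (hv.1 i)
          rw [mem_product] at h3
          rw [mem_image]
          cases b
          · exact ⟨(v i).1, h3.1, by simp [act]⟩
          · exact ⟨(v i).2, h3.2, by simp [act]⟩
        · rw [← hv.2, ← hg v]
          exact act_mem q v
      · intro v _ w _ h
        funext i
        have e1 := congrFun h (i, false)
        have e2 := congrFun h (i, true)
        simp only [act, Bool.false_eq_true, if_false, if_true] at e1 e2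
        exact Prod.ext (by exact_mod_cast e1) (by exact_mod_cast e2)
    have h4 : (((Fintype.piFinset (fun _ : ι => P')).filter (fun v => g v = e)).card : ℝ) ≤
        (N:ℝ) ^ (finrank ℚ (LE q ι e)) := by exact_mod_cast h2
    calc _ ≤ (N:ℝ) ^ (finrank ℚ (LE q ι e)) * ((1:ℝ) / N) ^ (finrank ℚ (LE q ι e)) :=
          mul_le_mul_of_nonneg_right h4 (by positivity)
      _ = 1 := by rw [← mul_pow, mul_one_div_cancel hNpos.ne', one_pow]
  rw [← sum_fiberwise_of_maps_to (t := (univ : Finset (Fin (2 * Fintype.card ι) → Option (Cond q ι))))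
    (g := g) (fun _ _ => mem_univ _)]
  calc _ ≤ ∑ e : Fin (2 * Fintype.card ι) → Option (Cond q ι), (1:ℝ) :=
        sum_le_sum (fun e _ => hstep e)
    _ = ((Fintype.card (Fin (2 * Fintype.card ι) → Option (Cond q ι)) : ℕ) : ℝ) := by simp
    _ = _ := by
      rw [Fintype.card_fun, Fintype.card_fin, Fintype.card_option]
      simp only [Cond, Fintype.card_prod, Fintype.card_fin]
      push_cast
      congr 1
      ring

end

end Pool.Agent.H63
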