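import Pool.Agent.H63.MakerPot
import Pool.Agent.H63.Count

/-!
# The auxiliary family for Maker's potential argument
-/

namespace Pool.Agent.H63

open Finset

noncomputable section

open Classical in
lemma greedy {α : Type*} [Fintype α] (t : α → ℝ) (ht0 : ∀ a, 0 ≤ t a) (ht1 : ∀ a, t a ≤ 1)
    (c : α → α → Prop) (hsymm : ∀ a b, c a b → c b a) (D : ℕ)
    (hc : ∀ a, (univ.filter (fun b => c a b)).card ≤ D) (p : ℕ)
    (hT : (p:ℝ) * D + 1 ≤ ∑ a, t a) :
    1 ≤ ∑ f : Fin p → α, if (∀ i j, i ≠ j → ¬ c (f i) (f j)) then ∏ i, t (f i) else 0 := by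
  induction p with
  | zero => simp
  | succ p ih =>
    have hT' : (p:ℝ) * D + 1 ≤ ∑ a, t a := by
      have : (0:ℝ) ≤ D := Nat.cast_nonneg _
      push_cast at hT
      nlinarith
    have ih' := ih hT'
    rw [← (Fin.consEquiv (fun _ : Fin (p+1) => α)).sum_comp, Fintype.sum_prod_type_right]
    refine le_trans ih' ?_
    apply sum_le_sum
    intro g _
    by_cases hg : ∀ i j, i ≠ j → ¬ c (g i) (g j)
    · rw [if_pos hg]
      have hprod : 0 ≤ ∏ i, t (g i) := prod_nonneg (fun i _ => ht0 _)
      -- sum over allowed first elements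
      have hsum : 1 ≤ ∑ a, if (∀ i, ¬ c (g i) a) then t a else 0 := by
        have h1 : ∑ a, t a ≤ (∑ a, if (∀ i, ¬ c (g i) a) then t a else 0)
            + ∑ i, ∑ a ∈ univ.filter (fun b => c (g i) b), (1:ℝ) := by
          have h2 : ∀ a, t a ≤ (if (∀ i, ¬ c (g i) a) then t a else 0)
              + ∑ i, if c (g i) a then (1:ℝ) else 0 := by
            intro a
            by_cases h : ∀ i, ¬ c (g i) a
            · rw [if_pos h]
              have : 0 ≤ ∑ i, if c (g i) a then (1:ℝ) else 0 :=
                sum_nonneg (fun i _ => by split_ifs <;> norm_num)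
              linarith
            · rw [if_neg h]
              push Not at h
              obtain ⟨i, hi⟩ := h
              have : (1:ℝ) ≤ ∑ i, if c (g i) a then (1:ℝ) else 0 := by
                calc (1:ℝ) = if c (g i) a then (1:ℝ) else 0 := by rw [if_pos hi]
                  _ ≤ _ := single_le_sum (f := fun i => if c (g i) a then (1:ℝ) else 0)
                    (fun i _ => by split_ifs <;> norm_num) (mem_univ i)
              linarith [ht1 a]
          calc ∑ a, t a ≤ ∑ a, ((if (∀ i, ¬ c (g i) a) then t a else 0)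
              + ∑ i, if c (g i) a then (1:ℝ) else 0) := sum_le_sum (fun a _ => h2 a)
            _ = _ := by
              rw [sum_add_distrib, sum_comm]
              congr 1
              apply sum_congr rfl
              intro i _
              rw [sum_filter]
        have h3 : ∑ i : Fin p, ∑ a ∈ univ.filter (fun b => c (g i) b), (1:ℝ) ≤ p * D := by
          calc ∑ i : Fin p, ∑ a ∈ univ.filter (fun b => c (g i) b), (1:ℝ)
              ≤ ∑ i : Fin p, (D:ℝ) := by
                apply sum_le_sum
                intro i _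
                simp only [sum_const, nsmul_eq_mul, mul_one]
                exact_mod_cast hc (g i)
            _ = p * D := by simp
        have h4 : (0:ℝ) ≤ D := Nat.cast_nonneg _
        push_cast at hT
        nlinarith
      calc ∏ i, t (g i) = (∏ i, t (g i)) * 1 := by ring
        _ ≤ (∏ i, t (g i)) * ∑ a, (if (∀ i, ¬ c (g i) a) then t a else 0) :=
            mul_le_mul_of_nonneg_left hsum hprod
        _ = ∑ a, (∏ i, t (g i)) * (if (∀ i, ¬ c (g i) a) then t a else 0) := by rw [mul_sum]
        _ ≤ _ := by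
            apply sum_le_sum
            intro a _
            by_cases h : ∀ i, ¬ c (g i) a
            · rw [if_pos h, if_pos]
              · simp only [Fin.consEquiv_apply, Fin.prod_univ_succ, Fin.cons_zero, Fin.cons_succ]
                rw [mul_comm]
              · intro i j hij
                simp only [Fin.consEquiv_apply]
                rcases Fin.eq_zero_or_eq_succ i with rfl | ⟨i', rfl⟩ <;>
                  rcases Fin.eq_zero_or_eq_succ j with rfl | ⟨j', rfl⟩
                · exact absurd rfl hij
                · simp only [Fin.cons_zero, Fin.cons_succ]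
                  exact fun h' => h j' (hsymm _ _ h')
                · simp only [Fin.cons_zero, Fin.cons_succ]
                  exact h i'
                · simp only [Fin.cons_succ]
                  exact hg i' j' (by rintro rfl; exact hij rfl)
            · rw [if_neg h, mul_zero]
              split_ifs
              · exact prod_nonneg (fun i _ => ht0 _)
              · exact le_refl _
    · rw [if_neg hg]
      apply sum_nonneg
      intro a _
      split_ifs
      · exact prod_nonneg (fun i _ => ht0 _)
      · exact le_refl _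

lemma pot_biUnion {n : ℕ} (M B : Finset Pt) (A : Fin n → Finset Pt) :
    ∏ i, pot (1/3) M B (A i) ≤ pot (1/2) M B (univ.biUnion A) := by
  by_cases h : ∀ i, Disjoint (A i) B
  · have hd : Disjoint (univ.biUnion A) B := by
      rw [disjoint_biUnion_left]; intro i _; exact h i
    have h1 : ∏ i, pot (1/3) M B (A i) = (1/3:ℝ) ^ (∑ i, (A i \ M).card) := by
      rw [← prod_pow_eq_pow_sum]
      apply prod_congr rfl
      intro i _
      simp [pot, h i]
    rw [h1, pot, if_pos hd]
    have h2 : (univ.biUnion A \ M).card ≤ ∑ i, (A i \ M).card := by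
      have : univ.biUnion A \ M ⊆ univ.biUnion (fun i => A i \ M) := by
        intro p; simp only [mem_sdiff, mem_biUnion, mem_univ, true_and]
        rintro ⟨⟨i, hi⟩, h⟩; exact ⟨i, hi, h⟩
      exact le_trans (card_le_card this) card_biUnion_le
    calc (1/3:ℝ) ^ (∑ i, (A i \ M).card) ≤ (1/3:ℝ) ^ (univ.biUnion A \ M).card :=
          pow_le_pow_of_le_one (by norm_num) (by norm_num) h2
      _ ≤ (1/2:ℝ) ^ (univ.biUnion A \ M).card :=
          pow_le_pow_left₀ (by norm_num) (by norm_num) _
  · push Not at h
    obtain ⟨i, hi⟩ := h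
    have : ∏ i, pot (1/3) M B (A i) = 0 := by
      apply prod_eq_zero (mem_univ i)
      simp [pot, hi]
    rw [this]
    exact pot_nonneg (by norm_num) _ _ _

lemma lat_inter_card (q : ℕ) (s t : Rect) :
    (lat q s ∩ lat q t).card = (ap q s.1 ∩ ap q t.1).card * (ap q s.2 ∩ ap q t.2).card := by
  unfold lat
  rw [← card_product]
  congr 1
  ext ⟨u, v⟩
  simp only [mem_inter, mem_product]; tauto

lemma ap_card_le (q : ℕ) (v : ℕ × ℕ) : (ap q v).card ≤ q := by
  unfold ap; exact le_trans card_image_le (by simp)

/-- the lattices through `u` and `w` -/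
def thru (N q : ℕ) (u w : Pt) : Finset Rect :=
  (Q N q).filter (fun t => u ∈ lat q t ∧ w ∈ lat q t)

lemma thru_general (N q : ℕ) (u w : Pt) (h1 : u.1 ≠ w.1) (h2 : u.2 ≠ w.2) :
    (thru N q u w).card ≤ q ^ 4 := by
  have hsub : thru N q u w ⊆ ((P N q).filter (fun v => u.1 ∈ ap q v ∧ w.1 ∈ ap q v)) ×ˢ
      ((P N q).filter (fun v => u.2 ∈ ap q v ∧ w.2 ∈ ap q v)) := by
    intro t ht
    simp only [thru, Q, lat, mem_filter, mem_product] at ht ⊢
    tauto
  calc (thru N q u w).card ≤ _ := card_le_card hsub
    _ ≤ q^2 * q^2 := by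
      rw [card_product]
      exact Nat.mul_le_mul (card_P_mem2 N q _ _ h1) (card_P_mem2 N q _ _ h2)
    _ = q ^ 4 := by ring

lemma thru_row (N q : ℕ) (u w : Pt) (h : u ≠ w) :
    (thru N q u w).card ≤ q ^ 3 * N + q ^ 4 := by
  by_cases h1 : u.1 = w.1
  · have h2 : u.2 ≠ w.2 := fun h2 => h (Prod.ext h1 h2)
    have hsub : thru N q u w ⊆ ((P N q).filter (fun v => u.1 ∈ ap q v)) ×ˢ
        ((P N q).filter (fun v => u.2 ∈ ap q v ∧ w.2 ∈ ap q v)) := by
      intro t ht
      simp only [thru, Q, lat, mem_filter, mem_product] at ht ⊢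
      tauto
    calc (thru N q u w).card ≤ _ := card_le_card hsub
      _ ≤ (q * N) * q^2 := by
        rw [card_product]
        exact Nat.mul_le_mul (card_P_mem N q _) (card_P_mem2 N q _ _ h2)
      _ ≤ q ^ 3 * N + q ^ 4 := by nlinarith [Nat.zero_le (q^4)]
  · by_cases h2 : u.2 = w.2
    · have hsub : thru N q u w ⊆ ((P N q).filter (fun v => u.1 ∈ ap q v ∧ w.1 ∈ ap q v)) ×ˢ
          ((P N q).filter (fun v => u.2 ∈ ap q v)) := by
        intro t ht
        simp only [thru, Q, lat, mem_filter, mem_product] at ht ⊢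
        tauto
      calc (thru N q u w).card ≤ _ := card_le_card hsub
        _ ≤ q^2 * (q * N) := by
          rw [card_product]
          exact Nat.mul_le_mul (card_P_mem2 N q _ _ h1) (card_P_mem N q _)
        _ ≤ q ^ 3 * N + q ^ 4 := by nlinarith [Nat.zero_le (q^4)]
    · calc _ ≤ q^4 := thru_general N q u w h1 h2
        _ ≤ _ := Nat.le_add_left _ _

/-- number of lattices through two points on a line having a big intersection with a given one -/
lemma conflict_row (N q : ℕ) (u w : Pt) (h : u ≠ w) (hrow : u.1 = w.1 ∨ u.2 = w.2) (s : Rect) :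
    ((thru N q u w).filter (fun t => q < (lat q s ∩ lat q t).card)).card ≤ q ^ 5 := by
  have hex : ∀ (t : Rect), q < (lat q s ∩ lat q t).card → ∀ a b : ℕ,
      (∃ a' ∈ ap q s.1, a' ≠ a ∧ a' ∈ ap q t.1) ∧ (∃ b' ∈ ap q s.2, b' ≠ b ∧ b' ∈ ap q t.2) := by
    intro t ht a b
    rw [lat_inter_card] at ht
    have h1 := card_le_card (inter_subset_left : ap q s.1 ∩ ap q t.1 ⊆ ap q s.1)
    have h2 := card_le_card (inter_subset_left : ap q s.2 ∩ ap q t.2 ⊆ ap q s.2)
    have h3 := ap_card_le q s.1
    have h4 := ap_card_le q s.2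
    have h5 : 1 < (ap q s.1 ∩ ap q t.1).card := by
      by_contra hcon
      push Not at hcon
      have : (ap q s.1 ∩ ap q t.1).card * (ap q s.2 ∩ ap q t.2).card ≤ 1 * q :=
        Nat.mul_le_mul hcon (le_trans h2 h4)
      omega
    have h6 : 1 < (ap q s.2 ∩ ap q t.2).card := by
      by_contra hcon
      push Not at hcon
      have : (ap q s.1 ∩ ap q t.1).card * (ap q s.2 ∩ ap q t.2).card ≤ q * 1 :=
        Nat.mul_le_mul (le_trans h1 h3) hcon
      omega
    obtain ⟨a', ha', hne⟩ := exists_mem_ne h5 a
    obtain ⟨b', hb', hne'⟩ := exists_mem_ne h6 b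
    rw [mem_inter] at ha' hb'
    exact ⟨⟨a', ha'.1, hne, ha'.2⟩, ⟨b', hb'.1, hne', hb'.2⟩⟩
  rcases hrow with h1 | h1
  · have h2 : u.2 ≠ w.2 := fun h2 => h (Prod.ext h1 h2)
    have hsub : (thru N q u w).filter (fun t => q < (lat q s ∩ lat q t).card) ⊆
        (((ap q s.1).erase u.1).biUnion
          (fun a' => (P N q).filter (fun v => u.1 ∈ ap q v ∧ a' ∈ ap q v))) ×ˢ
        ((P N q).filter (fun v => u.2 ∈ ap q v ∧ w.2 ∈ ap q v)) := by
      intro t ht
      rw [mem_filter] at ht
      obtain ⟨⟨a', h3, h4, h5⟩, _⟩ := hex t ht.2 u.1 u.2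
      have h6 := ht.1
      simp only [thru, Q, lat, mem_filter, mem_product] at h6
      simp only [mem_product, mem_biUnion, mem_filter, mem_erase]
      exact ⟨⟨a', ⟨h4, h3⟩, h6.1.1, h6.2.1.1, h5⟩, h6.1.2, h6.2.1.2, h6.2.2.2⟩
    calc _ ≤ _ := card_le_card hsub
      _ ≤ (q * q^2) * q^2 := by
        rw [card_product]
        refine Nat.mul_le_mul ?_ (card_P_mem2 N q _ _ h2)
        refine le_trans (card_biUnion_le_card_mul _ _ (q^2) ?_) ?_
        · intro a' ha'
          rw [mem_erase] at ha'
          exact card_P_mem2 N q _ _ (Ne.symm ha'.1)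
        · exact Nat.mul_le_mul_right _ (le_trans (card_le_card (erase_subset _ _)) (ap_card_le q _))
      _ = q ^ 5 := by ring
  · have h2 : u.1 ≠ w.1 := fun h2 => h (Prod.ext h2 h1)
    have hsub : (thru N q u w).filter (fun t => q < (lat q s ∩ lat q t).card) ⊆
        ((P N q).filter (fun v => u.1 ∈ ap q v ∧ w.1 ∈ ap q v)) ×ˢ
        (((ap q s.2).erase u.2).biUnion
          (fun a' => (P N q).filter (fun v => u.2 ∈ ap q v ∧ a' ∈ ap q v))) := by
      intro t ht
      rw [mem_filter] at ht
      obtain ⟨_, ⟨a', h3, h4, h5⟩⟩ := hex t ht.2 u.1 u.2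
      have h6 := ht.1
      simp only [thru, Q, lat, mem_filter, mem_product] at h6
      simp only [mem_product, mem_biUnion, mem_filter, mem_erase]
      exact ⟨⟨h6.1.1, h6.2.1.1, h6.2.2.1⟩, ⟨a', ⟨h4, h3⟩, h6.1.2, h6.2.1.2, h5⟩⟩
    calc _ ≤ _ := card_le_card hsub
      _ ≤ q^2 * (q * q^2) := by
        rw [card_product]
        refine Nat.mul_le_mul (card_P_mem2 N q _ _ h2) ?_
        refine le_trans (card_biUnion_le_card_mul _ _ (q^2) ?_) ?_
        · intro a' ha'
          rw [mem_erase] at ha'
          exact card_P_mem2 N q _ _ (Ne.symm ha'.1)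
        · exact Nat.mul_le_mul_right _ (le_trans (card_le_card (erase_subset _ _)) (ap_card_le q _))
      _ = q ^ 5 := by ring

/-- auxiliary family: `p` lattices through two common points on a line, with small pairwise
intersections -/
def J (N q p : ℕ) : Finset (Fin p → Rect) :=
  open Classical in
  (Fintype.piFinset (fun _ : Fin p => Q N q)).filter (fun f =>
    (∃ u w : Pt, u ≠ w ∧ (u.1 = w.1 ∨ u.2 = w.2) ∧ u ∈ board N ∧ w ∈ board N ∧
      ∀ i, u ∈ lat q (f i) ∧ w ∈ lat q (f i)) ∧
    ∀ i j, i ≠ j → ¬ (q < (lat q (f i) ∩ lat q (f j)).card))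

/-- union of the sets in a tuple -/
def Hs (q p : ℕ) (f : Fin p → Rect) : Finset Pt := univ.biUnion (fun i => lat q (f i))

lemma pair_bound (N q p : ℕ) (M B : Finset Pt) (hH : PT (1/2) (J N q p) (Hs q p) M B < 1)
    (u w : Pt) (huw : u ≠ w) (hu : u ∈ board N) (hw : w ∈ board N) (hp : 1 ≤ p) (hq : 1 ≤ q) :
    PT2 (1/3) (Q N q) (lat q) M B u w ≤ p * (q:ℝ) ^ 5 + 1 := by
  classical
  have hPT2 : PT2 (1/3) (Q N q) (lat q) M B u w =
      ∑ t ∈ thru N q u w, pot (1/3) M B (lat q t) := by
    unfold PT2 thru
    rw [sum_filter]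
    apply sum_congr rfl
    intro t _
    unfold ind
    split_ifs <;> simp
  by_cases hrow : u.1 = w.1 ∨ u.2 = w.2
  · by_contra hcon
    push Not at hcon
    rw [hPT2] at hcon
    set S := thru N q u w with hS
    rw [← sum_coe_sort] at hcon
    have hg := greedy (α := S) (fun a => pot (1/3) M B (lat q a))
      (fun a => pot_nonneg (by norm_num) _ _ _) (fun a => pot_le_one (by norm_num) (by norm_num) _ _ _)
      (fun a b => q < (lat q a ∩ lat q b).card)
      (fun a b hab => by rw [inter_comm]; exact hab) (q ^ 5) ?_ p ?_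
    · -- compare with `PT`
      have h1 : ∑ f : Fin p → S, (if (∀ i j, i ≠ j → ¬ (q < (lat q (f i) ∩ lat q (f j)).card))
          then ∏ i, pot (1/3) M B (lat q (f i)) else 0) ≤ PT (1/2) (J N q p) (Hs q p) M B := by
        rw [← sum_filter]
        have hinj : Set.InjOn (fun (f : Fin p → S) => (fun i => (f i : Rect)))
            (univ.filter (fun (f : Fin p → S) =>
              ∀ i j, i ≠ j → ¬ (q < (lat q (f i) ∩ lat q (f j)).card)) : Set (Fin p → S)) := by
          intro f _ g _ hfg
          funext i
          exact Subtype.ext (congrFun hfg i)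
        calc _ ≤ ∑ f ∈ univ.filter (fun (f : Fin p → S) =>
              ∀ i j, i ≠ j → ¬ (q < (lat q (f i) ∩ lat q (f j)).card)),
                pot (1/2) M B (Hs q p (fun i => (f i : Rect))) := by
              apply sum_le_sum
              intro f _
              exact pot_biUnion M B (fun i => lat q (f i))
          _ = ∑ g ∈ (univ.filter (fun (f : Fin p → S) =>
              ∀ i j, i ≠ j → ¬ (q < (lat q (f i) ∩ lat q (f j)).card))).image
                (fun (f : Fin p → S) => (fun i => (f i : Rect))), pot (1/2) M B (Hs q p g) := by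
              rw [sum_image hinj]
          _ ≤ _ := by
              unfold PT
              apply sum_le_sum_of_subset_of_nonneg
              · intro g hg
                simp only [mem_image, mem_filter, mem_univ, true_and] at hg
                obtain ⟨f, hf, rfl⟩ := hg
                simp only [J, mem_filter, Fintype.mem_piFinset]
                refine ⟨fun i => (mem_filter.mp (f i).2).1, ⟨u, w, huw, hrow, hu, hw, ?_⟩, hf⟩
                intro i
                exact (mem_filter.mp (f i).2).2
              · intro g _ _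
                exact pot_nonneg (by norm_num) _ _ _
      have h9 : (1:ℝ) ≤ PT (1/2) (J N q p) (Hs q p) M B := by
        refine le_trans hg (le_trans (le_of_eq ?_) h1)
        apply sum_congr rfl
        intro f _
        congr
      linarith
    · -- conflicts
      intro a
      have h2 := conflict_row N q u w huw hrow a
      refine le_trans ?_ h2
      rw [← card_map (Function.Embedding.subtype (fun x => x ∈ S))]
      apply card_le_card
      intro t ht
      simp only [mem_map, mem_filter, mem_univ, true_and] at ht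
      obtain ⟨b, hb, rfl⟩ := ht
      rw [mem_filter]
      exact ⟨b.2, hb⟩
    · push_cast
      linarith
  · push Not at hrow
    rw [hPT2]
    calc ∑ t ∈ thru N q u w, pot (1/3) M B (lat q t) ≤ ∑ t ∈ thru N q u w, (1:ℝ) :=
          sum_le_sum (fun i _ => pot_le_one (by norm_num) (by norm_num) _ _ _)
      _ = (thru N q u w).card := by simp
      _ ≤ (q:ℝ)^4 := by exact_mod_cast thru_general N q u w hrow.1 hrow.2
      _ ≤ p * (q:ℝ) ^ 5 + 1 := by
        have h1 : (1:ℝ) ≤ q := by exact_mod_cast hq
        have h2 : (1:ℝ) ≤ p := by exact_mod_cast hp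
        have h3 : (q:ℝ)^4 ≤ (q:ℝ)^5 := pow_le_pow_right₀ h1 (by norm_num)
        have h4 : 0 ≤ (q:ℝ)^5 := by positivity
        nlinarith

end

end Pool.Agent.H63
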