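import Pool.Agent.H63.Defs

/-!
# Maker's potential argument
-/

namespace Pool.Agent.H63

open Finset

noncomputable section

/-- potential of a set `A` with base `1/r`, if Maker has `M` and Breaker has `B`. -/
def pot (r : ℝ) (M B A : Finset Pt) : ℝ := if Disjoint A B then r ^ (A \ M).card else 0

lemma pot_nonneg {r : ℝ} (hr : 0 ≤ r) (M B A : Finset Pt) : 0 ≤ pot r M B A := by
  unfold pot; split_ifs <;> positivity

lemma pot_le_one {r : ℝ} (hr : 0 ≤ r) (hr1 : r ≤ 1) (M B A : Finset Pt) : pot r M B A ≤ 1 := by
  unfold pot; split_ifs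
  · exact pow_le_one₀ hr hr1
  · exact zero_le_one

/-- indicator -/
def ind (p : Prop) [Decidable p] : ℝ := if p then 1 else 0

lemma pot_insert {r : ℝ} (hr : 0 < r) (M B A : Finset Pt) (x : Pt) (hx : x ∉ M) :
    pot r (insert x M) B A = pot r M B A * (1 + (r⁻¹ - 1) * ind (x ∈ A)) := by
  unfold pot ind
  by_cases hd : Disjoint A B
  · simp only [hd, if_true]
    by_cases hxA : x ∈ A
    · have h1 : A \ M = insert x (A \ insert x M) := by
        ext y; simp only [mem_sdiff, mem_insert]
        constructor
        · rintro ⟨h1, h2⟩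
          by_cases hy : y = x
          · exact Or.inl hy
          · right; exact ⟨h1, by tauto⟩
        · rintro (rfl | ⟨h1, h2⟩)
          · exact ⟨hxA, hx⟩
          · exact ⟨h1, by tauto⟩
      have h2 : (A \ M).card = (A \ insert x M).card + 1 := by
        rw [h1, card_insert_of_notMem]; simp
      rw [h2]; simp only [hxA, if_true]
      rw [pow_succ]; field_simp; ring
    · have h1 : A \ insert x M = A \ M := by
        ext y; simp only [mem_sdiff, mem_insert]
        constructor
        · rintro ⟨h1, h2⟩; exact ⟨h1, by tauto⟩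
        · rintro ⟨h1, h2⟩; refine ⟨h1, ?_⟩; rintro (rfl | h3)
          · exact hxA h1
          · exact h2 h3
      rw [h1]; simp [hxA]
  · simp [hd]

lemma pot_union {r : ℝ} (M B R A : Finset Pt) :
    pot r M (B ∪ R) A = if Disjoint A R then pot r M B A else 0 := by
  unfold pot
  by_cases h1 : Disjoint A B <;> by_cases h2 : Disjoint A R <;>
    simp [disjoint_union_right, h1, h2]

lemma pot_third (M B A : Finset Pt) (x y z : Pt) (hx : x ∉ M) :
    pot (1/3) M B A * (1 + 2 * ind (x ∈ A) - ind (y ∈ A) - ind (z ∈ A)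
      - 2 * ind (x ∈ A ∧ y ∈ A) - 2 * ind (x ∈ A ∧ z ∈ A))
      ≤ pot (1/3) (insert x M) (B ∪ {y, z}) A := by
  have hp := pot_nonneg (by norm_num : (0:ℝ) ≤ 1/3) M B A
  rw [pot_union, pot_insert (by norm_num) M B A x hx]
  unfold ind
  by_cases h1 : x ∈ A <;> by_cases h2 : y ∈ A <;> by_cases h3 : z ∈ A <;>
    simp [h1, h2, h3] <;> nlinarith

lemma pot_half (M B A : Finset Pt) (x y z : Pt) (hx : x ∉ M) :
    pot (1/2) (insert x M) (B ∪ {y, z}) A ≤
      pot (1/2) M B A * (1 + ind (x ∈ A) - (1/2) * ind (y ∈ A) - (1/2) * ind (z ∈ A)) := by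
  have hp := pot_nonneg (by norm_num : (0:ℝ) ≤ 1/2) M B A
  rw [pot_union, pot_insert (by norm_num) M B A x hx]
  unfold ind
  by_cases h1 : x ∈ A <;> by_cases h2 : y ∈ A <;> by_cases h3 : z ∈ A <;>
    simp [h1, h2, h3] <;> nlinarith

variable {ι κ : Type*}

/-- total potential of a family -/
def PT (r : ℝ) (I : Finset ι) (S : ι → Finset Pt) (M B : Finset Pt) : ℝ :=
  ∑ i ∈ I, pot r M B (S i)

/-- potential of the sets containing `x` -/
def PT1 (r : ℝ) (I : Finset ι) (S : ι → Finset Pt) (M B : Finset Pt) (x : Pt) : ℝ :=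
  ∑ i ∈ I, pot r M B (S i) * ind (x ∈ S i)

/-- potential of the sets containing `x` and `y` -/
def PT2 (r : ℝ) (I : Finset ι) (S : ι → Finset Pt) (M B : Finset Pt) (x y : Pt) : ℝ :=
  ∑ i ∈ I, pot r M B (S i) * ind (x ∈ S i ∧ y ∈ S i)

lemma PT_third (I : Finset ι) (S : ι → Finset Pt) (M B : Finset Pt) (x y z : Pt) (hx : x ∉ M) :
    PT (1/3) I S M B + 2 * PT1 (1/3) I S M B x - PT1 (1/3) I S M B y - PT1 (1/3) I S M B z
      - 2 * PT2 (1/3) I S M B x y - 2 * PT2 (1/3) I S M B x z
      ≤ PT (1/3) I S (insert x M) (B ∪ {y, z}) := by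
  unfold PT PT1 PT2
  rw [mul_sum, mul_sum, mul_sum, ← sum_add_distrib, ← sum_sub_distrib, ← sum_sub_distrib,
    ← sum_sub_distrib, ← sum_sub_distrib]
  apply sum_le_sum
  intro i _
  refine le_trans (le_of_eq ?_) (pot_third M B (S i) x y z hx)
  ring

lemma PT_half (I : Finset ι) (S : ι → Finset Pt) (M B : Finset Pt) (x y z : Pt) (hx : x ∉ M) :
    PT (1/2) I S (insert x M) (B ∪ {y, z}) ≤
    PT (1/2) I S M B + PT1 (1/2) I S M B x - (1/2) * PT1 (1/2) I S M B y
      - (1/2) * PT1 (1/2) I S M B z := by
  unfold PT PT1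
  rw [mul_sum, mul_sum, ← sum_add_distrib, ← sum_sub_distrib, ← sum_sub_distrib]
  apply sum_le_sum
  intro i _
  refine le_trans (pot_half M B (S i) x y z hx) (le_of_eq ?_)
  ring


/-- **Maker's criterion.** `I, S` is a family of winning sets, `J, H` an auxiliary family
with base `2` whose potential controls the pair potentials. -/
theorem maker_abstract (N q : ℕ) (I : Finset ι) (S : ι → Finset Pt) (J : Finset κ)
    (H : κ → Finset Pt) (lam K : ℝ) (hK : 0 ≤ K)
    (hS : ∀ i ∈ I, IsWinningSet N q (S i))
    (hlam : (I.card : ℝ) ≤ lam)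
    (hpair : ∀ M B : Finset Pt, PT (1/2) J H M B < 1 → ∀ x y, x ≠ y →
      PT2 (1/3) I S M B x y ≤ K) :
    ∀ n : ℕ, ∀ M B : Finset Pt, Disjoint M B → M ⊆ board N → B ⊆ board N →
      (board N \ (M ∪ B)).card = n →
      2 * K * n + K < PT (1/3) I S M B - lam * PT (1/2) J H M B → MakerWins N q M B := by
  intro n
  induction n using Nat.strong_induction_on with
  | _ n ih =>
  intro M B hMB hM hB hn hL
  -- the auxiliary potential is less than one
  have hPTle : PT (1/3) I S M B ≤ I.card := by
    unfold PT
    calc ∑ i ∈ I, pot (1/3) M B (S i) ≤ ∑ i ∈ I, (1:ℝ) :=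
          sum_le_sum (fun i _ => pot_le_one (by norm_num) (by norm_num) _ _ _)
      _ = I.card := by simp
  have hHnn : 0 ≤ PT (1/2) J H M B :=
    sum_nonneg (fun i _ => pot_nonneg (by norm_num) _ _ _)
  have hn0 : (0:ℝ) ≤ n := Nat.cast_nonneg n
  have hH1 : PT (1/2) J H M B < 1 := by
    by_contra hcon
    push Not at hcon
    have h0 : 0 ≤ lam := le_trans (Nat.cast_nonneg _) hlam
    have : lam ≤ lam * PT (1/2) J H M B := by nlinarith
    have h2 : 0 ≤ 2 * K * n + K := by positivity
    linarith
  have hp := hpair M B hH1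
  have h0 : 0 ≤ lam := le_trans (Nat.cast_nonneg _) hlam
  have hTpos : K < PT (1/3) I S M B := by
    have : 0 ≤ 2 * K * n := by positivity
    have h3 : 0 ≤ lam * PT (1/2) J H M B := mul_nonneg h0 hHnn
    linarith
  -- alive sets are contained in `M ∪ unclaimed`
  have halive : ∀ i ∈ I, Disjoint (S i) B → S i ⊆ M ∪ (board N \ (M ∪ B)) := by
    intro i hi hd p hp
    obtain ⟨a, b, x, y, _, _, _, hsub⟩ := hS i hi
    have h1 := hsub hp
    have h2 : p ∉ B := fun h => (Finset.disjoint_left.mp hd hp h)
    simp only [mem_union, mem_sdiff]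
    by_cases h3 : p ∈ M
    · exact Or.inl h3
    · right; exact ⟨h1, by tauto⟩
  rcases Nat.lt_or_ge n 3 with hn3 | hn3
  · -- end phase
    -- there is an alive set not containing both of two unclaimed points
    have hex : ∀ x y : Pt, x ≠ y → ∃ i ∈ I, Disjoint (S i) B ∧ ¬ (x ∈ S i ∧ y ∈ S i) := by
      intro x y hxy
      by_contra hcon
      push Not at hcon
      have : PT (1/3) I S M B ≤ PT2 (1/3) I S M B x y := by
        unfold PT PT2
        apply sum_le_sum
        intro i hi
        by_cases hd : Disjoint (S i) B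
        · have h4 := hcon i hi hd
          simp [ind, h4]
        · simp [pot, hd]
      linarith [hp x y hxy]
    interval_cases n
    · -- no unclaimed point
      rw [card_eq_zero] at hn
      obtain ⟨i, hi, hd, _⟩ := hex (0,0) (0,1) (by simp)
      have h5 := halive i hi hd
      rw [hn, union_empty] at h5
      exact MakerWins.claimed (S i) (hS i hi) h5
    · -- one unclaimed point
      rw [card_eq_one] at hn
      obtain ⟨x, hx⟩ := hn
      obtain ⟨y, hxy⟩ : ∃ y : Pt, x ≠ y := exists_ne x |>.imp (fun _ h => h.symm)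
      obtain ⟨i, hi, hd, _⟩ := hex x y hxy
      have h5 := halive i hi hd
      rw [hx] at h5
      refine MakerWins.move x (by rw [hx]; simp) ?_
      intro R _ _
      refine MakerWins.claimed (S i) (hS i hi) ?_
      intro p hp
      have := h5 hp
      simp only [mem_union, mem_singleton] at this
      rw [mem_insert]; tauto
    · -- two unclaimed points
      rw [card_eq_two] at hn
      obtain ⟨x, y, hxy, hU⟩ := hn
      obtain ⟨i, hi, hd, hnb⟩ := hex x y hxy
      have h5 := halive i hi hd
      rw [hU] at h5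
      by_cases hxi : x ∈ S i
      · have hyi : y ∉ S i := fun h => hnb ⟨hxi, h⟩
        refine MakerWins.move x (by rw [hU]; simp) ?_
        intro R _ _
        refine MakerWins.claimed (S i) (hS i hi) ?_
        intro p hp
        have h6 := h5 hp
        simp only [mem_union, mem_insert, mem_singleton] at h6
        rw [mem_insert]
        rcases h6 with h6 | h6 | h6
        · exact Or.inr h6
        · exact Or.inl h6
        · exact absurd (h6 ▸ hp) hyi
      · refine MakerWins.move y (by rw [hU]; simp) ?_
        intro R _ _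
        refine MakerWins.claimed (S i) (hS i hi) ?_
        intro p hp
        have h6 := h5 hp
        simp only [mem_union, mem_insert, mem_singleton] at h6
        rw [mem_insert]
        rcases h6 with h6 | h6 | h6
        · exact Or.inr h6
        · exact absurd (h6 ▸ hp) hxi
        · exact Or.inl h6
  · -- main phase
    have hne : (board N \ (M ∪ B)).Nonempty := by
      rw [← card_pos]; omega
    obtain ⟨x, hx, hxmax⟩ := exists_max_image (board N \ (M ∪ B))
      (fun w => 2 * PT1 (1/3) I S M B w - lam * PT1 (1/2) J H M B w) hne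
    have hxM : x ∉ M := by
      simp only [mem_sdiff, mem_union] at hx; tauto
    have hxB : x ∉ B := by
      simp only [mem_sdiff, mem_union] at hx; tauto
    have hxV : x ∈ board N := by
      simp only [mem_sdiff, mem_union] at hx; tauto
    refine MakerWins.move x hx ?_
    intro R hR hRc
    have hcard : (board N \ (insert x M ∪ B)).card = n - 1 := by
      have : board N \ (insert x M ∪ B) = (board N \ (M ∪ B)).erase x := by
        ext p; simp only [mem_sdiff, mem_union, mem_insert, mem_erase]; tauto
      rw [this, card_erase_of_mem hx, hn]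
    rw [hcard] at hRc
    have hR2 : R.card = 2 := by omega
    obtain ⟨y, z, hyz, rfl⟩ := card_eq_two.mp hR2
    have hy : y ∈ board N \ (insert x M ∪ B) := hR (by simp)
    have hz : z ∈ board N \ (insert x M ∪ B) := hR (by simp)
    have hyx : x ≠ y := by
      rintro rfl; simp at hy
    have hzx : x ≠ z := by
      rintro rfl; simp at hz
    have hy' : y ∈ board N \ (M ∪ B) := by
      simp only [mem_sdiff, mem_union, mem_insert] at hy ⊢; tauto
    have hz' : z ∈ board N \ (M ∪ B) := by
      simp only [mem_sdiff, mem_union, mem_insert] at hz ⊢; tauto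
    have h1 := PT_third I S M B x y z hxM
    have h2 := PT_half J H M B x y z hxM
    have h3 := hp x y hyx
    have h4 := hp x z hzx
    have h5 := hxmax y hy'
    have h6 := hxmax z hz'
    have h7 : PT (1/3) I S M B - lam * PT (1/2) J H M B - 4 * K ≤
        PT (1/3) I S (insert x M) (B ∪ {y, z}) - lam * PT (1/2) J H (insert x M) (B ∪ {y, z}) := by
      have h8 : lam * PT (1/2) J H (insert x M) (B ∪ {y, z}) ≤
        lam * (PT (1/2) J H M B + PT1 (1/2) J H M B x - (1/2) * PT1 (1/2) J H M B y
      - (1/2) * PT1 (1/2) J H M B z) := mul_le_mul_of_nonneg_left h2 h0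

      nlinarith
    have hcard2 : (board N \ (insert x M ∪ (B ∪ {y, z}))).card = n - 3 := by
      have : board N \ (insert x M ∪ (B ∪ {y, z})) =
          (board N \ (insert x M ∪ B)) \ {y, z} := by
        ext p; simp only [mem_sdiff, mem_union, mem_insert, mem_singleton]; tauto
      rw [this, card_sdiff_of_subset hR, hcard, hR2]; omega
    refine ih (n-3) (by omega) (insert x M) (B ∪ {y, z}) ?_ ?_ ?_ hcard2 ?_
    · rw [disjoint_left]
      intro p hp1 hp2
      simp only [mem_insert, mem_union, mem_singleton] at hp1 hp2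
      simp only [mem_sdiff, mem_union, mem_insert] at hy hz
      rcases hp1 with rfl | hp1
      · rcases hp2 with h | h | h
        · exact hxB h
        · exact hyx h
        · exact hzx h
      · rcases hp2 with h | rfl | rfl
        · exact disjoint_left.mp hMB hp1 h
        · tauto
        · tauto
    · exact insert_subset hxV hM
    · refine union_subset hB ?_
      intro p hp
      have := hR hp
      rw [mem_sdiff] at this
      exact this.1
    · have hc : ((n - 3 : ℕ) : ℝ) = n - 3 := by
        rw [Nat.cast_sub hn3]; norm_num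
      rw [hc]
      nlinarith

end

end Pool.Agent.H63
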