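import Pool.Agent.H63.Cascade

/-!
# The cascade step
-/

namespace Pool.Agent.H63

open Finset Module

noncomputable section

section step

variable {N q k nlo nhi : ℕ} {S : Finset Cl} {M B Mb : Finset Pt} {t0 : Rect}

lemma lat_nonempty {q : ℕ} (hq : 1 ≤ q) (t : Rect) : (lat q t).Nonempty := by
  refine ⟨(t.1.1 + 0 * t.1.2, t.2.1 + 0 * t.2.2), ?_⟩
  simp only [lat, mem_product, mem_ap]
  exact ⟨⟨0, hq, rfl⟩, ⟨0, hq, rfl⟩⟩

/-- merging of sums -/
lemma sum_merge (hq : 1 ≤ q) (g : Rect → ℝ) (c : ℝ) (R : Finset Cl) (H : Finset Pt)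
    (hdis : ∀ C ∈ R, ∀ C' ∈ R, C ≠ C' → Disjoint (hC q C) (hC q C'))
    (hsub : ∀ C ∈ R, hC q C ⊆ H)
    (h1 : ∀ C ∈ R, ∑ t ∈ IH N q (hC q C), g t ≤ c * (IH N q (hC q C)).card)
    (h2 : ∀ t ∈ IH N q H, (∀ C ∈ R, ¬ (lat q t ⊆ hC q C)) → g t ≤ c) :
    ∑ t ∈ IH N q H, g t ≤ c * (IH N q H).card := by
  classical
  set A : Finset Rect := R.biUnion (fun C => IH N q (hC q C)) with hA
  have hAsub : A ⊆ IH N q H := by
    intro t ht
    rw [hA, mem_biUnion] at ht
    obtain ⟨C, hCR, ht⟩ := ht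
    rw [IH, mem_filter] at ht ⊢
    exact ⟨ht.1, ht.2.trans (hsub C hCR)⟩
  have hpd : (R : Set Cl).PairwiseDisjoint (fun C => IH N q (hC q C)) := by
    intro C hCR C' hCR' hne
    rw [Function.onFun, disjoint_left]
    intro t ht ht'
    rw [IH, mem_filter] at ht ht'
    obtain ⟨p, hp⟩ := lat_nonempty hq t
    exact disjoint_left.mp (hdis C hCR C' hCR' hne) (ht.2 hp) (ht'.2 hp)
  have hsum1 : ∑ t ∈ A, g t ≤ c * A.card := by
    rw [hA, sum_biUnion hpd, card_biUnion hpd]
    push_cast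
    rw [mul_sum]
    exact sum_le_sum h1
  have hsum2 : ∑ t ∈ IH N q H \ A, g t ≤ c * (IH N q H \ A).card := by
    calc ∑ t ∈ IH N q H \ A, g t ≤ ∑ t ∈ IH N q H \ A, c := by
          apply sum_le_sum
          intro t ht
          rw [mem_sdiff] at ht
          apply h2 t ht.1
          intro C hCR hcon
          apply ht.2
          rw [hA, mem_biUnion]
          refine ⟨C, hCR, ?_⟩
          rw [IH, mem_filter]
          rw [IH, mem_filter] at ht
          exact ⟨ht.1.1, hcon⟩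
      _ = c * (IH N q H \ A).card := by rw [sum_const, nsmul_eq_mul]; ring
  have hcard : ((IH N q H \ A).card : ℝ) + (A.card : ℝ) = (IH N q H).card := by
    rw [← Nat.cast_add, card_sdiff_add_card_eq_card hAsub]
  rw [← sum_sdiff hAsub, ← hcard]
  linarith

/-- potentials of dead lattices and of lattices with many unclaimed points -/
lemma bp_small {k : ℕ} {A : Finset Pt} (hMB : Disjoint M B)
    (h : Disjoint A B → k ≤ (A ∩ blank N M B).card) : bp M (blank N M B) A ≤ (1/3) ^ k := by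
  unfold bp
  split_ifs with h1
  · have hal : Disjoint A B := by
      rw [disjoint_left]
      intro p hp hpB
      have := h1 hp
      simp only [blank, mem_union, mem_sdiff, not_or] at this
      rcases this with h | h
      · exact disjoint_left.mp hMB h hpB
      · exact h.2.2 hpB
    have h2 := h hal
    have h3 : A ∩ blank N M B ⊆ A \ M := by
      intro p hp
      simp only [blank, mem_inter, mem_union, mem_sdiff, not_or] at hp ⊢
      exact ⟨hp.1, hp.2.2.1⟩
    apply pow_le_pow_of_le_one (by norm_num) (by norm_num)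
    exact h2.trans (card_le_card h3)
  · positivity

lemma good_iff_sum (H : Finset Pt) : Good N q k M B H ↔
    ∑ t ∈ IH N q H, bp M (blank N M B) (lat q t) ≤ 3 * (1/3) ^ k * (IH N q H).card ∧
    ∀ y ∈ blank N M B, ∑ t ∈ IH N q H, (bp M (blank N M B) (lat q t) * (1 + 2 * ind (y ∈ lat q t)))
      ≤ 3 * (1/3) ^ k * (IH N q H).card := by
  unfold Good BT BT1
  have h : ∀ y, ∑ t ∈ IH N q H, (bp M (blank N M B) (lat q t) * (1 + 2 * ind (y ∈ lat q t))) =
    ∑ i ∈ IH N q H, bp M (blank N M B) (lat q i) +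
      2 * ∑ i ∈ IH N q H, bp M (blank N M B) (lat q i) * ind (y ∈ lat q i) := by
    intro y
    rw [mul_sum, ← sum_add_distrib]
    apply sum_congr rfl
    intro t _
    ring
  constructor
  · rintro ⟨h1, h2⟩
    refine ⟨h1, fun y hy => ?_⟩
    rw [h]; exact h2 y hy
  · rintro ⟨h1, h2⟩
    refine ⟨h1, fun y hy => ?_⟩
    rw [← h]; exact h2 y hy

/-- weak condition: every alive lattice is covered or has many unclaimed points -/
def Weak (N q k : ℕ) (S : Finset Cl) (M B : Finset Pt) : Prop :=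
  ∀ t ∈ Q N q, Disjoint (lat q t) B → (∃ C ∈ S, lat q t ⊆ hC q C) ∨
    k ≤ (lat q t ∩ blank N M B).card

/-- strong condition -/
def Strong (N q k : ℕ) (S : Finset Cl) (M B : Finset Pt) : Prop :=
  ∀ t ∈ Q N q, Disjoint (lat q t) B → (∃ C ∈ S, lat q t ⊆ hC q C) ∨
    k + 1 ≤ (lat q t ∩ bigB N q S M B).card

lemma good_merge (hq : 1 ≤ q) (hSt : St N q k nlo S M B Mb) (hw : Weak N q k S M B)
    {D : Finset Cl} (hD : D ⊆ S) {H : Finset Pt} (hsub : ∀ C ∈ S \ D, hC q C ⊆ H)
    (hdisj : ∀ C ∈ D, Disjoint H (hC q C)) : Good N q k M B H := by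
  have key : ∀ t ∈ IH N q H, (∀ C ∈ S \ D, ¬ (lat q t ⊆ hC q C)) →
      bp M (blank N M B) (lat q t) ≤ (1/3) ^ k := by
    intro t ht hnot
    rw [IH, mem_filter] at ht
    apply bp_small hSt.hMB
    intro hal
    rcases hw t ht.1 hal with ⟨C, hCS, hC1⟩ | h
    · exfalso
      by_cases hCD : C ∈ D
      · obtain ⟨p, hp⟩ := lat_nonempty hq t
        exact disjoint_left.mp (hdisj C hCD) (ht.2 hp) (hC1 hp)
      · exact hnot C (mem_sdiff.mpr ⟨hCS, hCD⟩) hC1
    · exact h
  have hpos : (0:ℝ) < (1/3) ^ k := by positivity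
  rw [good_iff_sum]
  constructor
  · apply sum_merge hq _ _ (S \ D) H
    · intro C hCS C' hCS' hne
      exact hSt.hdis C (mem_sdiff.mp hCS).1 C' (mem_sdiff.mp hCS').1 hne
    · exact hsub
    · intro C hCS
      exact ((good_iff_sum _).mp (hSt.hgood C (mem_sdiff.mp hCS).1)).1
    · intro t ht hnot
      have := key t ht hnot
      linarith
  · intro y hy
    apply sum_merge hq _ _ (S \ D) H
    · intro C hCS C' hCS' hne
      exact hSt.hdis C (mem_sdiff.mp hCS).1 C' (mem_sdiff.mp hCS').1 hne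
    · exact hsub
    · intro C hCS
      exact ((good_iff_sum _).mp (hSt.hgood C (mem_sdiff.mp hCS).1)).2 y hy
    · intro t ht hnot
      have h1 := key t ht hnot
      have h2 := bp_nonneg M (blank N M B) (lat q t)
      have h3 := ind_le_one (y ∈ lat q t)
      have h4 := ind_nonneg (y ∈ lat q t)
      nlinarith

lemma card_hits (hSt : St N q k nlo S M B Mb) (ht0 : t0 ∈ Q N q) :
    (S.filter (fun C => (hC q C ∩ lat q t0).Nonempty)).card ≤ q ^ 2 := by
  classical
  have hpos1 : 1 ≤ t0.1.2 := by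
    have := (mem_product.mp ht0).1; have := mem_P.mp this; omega
  have hpos2 : 1 ≤ t0.2.2 := by
    have := (mem_product.mp ht0).2; have := mem_P.mp this; omega
  rw [← card_lat (q := q) hpos1 hpos2]
  have hch : ∀ C : Cl, ∃ p : Pt, (hC q C ∩ lat q t0).Nonempty → p ∈ hC q C ∩ lat q t0 := by
    intro C
    by_cases h : (hC q C ∩ lat q t0).Nonempty
    · obtain ⟨p, hp⟩ := h
      exact ⟨p, fun _ => hp⟩
    · exact ⟨(0,0), fun h' => absurd h' h⟩
  choose f hf using hch
  apply card_le_card_of_injOn f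
  · intro C hC'
    rw [mem_coe, mem_filter] at hC'
    exact (mem_inter.mp (hf C hC'.2)).2
  · intro C hC1 C' hC2 heq
    rw [mem_coe, mem_filter] at hC1 hC2
    by_contra hne
    have h1 := (mem_inter.mp (hf C hC1.2)).1
    have h2 := (mem_inter.mp (hf C' hC2.2)).1
    rw [heq] at h1
    exact disjoint_left.mp (hSt.hdis C hC1.1 C' hC2.1 hne) h1 h2

/-- one step of the cascade -/
lemma cascade_step (hq : 1 ≤ q) (hSt : St N q k nlo S M B Mb) (hw : Weak N q k S M B)
    {E : Finset Pt} (hpot : BP N q k nlo nhi Mb E < 1) (h2 : 2 * nlo ≤ nhi)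
    (h3 : 1 + nlo * q ^ 2 ≤ nhi) (ht0 : t0 ∈ Q N q)
    (hal : Disjoint (lat q t0) B) (hnot : ∀ C ∈ S, ¬ (lat q t0 ⊆ hC q C))
    (hk : (lat q t0 ∩ bigB N q S M B).card ≤ k) :
    ∃ S' : Finset Cl, St N q k nlo S' M B Mb ∧ (∃ C ∈ S', lat q t0 ⊆ hC q C) ∧
      (∀ C ∈ S, ∃ C' ∈ S', hC q C ⊆ hC q C') := by
  classical
  set T := S.filter (fun C => (hC q C ∩ lat q t0).Nonempty) with hT
  have hTS : T ⊆ S := filter_subset _ _
  obtain ⟨C1, hv1, hQ1, hld1, hh1, hs1, hu1, hu2⟩ := loop1 hSt ht0 hal hnot hk T (subset_refl _)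
  have huMb : uC q C1 ⊆ Mb := by
    intro p hp
    have a1 := hu1 hp
    have a2 := hu2 hp
    rw [mem_union, mem_biUnion] at a1 a2
    rcases a1 with h | ⟨C, hC1, hC2⟩
    · exact h
    · exfalso
      rw [mem_sdiff] at hC1
      rcases a2 with h | ⟨F, hF1, hF2⟩
      · apply hC1.2
        rw [hT, mem_filter]
        exact ⟨hC1.1, ⟨p, mem_inter.mpr ⟨hC2, h⟩⟩⟩
      · have hne : C ≠ F := by rintro rfl; exact hC1.2 hF1
        exact disjoint_left.mp (hSt.hdis C hC1.1 F (hTS hF1) hne) hC2 hF2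
  have hsz : C1.1.size ≤ nlo := by
    apply size_le_of_pot hpot hv1 hQ1 huMb
    have h4 : T.card ≤ q ^ 2 := card_hits hSt ht0
    calc C1.1.size ≤ 1 + nlo * T.card := hs1
      _ ≤ 1 + nlo * q ^ 2 := by gcongr
      _ ≤ nhi := h3
  have hSSD : S \ (S \ T) = T := by
    rw [sdiff_sdiff_right_self]
    exact inter_eq_right.mpr hTS
  obtain ⟨D, C2, hDS, hok2, hld2, hh2, hdj2⟩ := loop2 (t0 := t0) hSt hnot hpot h2 (S \ T).card
    (S \ T) rfl
    sdiff_subset
    (by
      intro C hCC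
      rw [mem_sdiff, hT, mem_filter] at hCC
      rw [disjoint_iff_inter_eq_empty, ← not_nonempty_iff_eq_empty]
      intro hcon
      exact hCC.2 ⟨hCC.1, hcon⟩)
    C1 ⟨hv1, hQ1, huMb, hsz⟩ hld1
    (by rw [hSSD]; exact hh1)
    (by rw [hSSD]; exact hu2)
  refine ⟨insert C2 D, ?_, ⟨C2, mem_insert_self _ _, ?_⟩, ?_⟩
  · have hcov : ∀ C ∈ S, ∃ C' ∈ insert C2 D, hC q C ⊆ hC q C' := by
      intro C hCS
      by_cases hCD : C ∈ D
      · exact ⟨C, mem_insert_of_mem hCD, subset_refl _⟩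
      · exact ⟨C2, mem_insert_self _ _, hh2 C (mem_sdiff.mpr ⟨hCS, hCD⟩)⟩
    have hHU : HU q S ⊆ HU q (insert C2 D) := by
      intro p hp
      rw [HU, mem_biUnion] at hp
      obtain ⟨C, hCS, hpC⟩ := hp
      obtain ⟨C', hC', hsub⟩ := hcov C hCS
      rw [HU, mem_biUnion]
      exact ⟨C', hC', hsub hpC⟩
    refine ⟨hSt.hMB, hSt.hM, hSt.hB, hSt.hMb, ?_, ?_, ?_, ?_⟩
    · exact hSt.hMH.trans (union_subset_union_right hHU)
    · intro C hCC
      rw [mem_insert] at hCC
      rcases hCC with rfl | hCC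
      · exact hok2
      · exact hSt.hok C (hDS hCC)
    · intro C hCC C' hCC' hne
      rw [mem_insert] at hCC hCC'
      rcases hCC with rfl | hCC
      · rcases hCC' with rfl | hCC'
        · exact absurd rfl hne
        · exact hdj2 C' hCC'
      · rcases hCC' with rfl | hCC'
        · exact (hdj2 C hCC).symm
        · exact hSt.hdis C (hDS hCC) C' (hDS hCC') hne
    · intro C hCC
      rw [mem_insert] at hCC
      rcases hCC with rfl | hCC
      · exact good_merge hq hSt hw hDS hh2 hdj2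
      · exact hSt.hgood C (hDS hCC)
  · rw [← hld2]; exact ld_sub_hC q C2
  · intro C hCS
    by_cases hCD : C ∈ D
    · exact ⟨C, mem_insert_of_mem hCD, subset_refl _⟩
    · exact ⟨C2, mem_insert_self _ _, hh2 C (mem_sdiff.mpr ⟨hCS, hCD⟩)⟩

/-- uncovered lattices -/
def Unc (N q : ℕ) (S : Finset Cl) : Finset Rect :=
  (Q N q).filter (fun t => ∀ C ∈ S, ¬ (lat q t ⊆ hC q C))

/-- the cascade -/
lemma cascade (hq : 1 ≤ q) {E : Finset Pt} (hpot : BP N q k nlo nhi Mb E < 1) (h2 : 2 * nlo ≤ nhi)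
    (h3 : 1 + nlo * q ^ 2 ≤ nhi) : ∀ (n : ℕ) (S : Finset Cl), (Unc N q S).card = n →
    St N q k nlo S M B Mb → Weak N q k S M B →
    ∃ S' : Finset Cl, St N q k nlo S' M B Mb ∧ Strong N q k S' M B ∧
      (∀ C ∈ S, ∃ C' ∈ S', hC q C ⊆ hC q C') := by
  classical
  intro n
  induction n using Nat.strong_induction_on with
  | _ n ih =>
  intro S hn hSt hw
  by_cases hs : Strong N q k S M B
  · exact ⟨S, hSt, hs, fun C hCS => ⟨C, hCS, subset_refl _⟩⟩
  · unfold Strong at hs
    push Not at hs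
    obtain ⟨t0, ht0, hal, hnot, hk⟩ := hs
    obtain ⟨S', hSt', ⟨C0, hC0, hC0t⟩, hcov⟩ := cascade_step hq hSt hw hpot h2 h3 ht0 hal hnot
      (by omega)
    have hlt : (Unc N q S').card < n := by
      rw [← hn]
      apply card_lt_card
      rw [ssubset_iff_of_subset]
      · refine ⟨t0, ?_, ?_⟩
        · rw [Unc, mem_filter]; exact ⟨ht0, hnot⟩
        · rw [Unc, mem_filter]
          rintro ⟨_, h⟩
          exact h C0 hC0 hC0t
      · intro t ht
        rw [Unc, mem_filter] at ht ⊢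
        refine ⟨ht.1, ?_⟩
        intro C hCS hsub
        obtain ⟨C', hC', hsub'⟩ := hcov C hCS
        exact ht.2 C' hC' (hsub.trans hsub')
    have hw' : Weak N q k S' M B := by
      intro t ht halt
      rcases hw t ht halt with ⟨C, hCS, hCt⟩ | h
      · obtain ⟨C', hC', hsub'⟩ := hcov C hCS
        exact Or.inl ⟨C', hC', hCt.trans hsub'⟩
      · exact Or.inr h
    obtain ⟨S'', h1, h4, h5⟩ := ih _ hlt S' rfl hSt' hw'
    refine ⟨S'', h1, h4, ?_⟩
    intro C hCS
    obtain ⟨C', hC', hsub'⟩ := hcov C hCS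
    obtain ⟨C'', hC'', hsub''⟩ := h5 C' hC'
    exact ⟨C'', hC'', hsub'.trans hsub''⟩

end step

end

end Pool.Agent.H63
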