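import Pool.Agent.H63.LinCount

/-!
# Certificates (binary trees of lattices)
-/

namespace Pool.Agent.H63

open Finset Module

noncomputable section

/-- shapes of certificates -/
inductive Sh
  | leaf (z : Finset (ℕ × ℕ)) : Sh
  | att (s s' : Sh) : Sh

/-- leaves of a shape -/
def Sh.Ix : Sh → Type
  | .leaf _ => Unit
  | .att s s' => s.Ix ⊕ s'.Ix

instance fintypeIx : (s : Sh) → Fintype s.Ix
  | .leaf _ => inferInstanceAs (Fintype Unit)
  | .att s s' => @instFintypeSum _ _ (fintypeIx s) (fintypeIx s')

instance decEqIx : (s : Sh) → DecidableEq s.Ix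
  | .leaf _ => inferInstanceAs (DecidableEq Unit)
  | .att s s' => @instDecidableEqSum _ _ (decEqIx s) (decEqIx s')

/-- number of leaves -/
def Sh.size : Sh → ℕ
  | .leaf _ => 1
  | .att s s' => s.size + s'.size

lemma card_Ix (s : Sh) : Fintype.card s.Ix = s.size := by
  induction s with
  | leaf z => rfl
  | att s s' ih ih' =>
    show Fintype.card (s.Ix ⊕ s'.Ix) = _
    rw [Fintype.card_sum, ih, ih']; rfl

lemma Sh.size_pos (s : Sh) : 1 ≤ s.size := by
  induction s with
  | leaf z => exact le_refl _
  | att s s' ih ih' => simp only [Sh.size]; omega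

/-- columns of a family of rectangles -/
def colsR (q : ℕ) {ι : Type} [Fintype ι] (r : ι → Rect) : Finset ℕ := cols q (fun i => (r i).1)

/-- rows of a family of rectangles -/
def rowsR (q : ℕ) {ι : Type} [Fintype ι] (r : ι → Rect) : Finset ℕ := cols q (fun i => (r i).2)

/-- hull of a family of rectangles -/
def hull (q : ℕ) {ι : Type} [Fintype ι] (r : ι → Rect) : Finset Pt := colsR q r ×ˢ rowsR q r

/-- points of the lattice with given indices -/
def pts (t : Rect) (z : Finset (ℕ × ℕ)) : Finset Pt :=
  z.image (fun p => (t.1.1 + p.1 * t.1.2, t.2.1 + p.2 * t.2.2))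

/-- the set of points recorded by a certificate -/
def U (q : ℕ) : (s : Sh) → (s.Ix → Rect) → Finset Pt
  | .leaf z, r => lat q (r ()) \ pts (r ()) z
  | .att s s', r => (U q s (fun i => r (Sum.inl i)) \ hull q (fun i => r (Sum.inr i))) ∪
      U q s' (fun i => r (Sum.inr i))

/-- leading lattice -/
def lead : (s : Sh) → (s.Ix → Rect) → Rect
  | .leaf _, r => r ()
  | .att s _, r => lead s (fun i => r (Sum.inl i))

/-- valid certificates -/
def Valid (q k : ℕ) : (s : Sh) → (s.Ix → Rect) → Prop
  | .leaf z, r => z.card ≤ k ∧ z ⊆ range q ×ˢ range q ∧ 1 ≤ (r ()).1.2 ∧ 1 ≤ (r ()).2.2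
  | .att s s', r => Valid q k s (fun i => r (Sum.inl i)) ∧ Valid q k s' (fun i => r (Sum.inr i)) ∧
      (hull q (fun i => r (Sum.inl i)) ∩ hull q (fun i => r (Sum.inr i))).Nonempty ∧
      (U q s (fun i => r (Sum.inl i)) ∩ hull q (fun i => r (Sum.inr i)) ⊆
        lat q (lead s (fun i => r (Sum.inl i)))) ∧
      ¬ (lat q (lead s (fun i => r (Sum.inl i))) ⊆ hull q (fun i => r (Sum.inr i)))

lemma cols_sum (q : ℕ) {ι ι' : Type} [Fintype ι] [Fintype ι'] (v : ι ⊕ ι' → ℕ × ℕ) :
    cols q v = cols q (fun i => v (Sum.inl i)) ∪ cols q (fun i => v (Sum.inr i)) := by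
  ext c
  simp only [mem_union, mem_cols]
  constructor
  · rintro ⟨i | i, h⟩
    · exact Or.inl ⟨i, h⟩
    · exact Or.inr ⟨i, h⟩
  · rintro (⟨i, h⟩ | ⟨i, h⟩)
    · exact ⟨Sum.inl i, h⟩
    · exact ⟨Sum.inr i, h⟩

lemma colsR_att (q : ℕ) (s s' : Sh) (r : (Sh.att s s').Ix → Rect) :
    colsR q r = colsR q (fun i : s.Ix => r (Sum.inl i)) ∪ colsR q (fun i : s'.Ix => r (Sum.inr i)) :=
  cols_sum q (fun i : s.Ix ⊕ s'.Ix => (r i).1)

lemma rowsR_att (q : ℕ) (s s' : Sh) (r : (Sh.att s s').Ix → Rect) :
    rowsR q r = rowsR q (fun i : s.Ix => r (Sum.inl i)) ∪ rowsR q (fun i : s'.Ix => r (Sum.inr i)) :=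
  cols_sum q (fun i : s.Ix ⊕ s'.Ix => (r i).2)

lemma hull_att_left (q : ℕ) (s s' : Sh) (r : (Sh.att s s').Ix → Rect) :
    hull q (fun i : s.Ix => r (Sum.inl i)) ⊆ hull q r := by
  unfold hull
  rw [colsR_att, rowsR_att]
  exact product_subset_product subset_union_left subset_union_left

lemma hull_att_right (q : ℕ) (s s' : Sh) (r : (Sh.att s s').Ix → Rect) :
    hull q (fun i : s'.Ix => r (Sum.inr i)) ⊆ hull q r := by
  unfold hull
  rw [colsR_att, rowsR_att]
  exact product_subset_product subset_union_right subset_union_right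

lemma lat_subset_hull_leaf (q : ℕ) (z : Finset (ℕ × ℕ)) (r : (Sh.leaf z).Ix → Rect) :
    hull q r = lat q (r ()) := by
  unfold hull lat colsR rowsR cols
  congr 1
  · exact Finset.ext (fun c => by
      simp only [mem_biUnion]
      exact ⟨fun ⟨i, _, h⟩ => h, fun h => ⟨(), mem_univ _, h⟩⟩)
  · exact Finset.ext (fun c => by
      simp only [mem_biUnion]
      exact ⟨fun ⟨i, _, h⟩ => h, fun h => ⟨(), mem_univ _, h⟩⟩)

lemma U_subset_hull (q : ℕ) (s : Sh) : ∀ (r : s.Ix → Rect), U q s r ⊆ hull q r := by
  induction s with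
  | leaf z =>
    intro r
    rw [lat_subset_hull_leaf]
    exact sdiff_subset
  | att s s' ih ih' =>
    intro r
    refine union_subset ?_ ?_
    · exact (sdiff_subset.trans (ih _)).trans (hull_att_left q s s' r)
    · exact (ih' _).trans (hull_att_right q s s' r)

lemma lead_subset_hull (q : ℕ) (s : Sh) : ∀ (r : s.Ix → Rect), lat q (lead s r) ⊆ hull q r := by
  induction s with
  | leaf z =>
    intro r
    rw [lat_subset_hull_leaf]
    exact subset_refl _
  | att s s' ih ih' =>
    intro r
    exact (ih _).trans (hull_att_left q s s' r)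

lemma Valid.lead_pos {q k : ℕ} {s : Sh} : ∀ {r : s.Ix → Rect}, Valid q k s r →
    1 ≤ (lead s r).1.2 ∧ 1 ≤ (lead s r).2.2 := by
  induction s with
  | leaf z => intro r h; exact h.2.2
  | att s s' ih ih' => intro r h; exact ih h.1

/-- total dimension -/
def DD (q : ℕ) {ι : Type} (r : ι → Rect) : ℕ := Dx q (fun i => (r i).1) + Dx q (fun i => (r i).2)

lemma Dx_unit (q : ℕ) (v : Unit → ℕ × ℕ) : Dx q v ≤ 2 := by
  unfold Dx
  have h1 := Submodule.finrank_le (L q v)
  rw [finrank_fintype_fun_eq_card] at h1
  simpa using h1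

lemma pts_card_le (t : Rect) (z : Finset (ℕ × ℕ)) : (pts t z).card ≤ z.card := card_image_le

/-- **Main inequality for certificates.** -/
theorem key_ineq (q k : ℕ) (lam gam : ℝ) (hlam : 0 ≤ lam) (hgam : 0 ≤ gam)
    (H1 : 2 * lam + k + 1 + gam ≤ (q:ℝ) ^ 2) (H2 : lam + k + q + gam ≤ (q:ℝ) ^ 2)
    (H3 : k + gam ≤ (q:ℝ)) (s : Sh) : ∀ (r : s.Ix → Rect), Valid q k s r →
    (DD q r : ℝ) * lam + ((s.size : ℝ) - 1) * gam + (q:ℝ) ^ 2 ≤ 4 * lam + k + (U q s r).card := by
  induction s with
  | leaf z =>
    intro r hv
    have h1 : DD q r ≤ 4 := by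
      unfold DD
      have e1 := Dx_unit q (fun i => (r i).1)
      have e2 := Dx_unit q (fun i => (r i).2)
      exact Nat.add_le_add e1 e2
    have h2 : (DD q r : ℝ) * lam ≤ 4 * lam :=
      mul_le_mul_of_nonneg_right (by exact_mod_cast h1) hlam
    have h3 : q ^ 2 ≤ k + (U q (Sh.leaf z) r).card := by
      have e1 := card_lat (q := q) (t := r ()) hv.2.2.1 hv.2.2.2
      have e2 : (lat q (r ())).card ≤ (pts (r ()) z).card + (U q (Sh.leaf z) r).card := by
        have := card_le_card (show lat q (r ()) ⊆ pts (r ()) z ∪ (lat q (r ()) \ pts (r ()) z) by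
          rw [union_sdiff_self_eq_union]; exact subset_union_right)
        exact le_trans this (card_union_le _ _)
      have e3 := pts_card_le (r ()) z
      have e4 := hv.1
      omega
    have h4 : (q:ℝ) ^ 2 ≤ k + (U q (Sh.leaf z) r).card := by exact_mod_cast h3
    have h5 : ((Sh.leaf z).size : ℝ) = 1 := by simp [Sh.size]
    rw [h5]
    linarith
  | att s s' ih ih' =>
    intro r hv
    obtain ⟨hv1, hv2, hne, hsub, hnot⟩ := hv
    set r1 : s.Ix → Rect := fun i => r (Sum.inl i) with hr1
    set r2 : s'.Ix → Rect := fun i => r (Sum.inr i) with hr2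
    have i1 := ih r1 hv1
    have i2 := ih' r2 hv2
    -- the number of points
    have hU : U q (Sh.att s s') r = (U q s r1 \ hull q r2) ∪ U q s' r2 := rfl
    have hdisj : Disjoint (U q s r1 \ hull q r2) (U q s' r2) := by
      rw [disjoint_left]
      intro p hp hp'
      exact (mem_sdiff.mp hp).2 (U_subset_hull q s' r2 hp')
    have hcard : (U q (Sh.att s s') r).card + (U q s r1 ∩ hull q r2).card =
        (U q s r1).card + (U q s' r2).card := by
      rw [hU, card_union_of_disjoint hdisj]
      have := card_sdiff_add_card_inter (U q s r1) (hull q r2)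
      omega
    -- the loss
    have hl : (U q s r1 ∩ hull q r2).card ≤
        (ap q (lead s r1).1 ∩ colsR q r2).card * (ap q (lead s r1).2 ∩ rowsR q r2).card := by
      rw [← card_product]
      apply card_le_card
      intro p hp
      have h1 := hsub hp
      have h2 := (mem_inter.mp hp).2
      simp only [lat, mem_product] at h1
      simp only [hull, mem_product] at h2
      simp only [mem_product, mem_inter]
      exact ⟨⟨h1.1, h2.1⟩, ⟨h1.2, h2.2⟩⟩
    have hlp := hv1.lead_pos
    have hleadsub : ap q (lead s r1).1 ⊆ colsR q r1 ∧ ap q (lead s r1).2 ⊆ rowsR q r1 := by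
      have h := lead_subset_hull q s r1
      have hn1 : (ap q (lead s r1).1).Nonempty ∧ (ap q (lead s r1).2).Nonempty := by
        obtain ⟨p, hp⟩ := hne
        have hq : 0 < q := by
          by_contra hq
          have : q = 0 := by omega
          subst this
          simp [hull, colsR, cols, ap] at hp
        constructor <;> rw [← card_pos]
        · rw [card_ap hlp.1]; exact hq
        · rw [card_ap hlp.2]; exact hq
      obtain ⟨⟨c, hc⟩, ⟨d, hd⟩⟩ := hn1
      constructor
      · intro x hx
        have := h (show (x, d) ∈ lat q (lead s r1) by simp only [lat, mem_product]; exact ⟨hx, hd⟩)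
        simp only [hull, mem_product] at this
        exact this.1
      · intro x hx
        have := h (show (c, x) ∈ lat q (lead s r1) by simp only [lat, mem_product]; exact ⟨hc, hx⟩)
        simp only [hull, mem_product] at this
        exact this.2
    -- at least one common column and row
    obtain ⟨p0, hp0⟩ := hne
    rw [mem_inter] at hp0
    simp only [hull, mem_product] at hp0
    -- joins
    have jx1 : Dx q (fun i => (r i).1) + 1 ≤ Dx q (fun i => (r1 i).1) + Dx q (fun i => (r2 i).1) :=
      join1 q (fun i : s.Ix ⊕ s'.Ix => (r i).1) hp0.1.1 hp0.2.1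
    have jy1 : Dx q (fun i => (r i).2) + 1 ≤ Dx q (fun i => (r1 i).2) + Dx q (fun i => (r2 i).2) :=
      join1 q (fun i : s.Ix ⊕ s'.Ix => (r i).2) hp0.1.2 hp0.2.2
    have jx2 : 1 < (ap q (lead s r1).1 ∩ colsR q r2).card →
        Dx q (fun i => (r i).1) + 2 ≤ Dx q (fun i => (r1 i).1) + Dx q (fun i => (r2 i).1) := by
      intro h
      rw [one_lt_card] at h
      obtain ⟨c, hc, c', hc', hcc⟩ := h
      rw [mem_inter] at hc hc'
      exact join2 q (fun i : s.Ix ⊕ s'.Ix => (r i).1) hcc (hleadsub.1 hc.1) hc.2
        (hleadsub.1 hc'.1) hc'.2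
    have jy2 : 1 < (ap q (lead s r1).2 ∩ rowsR q r2).card →
        Dx q (fun i => (r i).2) + 2 ≤ Dx q (fun i => (r1 i).2) + Dx q (fun i => (r2 i).2) := by
      intro h
      rw [one_lt_card] at h
      obtain ⟨c, hc, c', hc', hcc⟩ := h
      rw [mem_inter] at hc hc'
      exact join2 q (fun i : s.Ix ⊕ s'.Ix => (r i).2) hcc (hleadsub.2 hc.1) hc.2
        (hleadsub.2 hc'.1) hc'.2
    have ha : (ap q (lead s r1).1 ∩ colsR q r2).card ≤ q :=
      le_trans (card_le_card inter_subset_left) (ap_card_le' q _)
    have hb : (ap q (lead s r1).2 ∩ rowsR q r2).card ≤ q :=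
      le_trans (card_le_card inter_subset_left) (ap_card_le' q _)
    have hnfull : (ap q (lead s r1).1 ∩ colsR q r2).card < q ∨
        (ap q (lead s r1).2 ∩ rowsR q r2).card < q := by
      by_contra hcon
      push Not at hcon
      apply hnot
      have e1 : ap q (lead s r1).1 ∩ colsR q r2 = ap q (lead s r1).1 :=
        eq_of_subset_of_card_le inter_subset_left (by rw [card_ap hlp.1]; exact hcon.1)
      have e2 : ap q (lead s r1).2 ∩ rowsR q r2 = ap q (lead s r1).2 :=
        eq_of_subset_of_card_le inter_subset_left (by rw [card_ap hlp.2]; exact hcon.2)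
      unfold lat hull
      apply product_subset_product
      · rw [← e1]; exact inter_subset_right
      · rw [← e2]; exact inter_subset_right
    set a := (ap q (lead s r1).1 ∩ colsR q r2).card with hadef
    set b := (ap q (lead s r1).2 ∩ rowsR q r2).card with hbdef
    set l := (U q s r1 ∩ hull q r2).card with hldef
    have hsz : ((Sh.att s s').size : ℝ) = s.size + s'.size := by simp [Sh.size]
    have hcardR : ((U q (Sh.att s s') r).card : ℝ) + l = (U q s r1).card + (U q s' r2).card := by
      exact_mod_cast hcard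
    rw [hsz]
    -- summary: with `tau` the gain in dimension
    have hfin : ∀ tau : ℕ, DD q r + tau ≤ DD q r1 + DD q r2 →
        (4 - (tau:ℝ)) * lam + k + l + gam ≤ (q:ℝ) ^ 2 →
        (DD q r : ℝ) * lam + ((s.size : ℝ) + s'.size - 1) * gam + (q:ℝ) ^ 2 ≤
          4 * lam + k + (U q (Sh.att s s') r).card := by
      intro tau h1 h2
      have h3 : (DD q r : ℝ) + tau ≤ DD q r1 + DD q r2 := by exact_mod_cast h1
      have h4 : ((DD q r : ℝ) + tau) * lam ≤ (DD q r1 + DD q r2) * lam :=
        mul_le_mul_of_nonneg_right h3 hlam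
      nlinarith
    by_cases ha2 : 1 < a
    · by_cases hb2 : 1 < b
      · apply hfin 4
        · have e1 := jx2 ha2
          have e2 := jy2 hb2
          unfold DD; omega
        · have hab : a * b + q ≤ q ^ 2 := by
            rcases hnfull with h | h
            · have : a * b ≤ (q - 1) * q := Nat.mul_le_mul (by omega) hb
              have hq1 : (q - 1) * q + q = q ^ 2 := by
                have : q - 1 + 1 = q := by omega
                calc (q-1)*q + q = (q - 1 + 1) * q := by ring
                  _ = q ^ 2 := by rw [this]; ring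
              omega
            · have : a * b ≤ q * (q - 1) := Nat.mul_le_mul ha (by omega)
              have hq1 : q * (q - 1) + q = q ^ 2 := by
                have : q - 1 + 1 = q := by omega
                calc q*(q-1) + q = q * (q - 1 + 1) := by ring
                  _ = q ^ 2 := by rw [this]; ring
              omega
          have : (l:ℝ) + q ≤ (q:ℝ)^2 := by exact_mod_cast (by omega : l + q ≤ q^2)
          push_cast
          linarith
      · apply hfin 3
        · have e1 := jx2 ha2
          unfold DD; omega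
        · have hlq : l ≤ q := by
            calc l ≤ a * b := hl
              _ ≤ q * 1 := Nat.mul_le_mul ha (by omega)
              _ = q := by ring
          have : (l:ℝ) ≤ q := by exact_mod_cast hlq
          push_cast
          linarith
    · by_cases hb2 : 1 < b
      · apply hfin 3
        · have e1 := jy2 hb2
          unfold DD; omega
        · have hlq : l ≤ q := by
            calc l ≤ a * b := hl
              _ ≤ 1 * q := Nat.mul_le_mul (by omega) hb
              _ = q := by ring
          have : (l:ℝ) ≤ q := by exact_mod_cast hlq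
          push_cast
          linarith
      · apply hfin 2
        · unfold DD; omega
        · have hlq : l ≤ 1 := by
            calc l ≤ a * b := hl
              _ ≤ 1 * 1 := Nat.mul_le_mul (by omega) (by omega)
              _ = 1 := by ring
          have : (l:ℝ) ≤ 1 := by exact_mod_cast hlq
          push_cast
          linarith

end

end Pool.Agent.H63
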